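import Pool.Agent.Work.MP_4eca41_an.C.CKey

/-!
# C7, C8: lower bound of the second `p`-derivative near `S`, strict inequality off `S`

PROOF of `bar_near` (C7).  Let `W = W00 S q` (continuous, `= w` on `S`, `hL` the uniform Lipschitz bounds of the `q y`).  Suppose the statement fails for some
`κ`: there are `y' n ∈ S`, `z n`, `k n` with `sq (z n - y' n) ≤ 1/(n+1)^2`, `|k n| ≤ 1/(n+1)`, `D2 W (k n, 0) (z n) < (J.a (y' n) - κ) (k n)^2` (so `k n ≠ 0`).  Take `y n ∈ S` with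
`q (y n) (z n) ≥ W (z n) - (k n)^2/(n+1)`.  Then `D2 W (k n,0) (z n) ≥ D2 (q (y n)) (k n,0) (z n) - 2 (k n)^2/(n+1)` (`W ≥ q (y n)` at `z n ± k n`).
`S` is compact: along a subsequence `y' n → zz ∈ S`, hence `z n → zz`, `y n → yy ∈ S`.  `q (y n) (z n) → W zz = w zz`.  `hs` holds at `zz` by `strict_of_exp` (`J.a zz < 0`).
By `bar_key`: `yy.1 = zz.1`, so `(z n).1 - (y n).1 → 0`, `Lam = 0` near; the value `q (y n) (z n) > wg (z n) + 1/2` for large `n`, and by the Lipschitz bound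
`q (y n) > wg` on the segment `z n ± (k n, 0)`; by `Bar.rep` at `z n`, `q (y n) (p, (z n).2) = qval … p` for `p` in the segment.  So
`D2 (q (y n)) (k n,0) (z n) = lam ((1-θ) d2 (Aav ρ w · (y+a)) + θ d2 (Aav ρ w · (y+b))) - (lam-1) d2 (Aav ρ w · y)` (at `x = (z n).1 - (y n).1`, step `k n`), and by `Rho.near`
each `d2` is `J.a (…) (k n)^2` up to `κ' (k n)^2`; with `bar_nodes`: `≥ (J.a zz - κ/2) (k n)^2` for large `n`; and `J.a (y' n) → J.a zz`.  Contradiction.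
PROOF of `bar_strict` (C8).  Let `ExpAt w y p s a b c`, `a < 0 < c` and suppose `W y ≥ w y`; choose `y n ∈ S` with `q (y n) y → w y` (`W ≤ w`); subsequence `y n → yy ∈ S`.
`bar_key` with `z n = y` (hs: `strict_of_exp`): `yy.1 = y.1` and `w (y.1, ·)` is affine between `yy.2` and `y.2`.  If `yy.2 ≠ y.2`: on one side of `y.2` the function
`w (y.1, y.2 + τ) = w y + s τ + c τ^2/2 + o(τ^2)` is affine: contradiction to `c > 0`.  If `yy = y`: `y ∈ S ⊆ S0`, `expAt_of_exp2`, `expAt_unique`: `c = J.c y = 0`.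
-/

set_option autoImplicit false

open Set MeasureTheory Filter Topology

namespace Pool.Agent.MP_4eca41

private theorem w00_bdd (w : ℝ × ℝ → ℝ) (S0 S : Set (ℝ × ℝ)) (J : Jets) (ρ : ℝ → ℝ)
    (lam c C : ℝ) (Lam : ℝ → ℝ) (q : ℝ × ℝ → ℝ × ℝ → ℝ)
    (hb : Bar w S0 S J ρ lam c C Lam q) (z : ℝ × ℝ) :
    BddAbove (Set.range fun y : S => q y z) := by
  refine ⟨w z, ?_⟩
  rintro _ ⟨y, rfl⟩
  exact hb.le y y.2 z

private theorem w00_ge (w : ℝ × ℝ → ℝ) (S0 S : Set (ℝ × ℝ)) (J : Jets) (ρ : ℝ → ℝ)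
    (lam c C : ℝ) (Lam : ℝ → ℝ) (q : ℝ × ℝ → ℝ × ℝ → ℝ)
    (hb : Bar w S0 S J ρ lam c C Lam q) (y : ℝ × ℝ) (hy : y ∈ S) (z : ℝ × ℝ) :
    q y z ≤ W00 S q z :=
  le_ciSup (w00_bdd w S0 S J ρ lam c C Lam q hb z) (⟨y, hy⟩ : S)

private theorem w00_exists (S : Set (ℝ × ℝ)) (q : ℝ × ℝ → ℝ × ℝ → ℝ) (hne : S.Nonempty)
    (z : ℝ × ℝ) (r : ℝ) (hr : r < W00 S q z) : ∃ y ∈ S, r < q y z := by
  have : Nonempty S := hne.to_subtype
  obtain ⟨y, hy⟩ := exists_lt_of_lt_ciSup hr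
  exact ⟨y, y.2, hy⟩

/-- lower bound of the second difference of one barrier -/
private theorem d2_bar (w : ℝ × ℝ → ℝ) (S0 S : Set (ℝ × ℝ)) (J : Jets) (ρ : ℝ → ℝ)
    (lam c C : ℝ) (Lam : ℝ → ℝ) (q : ℝ × ℝ → ℝ × ℝ → ℝ)
    (hb : Bar w S0 S J ρ lam c C Lam q) (hS : S ⊆ S0) (κ δ : ℝ)
    (hnear : ∀ y ∈ S0, ∀ x h : ℝ, |x| ≤ δ → |h| ≤ δ →
      |d2 (fun u => Aav ρ w u y) h x - J.a y * h ^ 2| ≤ κ * h ^ 2)
    (y z : ℝ × ℝ) (k : ℝ) (hy : y ∈ S)
    (hq : c * z.2 ^ 2 - C * (1 + z.1 ^ 2) - 1 < q y z)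
    (hx : |z.1 - y.1| ≤ δ) (hk : |k| ≤ δ) (hx2 : |z.1 - y.1| ≤ 1 / 4) (hk2 : |k| ≤ 1 / 4) (A : ℝ)
    (hA : ∀ a b θ : ℝ, Nod S0 y lam (z.2 - y.2) a b θ →
      A ≤ lam * ((1 - θ) * J.a (y.1, y.2 + a) + θ * J.a (y.1, y.2 + b)) - (lam - 1) * J.a y) :
    (A - 2 * lam * κ) * k ^ 2 ≤ D2 (q y) (k, 0) z := by
  obtain ⟨h1, a, b, θ, hn, hr⟩ := hb.rep y hy z hq
  have hlam := hb.lam8
  have hbd := abs_le.1 hx2
  have hbk := abs_le.1 hk2
  have r0 := hr z.1 (by linarith)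
  have r1 := hr (z.1 + k) (by rw [abs_lt]; constructor <;> linarith)
  have r2 := hr (z.1 - k) (by rw [abs_lt]; constructor <;> linarith)
  have e3 : (z.1, z.2) = z := rfl
  rw [e3] at r0
  have g0 : q y z = qval ρ w y lam a b θ z.1 := by
    rw [r0] at hq ⊢
    rcases lt_max_iff.1 hq with h | h
    · rw [max_eq_left h.le, hb.L0 _ (by linarith), sub_zero]
    · exact absurd h (lt_irrefl _)
  have g1 : qval ρ w y lam a b θ (z.1 + k) ≤ q y (z.1 + k, z.2) := by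
    rw [r1]
    refine le_trans (le_of_eq ?_) (le_max_left _ _)
    rw [hb.L0 _ (by rw [abs_le]; constructor <;> linarith), sub_zero]
  have g2 : qval ρ w y lam a b θ (z.1 - k) ≤ q y (z.1 - k, z.2) := by
    rw [r2]
    refine le_trans (le_of_eq ?_) (le_max_left _ _)
    rw [hb.L0 _ (by rw [abs_le]; constructor <;> linarith), sub_zero]
  have e1 : z + (k, 0) = (z.1 + k, z.2) := by
    ext <;> simp
  have e2 : z - (k, 0) = (z.1 - k, z.2) := by
    ext <;> simp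
  unfold D2
  rw [e1, e2, g0]
  have n1 := (abs_le.1 (hnear (y.1, y.2 + a) hn.2.2.1 (z.1 - y.1) k hx hk)).1
  have n2 := (abs_le.1 (hnear (y.1, y.2 + b) hn.2.2.2.1 (z.1 - y.1) k hx hk)).1
  have n3 := (abs_le.1 (hnear y (hS hy) (z.1 - y.1) k hx hk)).2
  have hA2 := hA a b θ hn
  have hid : qval ρ w y lam a b θ (z.1 + k) + qval ρ w y lam a b θ (z.1 - k) -
      2 * qval ρ w y lam a b θ z.1 =
      lam * ((1 - θ) * d2 (fun u => Aav ρ w u (y.1, y.2 + a)) k (z.1 - y.1) +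
        θ * d2 (fun u => Aav ρ w u (y.1, y.2 + b)) k (z.1 - y.1)) -
      (lam - 1) * d2 (fun u => Aav ρ w u y) k (z.1 - y.1) := by
    have f1 : z.1 + k - y.1 = z.1 - y.1 + k := by ring
    have f2 : z.1 - k - y.1 = z.1 - y.1 - k := by ring
    simp only [qval, d2, f1, f2]
    ring
  have hθ0 := hn.1
  have hθ1 : 0 ≤ 1 - θ := by linarith [hn.2.1]
  have m1 := mul_le_mul_of_nonneg_left n1 hθ1
  have m2 := mul_le_mul_of_nonneg_left n2 hθ0
  have m3 := mul_le_mul_of_nonneg_left n3 (by linarith : (0 : ℝ) ≤ lam - 1)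
  have m4 := mul_le_mul_of_nonneg_left (add_le_add m1 m2) (by linarith : (0 : ℝ) ≤ lam)
  have hk0 : 0 ≤ k ^ 2 := sq_nonneg k
  have hκ : 0 ≤ κ * k ^ 2 := (abs_nonneg _).trans (hnear y (hS hy) (z.1 - y.1) k hx hk)
  have m5 := mul_le_mul_of_nonneg_right hA2 hk0
  nlinarith

theorem bar_near (w : ℝ × ℝ → ℝ) (S0 S : Set (ℝ × ℝ)) (J : Jets) (h : WS w S0 S J) (ρ : ℝ → ℝ)
    (hρ : Rho w S0 J ρ) (lam c C : ℝ) (Lam : ℝ → ℝ) (q : ℝ × ℝ → ℝ × ℝ → ℝ)
    (hb : Bar w S0 S J ρ lam c C Lam q) (hne : S.Nonempty)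
    (hc : Continuous (W00 S q)) (heq : ∀ y ∈ S, W00 S q y = w y)
    (hL : ∀ R : ℝ, ∃ L : ℝ, ∀ y ∈ S, ∀ z z' : ℝ × ℝ, |z.1| ≤ R → |z.2| ≤ R → |z'.1| ≤ R →
      |z'.2| ≤ R → |q y z - q y z'| ≤ L * (|z.1 - z'.1| + |z.2 - z'.2|)) :
    ∀ κ : ℝ, 0 < κ → ∃ δ : ℝ, 0 < δ ∧ ∀ y ∈ S, ∀ z ∈ cb y δ, ∀ h : ℝ, |h| ≤ δ →
      (J.a y - κ) * h ^ 2 ≤ D2 (W00 S q) (h, 0) z := by
  intro κ hκ
  by_contra hcon
  push Not at hcon
  have hlam := hb.lam8
  have hl : 0 < lam := by linarith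
  have hpos : ∀ n : ℕ, (0 : ℝ) < 1 / ((n : ℝ) + 1) := fun n => Nat.one_div_pos_of_nat
  choose y' hy'S z hzc k hk hlt using fun n : ℕ => hcon (1 / ((n : ℝ) + 1)) (hpos n)
  have hk0 : ∀ n, k n ≠ 0 := by
    intro n h0
    have h1 := hlt n
    rw [h0] at h1
    have e0 : ((0 : ℝ), (0 : ℝ)) = (0 : ℝ × ℝ) := rfl
    rw [e0] at h1
    simp only [D2, add_zero, sub_zero] at h1
    linarith
  have hex : ∀ n : ℕ, ∃ y ∈ S, W00 S q (z n) - (k n) ^ 2 * (1 / ((n : ℝ) + 1)) < q y (z n) := by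
    intro n
    refine w00_exists S q hne (z n) _ ?_
    have hkn := hk0 n
    have : 0 < (k n) ^ 2 * (1 / ((n : ℝ) + 1)) :=
      mul_pos (by positivity) (hpos n)
    linarith
  choose y hyS hyq using hex
  obtain ⟨⟨zz, yy⟩, ⟨hzS, hyyS⟩, φ, hφ, hlim⟩ :=
    (h.cS.prod h.cS).tendsto_subseq (x := fun n => (y' n, y n)) fun n => ⟨hy'S n, hyS n⟩
  have hφt := hφ.tendsto_atTop
  have ly' : Tendsto (fun n => y' (φ n)) atTop (𝓝 zz) := (continuous_fst.tendsto (zz, yy)).comp hlim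
  have ly : Tendsto (fun n => y (φ n)) atTop (𝓝 yy) := (continuous_snd.tendsto (zz, yy)).comp hlim
  have l0 : Tendsto (fun n : ℕ => 1 / ((n : ℝ) + 1)) atTop (𝓝 0) :=
    tendsto_one_div_add_atTop_nhds_zero_nat
  have l0' : Tendsto (fun n : ℕ => 1 / ((φ n : ℝ) + 1)) atTop (𝓝 0) := l0.comp hφt
  have lk : Tendsto (fun n => k (φ n)) atTop (𝓝 0) :=
    squeeze_zero_norm (fun n => by rw [Real.norm_eq_abs]; exact hk (φ n)) l0'
  have hzy : ∀ n, |(z n).1 - (y' n).1| ≤ 1 / ((n : ℝ) + 1) ∧ |(z n).2 - (y' n).2| ≤ 1 / ((n : ℝ) + 1) := by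
    intro n
    have h1 : sq (z n - y' n) ≤ (1 / ((n : ℝ) + 1)) ^ 2 := hzc n
    simp only [sq, Prod.fst_sub, Prod.snd_sub] at h1
    have a1 := sq_nonneg ((z n).1 - (y' n).1)
    have a2 := sq_nonneg ((z n).2 - (y' n).2)
    exact ⟨abs_le_of_sq_le_sq (by linarith) (hpos n).le, abs_le_of_sq_le_sq (by linarith) (hpos n).le⟩
  have lz1 : Tendsto (fun n => (z (φ n)).1) atTop (𝓝 zz.1) := by
    have h1 : Tendsto (fun n => (z (φ n)).1 - (y' (φ n)).1) atTop (𝓝 0) :=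
      squeeze_zero_norm (fun n => by rw [Real.norm_eq_abs]; exact (hzy (φ n)).1) l0'
    have h2 := h1.add ((continuous_fst.tendsto zz).comp ly')
    simp only [Function.comp_def, sub_add_cancel, zero_add] at h2
    exact h2
  have lz2 : Tendsto (fun n => (z (φ n)).2) atTop (𝓝 zz.2) := by
    have h1 : Tendsto (fun n => (z (φ n)).2 - (y' (φ n)).2) atTop (𝓝 0) :=
      squeeze_zero_norm (fun n => by rw [Real.norm_eq_abs]; exact (hzy (φ n)).2) l0'
    have h2 := h1.add ((continuous_snd.tendsto zz).comp ly')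
    simp only [Function.comp_def, sub_add_cancel, zero_add] at h2
    exact h2
  have lz : Tendsto (fun n => z (φ n)) atTop (𝓝 zz) := lz1.prodMk_nhds lz2
  have ly1 : Tendsto (fun n => (y (φ n)).1) atTop (𝓝 yy.1) := (continuous_fst.tendsto yy).comp ly
  have lW : Tendsto (fun n => W00 S q (z (φ n))) atTop (𝓝 (w zz)) := by
    have h1 := (hc.tendsto zz).comp lz
    rw [heq zz hzS] at h1
    exact h1
  have lq : Tendsto (fun n => q (y (φ n)) (z (φ n))) atTop (𝓝 (w zz)) := by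
    have h1 : Tendsto (fun n => W00 S q (z (φ n)) - (k (φ n)) ^ 2 * (1 / ((φ n : ℝ) + 1))) atTop
        (𝓝 (w zz)) := by
      have := lW.sub ((lk.pow 2).mul l0')
      simpa using this
    exact tendsto_of_tendsto_of_tendsto_of_le_of_le h1 lW (fun n => (hyq (φ n)).le)
      fun n => w00_ge w S0 S J ρ lam c C Lam q hb _ (hyS _) _
  have hs : ∀ r : ℝ, 0 < r → w (zz.1 + r, zz.2) + w (zz.1 - r, zz.2) < 2 * w zz := fun r hr =>
    strict_of_exp w h.conc zz _ _ _ _ _ (expAt_of_exp2 w S0 J h.ex zz (h.sub hzS))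
      (h.neg zz (h.sub hzS)) r hr
  obtain ⟨h1eq, -⟩ := bar_key w S0 S J h ρ hρ lam c C Lam q hb (fun n => z (φ n))
    (fun n => y (φ n)) zz yy (fun n => hyS _) lz ly lq hs
  have hnodes := bar_nodes w S0 S J h ρ hρ lam c C Lam q hb (fun n => z (φ n))
    (fun n => y (φ n)) zz yy (fun n => hyS _) lz ly hzS lq hs (κ / 4) (by linarith)
  obtain ⟨δ, hδ, hnear⟩ := hρ.near (κ / (8 * lam)) (by positivity)
  have lzy : Tendsto (fun n => (z (φ n)).1 - (y (φ n)).1) atTop (𝓝 0) := by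
    have h1 := lz1.sub ly1
    rw [h1eq, sub_self] at h1
    exact h1
  have hwg : Tendsto (fun n => c * (z (φ n)).2 ^ 2 - C * (1 + (z (φ n)).1 ^ 2) - 1) atTop
      (𝓝 (c * zz.2 ^ 2 - C * (1 + zz.1 ^ 2) - 1)) :=
    (((lz2.pow 2).const_mul c).sub (((lz1.pow 2).const_add 1).const_mul C)).sub_const 1
  have hltw : c * zz.2 ^ 2 - C * (1 + zz.1 ^ 2) - 1 < w zz := by
    have := hb.cC zz
    linarith
  have ev1 := hwg.eventually_lt lq hltw
  have lzya := lzy.abs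
  rw [abs_zero] at lzya
  have lka := lk.abs
  rw [abs_zero] at lka
  have ev2 := lzya.eventually_le_const hδ
  have ev3 := lzya.eventually_le_const (by norm_num : (0 : ℝ) < 1 / 4)
  have ev4 := lka.eventually_le_const hδ
  have ev5 := lka.eventually_le_const (by norm_num : (0 : ℝ) < 1 / 4)
  have ev6 := l0'.eventually_le_const (by linarith : (0 : ℝ) < κ / 16)
  have lJ : Tendsto (fun n => J.a (y' (φ n))) atTop (𝓝 (J.a zz)) :=
    (h.ex.ca _ (h.sub hzS)).tendsto.comp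
      (tendsto_nhdsWithin_iff.2 ⟨ly', Eventually.of_forall fun n => h.sub (hy'S _)⟩)
  have ev7 := lJ.eventually_le_const (by linarith : J.a zz < J.a zz + κ / 8)
  obtain ⟨n, f1, f2, f3, f4, f5, f6, f7, f8⟩ :=
    (ev1.and (ev2.and (ev3.and (ev4.and (ev5.and (ev6.and (ev7.and hnodes))))))).exists
  have hD := d2_bar w S0 S J ρ lam c C Lam q hb h.sub (κ / (8 * lam)) δ hnear (y (φ n)) (z (φ n))
    (k (φ n)) (hyS _) f1 f2 f4 f3 f5 (J.a zz - κ / 4) (fun a b θ hn => by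
      have := (abs_lt.1 (f8 a b θ hn)).1
      linarith)
  have hlt' := hlt (φ n)
  have g1 := w00_ge w S0 S J ρ lam c C Lam q hb (y (φ n)) (hyS _) (z (φ n) + (k (φ n), 0))
  have g2 := w00_ge w S0 S J ρ lam c C Lam q hb (y (φ n)) (hyS _) (z (φ n) - (k (φ n), 0))
  have g3 := hyq (φ n)
  unfold D2 at hD hlt'
  have e1 : 2 * lam * (κ / (8 * lam)) = κ / 4 := by
    field_simp
    norm_num
  rw [e1] at hD
  have hkn := hk0 (φ n)
  have hkp : 0 < (k (φ n)) ^ 2 := by positivity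
  have g4 : (k (φ n)) ^ 2 * (1 / ((φ n : ℝ) + 1)) ≤ (k (φ n)) ^ 2 * (κ / 16) :=
    mul_le_mul_of_nonneg_left f6 hkp.le
  have g5 : (J.a (y' (φ n)) - κ) * (k (φ n)) ^ 2 ≤ (J.a zz + κ / 8 - κ) * (k (φ n)) ^ 2 :=
    mul_le_mul_of_nonneg_right (by linarith) hkp.le
  nlinarith

theorem bar_strict (w : ℝ × ℝ → ℝ) (S0 S : Set (ℝ × ℝ)) (J : Jets) (h : WS w S0 S J) (ρ : ℝ → ℝ)
    (hρ : Rho w S0 J ρ) (lam c C : ℝ) (Lam : ℝ → ℝ) (q : ℝ × ℝ → ℝ × ℝ → ℝ)
    (hb : Bar w S0 S J ρ lam c C Lam q) (hne : S.Nonempty) (y : ℝ × ℝ) (p s a b c' : ℝ)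
    (he : ExpAt w y p s a b c') (ha : a < 0) (hc' : 0 < c') : W00 S q y < w y := by
  by_contra hcon
  push Not at hcon
  have hpos : ∀ n : ℕ, (0 : ℝ) < 1 / ((n : ℝ) + 1) := fun n => Nat.one_div_pos_of_nat
  have hex : ∀ n : ℕ, ∃ y' ∈ S, w y - 1 / ((n : ℝ) + 1) < q y' y := fun n =>
    w00_exists S q hne y _ (by linarith [hpos n])
  choose x hxS hxq using hex
  obtain ⟨yy, hyyS, φ, hφ, hlim⟩ := h.cS.tendsto_subseq hxS
  have l0' : Tendsto (fun n : ℕ => 1 / ((φ n : ℝ) + 1)) atTop (𝓝 0) :=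
    tendsto_one_div_add_atTop_nhds_zero_nat.comp hφ.tendsto_atTop
  have lq : Tendsto (fun n => q (x (φ n)) y) atTop (𝓝 (w y)) := by
    have h1 : Tendsto (fun n => w y - 1 / ((φ n : ℝ) + 1)) atTop (𝓝 (w y)) := by
      have := l0'.const_sub (w y)
      simpa using this
    exact tendsto_of_tendsto_of_tendsto_of_le_of_le h1 tendsto_const_nhds
      (fun n => (hxq (φ n)).le) fun n => hb.le _ (hxS _) _
  obtain ⟨h1eq, haff⟩ := bar_key w S0 S J h ρ hρ lam c C Lam q hb (fun _ => y)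
    (fun n => x (φ n)) y yy (fun n => hxS _) tendsto_const_nhds hlim lq
    (fun r hr => strict_of_exp w h.conc y _ _ _ _ _ he ha r hr)
  by_cases hT : yy.2 - y.2 = 0
  · have hyy : yy = y := Prod.ext h1eq (by linarith)
    rw [hyy] at hyyS
    have h1 := expAt_of_exp2 w S0 J h.ex y (h.sub hyyS)
    obtain ⟨-, -, -, -, h2⟩ := expAt_unique w y _ _ _ _ _ _ _ _ _ _ he h1
    rw [h.tt y (h.sub hyyS)] at h2
    linarith
  · obtain ⟨δ, hδ, hh⟩ := he (c' / 8) (by linarith)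
    have hTa : 0 < |yy.2 - y.2| := abs_pos.2 hT
    set T := yy.2 - y.2 with hTdef
    set σ := min 1 (δ / |T|) with hσ
    have hσ0 : 0 < σ := lt_min one_pos (by positivity)
    have hσ1 : σ ≤ 1 := min_le_left _ _
    have hσT : (σ * T) ^ 2 ≤ δ ^ 2 := by
      rw [← sq_abs (σ * T), abs_mul, abs_of_pos hσ0]
      refine pow_le_pow_left₀ (by positivity) ?_ 2
      calc σ * |T| ≤ (δ / |T|) * |T| := mul_le_mul_of_nonneg_right (min_le_right _ _) hTa.le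
        _ = δ := by field_simp
    have hform : ∀ μ : ℝ, 0 ≤ μ → μ ≤ 1 →
        w (y.1, y.2 + μ * T) = μ * w (y.1, yy.2) + (1 - μ) * w y := by
      intro μ m0 m1
      have hbt : yy.2 ≤ y.2 + μ * T ∧ y.2 + μ * T ≤ y.2 ∨ y.2 ≤ y.2 + μ * T ∧ y.2 + μ * T ≤ yy.2 := by
        rcases le_total 0 T with hT0 | hT0
        · right
          constructor
          · nlinarith
          · have : yy.2 = y.2 + T := by rw [hTdef]; ring
            rw [this]
            nlinarith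
        · left
          constructor
          · have : yy.2 = y.2 + T := by rw [hTdef]; ring
            rw [this]
            nlinarith
          · nlinarith
      have h1 := haff (y.2 + μ * T) hbt
      have e1 : y.2 - yy.2 = -T := by rw [hTdef]; ring
      have e2 : y.2 - (y.2 + μ * T) = -(μ * T) := by ring
      have e3 : y.2 + μ * T - yy.2 = μ * T - T := by rw [hTdef]; ring
      have e4 : (y.1, y.2) = y := rfl
      rw [e1, e2, e3, e4] at h1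
      have h2 : T * w (y.1, y.2 + μ * T) = T * (μ * w (y.1, yy.2) + (1 - μ) * w y) := by
        linear_combination -h1
      exact mul_left_cancel₀ hT h2
    have g1 := hform σ hσ0.le hσ1
    have g2 := hform (σ / 2) (by positivity) (by linarith)
    have v1 := hh (0, σ * T) (by simp only [sq]; nlinarith)
    have v2 := hh (0, σ / 2 * T) (by simp only [sq]; nlinarith [sq_nonneg (σ * T)])
    have e5 : y + (0, σ * T) = (y.1, y.2 + σ * T) := by
      ext <;> simp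
    have e6 : y + (0, σ / 2 * T) = (y.1, y.2 + σ / 2 * T) := by
      ext <;> simp
    rw [e5, g1] at v1
    rw [e6, g2] at v2
    simp only [sq] at v1 v2
    have v3 := (abs_le.1 v1).1
    have v4 := (abs_le.1 v2).2
    have v5 := (abs_le.1 v1).2
    have v6 := (abs_le.1 v2).1
    have hp : 0 < (σ * T) ^ 2 := by positivity
    nlinarith

end Pool.Agent.MP_4eca41
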