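import Pool.Agent.Work.MP_4eca41_an.C.CRho
import Pool.Agent.Work.MP_4eca41_an.T.T2

/-!
# C5: the supremum of the barriers: all properties of `W0P` except `near`

PROOF.  `W00 S q z = ⨆ y : S, q y z` over the nonempty set `S`; bounded above by `w z` (Bar.le), below by
`wg z = c z.2^2 - C(1+z.1^2) - 1`.  `≤ w`, `= w` on `S` (Bar.eq), convex in `t` (supremum of convex
functions bounded above pointwise), `D2 (·) (h,0) z ≥ -C' h^2`: `W00 (z ± h) ≥ q y (z ± h)`, so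
`D2 (W00) (h,0) z ≥ D2 (q y) (h,0) z - 2 (W00 z - q y z) ≥ -C' h^2 - 2 ε` for a suitable `y`.  Growth `GrW`: lower bound by `wg` (constant `C+1`),
upper bound by `w` and `GrW w`.  Continuity: `t2_continuous` (with `SC (C'/2)` in `p`: each `q y + (C'/2) p^2` is convex in `p`
(`q y` is continuous by `t2_continuous`... or: `p ↦ q y (p,t) + (C'/2) p^2` is midpoint convex and locally bounded, hence convex), the
supremum too).  `low` from Bar.low.  `equi`: Lipschitz bounds uniform in `y` from `t2_lip`.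
(`p ↦ q y (p,t) + (C'/2) p^2` is convex: `sc_of_d2` and `Bar.contp`.)
-/

set_option autoImplicit false

open Set MeasureTheory Filter Topology

namespace Pool.Agent.MP_4eca41

private theorem csup_sqc (K : ℝ) (hK : 0 ≤ K) : ConvexOn ℝ univ fun x : ℝ => K * x ^ 2 := by
  refine ⟨convex_univ, fun x _ y _ s t hs ht hst => ?_⟩
  simp only [smul_eq_mul]
  have h1 : s * (K * x ^ 2) + t * (K * y ^ 2) - K * (s * x + t * y) ^ 2 =
      K * (s * t * (x - y) ^ 2) := by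
    have h2 : t = 1 - s := by linarith
    subst h2
    ring
  have h3 : 0 ≤ K * (s * t * (x - y) ^ 2) := by positivity
  linarith

private theorem csup_d2 (g : ℝ × ℝ → ℝ) (x t h : ℝ) :
    D2 g (h, 0) (x, t) = d2 (fun p => g (p, t)) h x := by
  simp only [D2, d2, Prod.mk_add_mk, Prod.mk_sub_mk, add_zero, sub_zero]

theorem bar_sup (w : ℝ × ℝ → ℝ) (S0 S : Set (ℝ × ℝ)) (J : Jets) (h : WS w S0 S J) (ρ : ℝ → ℝ)
    (hρ : Rho w S0 J ρ) (lam c C : ℝ) (Lam : ℝ → ℝ) (q : ℝ × ℝ → ℝ × ℝ → ℝ)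
    (hb : Bar w S0 S J ρ lam c C Lam q) (hne : S.Nonempty) :
    Continuous (W00 S q) ∧ (∀ p, ConvexOn ℝ univ fun t => W00 S q (p, t)) ∧
      (∀ y, W00 S q y ≤ w y) ∧ (∀ y ∈ S, W00 S q y = w y) ∧ GrW (W00 S q) ∧
      (∃ C' : ℝ, ∀ (y : ℝ × ℝ) (h : ℝ), -C' * h ^ 2 ≤ D2 (W00 S q) (h, 0) y) ∧
      (∀ κ : ℝ, 0 < κ → ∃ δ : ℝ, 0 < δ ∧ ∀ y ∈ S, ∀ v : ℝ × ℝ, sq v ≤ δ ^ 2 →
        w y + J.q y v - κ * sq v ≤ W00 S q (y + v)) ∧
      ∀ R : ℝ, ∃ L : ℝ, ∀ y ∈ S, ∀ z z' : ℝ × ℝ, |z.1| ≤ R → |z.2| ≤ R → |z'.1| ≤ R → |z'.2| ≤ R →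
        |q y z - q y z'| ≤ L * (|z.1 - z'.1| + |z.2 - z'.2|) := by
  haveI : Nonempty S := hne.to_subtype
  have hbdd : ∀ z, BddAbove (range fun y : S => q y z) := by
    intro z
    refine ⟨w z, ?_⟩
    rintro _ ⟨y, rfl⟩
    exact hb.le y y.2 z
  have hle : ∀ y ∈ S, ∀ z, q y z ≤ W00 S q z := fun y hy z =>
    le_ciSup (hbdd z) (⟨y, hy⟩ : S)
  have hsup : ∀ (z : ℝ × ℝ) (B : ℝ), (∀ y ∈ S, q y z ≤ B) → W00 S q z ≤ B := fun z B hB =>
    ciSup_le fun y => hB y y.2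
  obtain ⟨y0, hy0⟩ := hne
  have hlow : ∀ z : ℝ × ℝ, c * z.2 ^ 2 - C * (1 + z.1 ^ 2) - 1 ≤ W00 S q z := fun z =>
    (hb.ge y0 hy0 z).trans (hle y0 hy0 z)
  have hupp : ∀ z, W00 S q z ≤ w z := fun z => hsup z _ fun y hy => hb.le y hy z
  obtain ⟨C', hC', hsc⟩ := hb.sc
  obtain ⟨c1, C1, hc1, hg⟩ := h.gr
  have hC2 : 0 ≤ C' / 2 := by positivity
  have hbox : ∀ R : ℝ, ∀ z : ℝ × ℝ, |z.1| ≤ R → |z.2| ≤ R →
      -((|C| + |C1|) * (1 + R ^ 2) + 1) ≤ c * z.2 ^ 2 - C * (1 + z.1 ^ 2) - 1 ∧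
      w z ≤ (|C| + |C1|) * (1 + R ^ 2) + 1 := by
    intro R z h1 h2
    have e1 : z.1 ^ 2 ≤ R ^ 2 := by
      rw [← sq_abs z.1]; exact pow_le_pow_left₀ (abs_nonneg _) h1 2
    have e2 : z.2 ^ 2 ≤ R ^ 2 := by
      rw [← sq_abs z.2]; exact pow_le_pow_left₀ (abs_nonneg _) h2 2
    have e3 := (hg z).2
    have e4 : C * (1 + z.1 ^ 2) ≤ |C| * (1 + R ^ 2) :=
      mul_le_mul (le_abs_self C) (by linarith) (by positivity) (abs_nonneg _)
    have e5 : C1 * (1 + z.2 ^ 2) ≤ |C1| * (1 + R ^ 2) :=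
      mul_le_mul (le_abs_self C1) (by linarith) (by positivity) (abs_nonneg _)
    have e6 : 0 ≤ |C| * (1 + R ^ 2) := by positivity
    have e7 : 0 ≤ |C1| * (1 + R ^ 2) := by positivity
    have e8 : 0 ≤ c * z.2 ^ 2 := mul_nonneg hb.cpos.le (sq_nonneg _)
    have e9 : 0 ≤ c1 * z.1 ^ 2 := mul_nonneg hc1.le (sq_nonneg _)
    constructor
    · nlinarith
    · nlinarith
  have hqp : ∀ y ∈ S, ∀ t, ConvexOn ℝ univ fun p => q y (p, t) + C' / 2 * p ^ 2 := by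
    intro y hy t
    refine sc_of_d2 (C' / 2) (fun p => q y (p, t)) (hb.contp y hy t) fun x u => ?_
    have e1 := hsc y hy (x, t) u
    rw [csup_d2] at e1
    have e2 : -(2 * (C' / 2)) * u ^ 2 = -C' * u ^ 2 := by ring
    rw [e2]
    exact e1
  have hWt : ∀ p, ConvexOn ℝ univ fun t => W00 S q (p, t) := by
    intro p
    refine ⟨convex_univ, fun x _ y _ s t hs ht hst => ?_⟩
    refine hsup _ _ fun z hz => ?_
    refine ((hb.conv z hz p).2 (mem_univ x) (mem_univ y) hs ht hst).trans ?_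
    exact add_le_add (smul_le_smul_of_nonneg_left (hle z hz _) hs)
      (smul_le_smul_of_nonneg_left (hle z hz _) ht)
  have hWp : ∀ t, ConvexOn ℝ univ fun p => W00 S q (p, t) + C' / 2 * p ^ 2 := by
    intro t
    refine ⟨convex_univ, fun x _ y _ a b ha hb' hab => ?_⟩
    have e1 : W00 S q (a • x + b • y, t) ≤ a • (W00 S q (x, t) + C' / 2 * x ^ 2) +
        b • (W00 S q (y, t) + C' / 2 * y ^ 2) - C' / 2 * (a • x + b • y) ^ 2 := by
      refine hsup _ _ fun z hz => ?_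
      have e2 := (hqp z hz t).2 (mem_univ x) (mem_univ y) ha hb' hab
      have e3 := mul_le_mul_of_nonneg_left (hle z hz (x, t)) ha
      have e4 := mul_le_mul_of_nonneg_left (hle z hz (y, t)) hb'
      simp only [smul_eq_mul] at e2 ⊢
      linarith
    simp only [smul_eq_mul] at e1 ⊢
    linarith
  have hcont : Continuous (W00 S q) := by
    refine t2_continuous (C' / 2) hC2 (W00 S q) (fun t => Or.inl (hWp t))
      (fun p => Or.inl ((hWt p).add (csup_sqc _ hC2))) fun R => ?_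
    refine ⟨(|C| + |C1|) * (1 + R ^ 2) + 1, fun z h1 h2 => ?_⟩
    obtain ⟨e1, e2⟩ := hbox R z h1 h2
    rw [abs_le]
    exact ⟨e1.trans (hlow z), (hupp z).trans e2⟩
  refine ⟨hcont, hWt, hupp, fun y hy => le_antisymm (hupp y) ?_, ?_, ⟨C', fun z u => ?_⟩, ?_, ?_⟩
  · rw [← hb.eq y hy]
    exact hle y hy y
  · refine ⟨min c c1, max (C + 1) C1, lt_min hb.cpos hc1, fun z => ⟨?_, ?_⟩⟩
    · refine le_trans ?_ (hlow z)
      have e1 : min c c1 * z.2 ^ 2 ≤ c * z.2 ^ 2 :=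
        mul_le_mul_of_nonneg_right (min_le_left _ _) (sq_nonneg _)
      have e2 : (C + 1) * (1 + z.1 ^ 2) ≤ max (C + 1) C1 * (1 + z.1 ^ 2) :=
        mul_le_mul_of_nonneg_right (le_max_left _ _) (by positivity)
      nlinarith [sq_nonneg z.1]
    · refine (hupp z).trans ((hg z).2.trans ?_)
      have e1 : min c c1 * z.1 ^ 2 ≤ c1 * z.1 ^ 2 :=
        mul_le_mul_of_nonneg_right (min_le_right _ _) (sq_nonneg _)
      have e2 : C1 * (1 + z.2 ^ 2) ≤ max (C + 1) C1 * (1 + z.2 ^ 2) :=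
        mul_le_mul_of_nonneg_right (le_max_right _ _) (by positivity)
      linarith
  · have e1 : W00 S q z ≤ (W00 S q (z + (u, 0)) + W00 S q (z - (u, 0)) + C' * u ^ 2) / 2 := by
      refine hsup _ _ fun y hy => ?_
      have e2 := hsc y hy z u
      unfold D2 at e2
      have e3 := hle y hy (z + (u, 0))
      have e4 := hle y hy (z - (u, 0))
      linarith
    unfold D2
    linarith
  · intro κ hκ
    obtain ⟨δ, hδ, hl⟩ := hb.low κ hκ
    exact ⟨δ, hδ, fun y hy v hv => (hl y hy v hv).trans (hle y hy _)⟩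
  · intro R
    have hR : 0 < |R| + 1 := by positivity
    obtain ⟨L, hL0, hL⟩ := t2_lip (C' / 2) (|R| + 1)
      ((|C| + |C1|) * (1 + (2 * (|R| + 1)) ^ 2) + 1) hC2 hR
    refine ⟨L, fun y hy z z' h1 h2 h3 h4 => ?_⟩
    have hRR : R ≤ |R| + 1 := (le_abs_self R).trans (by linarith)
    refine hL (q y) (fun t => Or.inl (hqp y hy t))
      (fun p => Or.inl ((hb.conv y hy p).add (csup_sqc _ hC2))) (fun x h5 h6 => ?_) z z'
      (h1.trans hRR) (h2.trans hRR) (h3.trans hRR) (h4.trans hRR)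
    obtain ⟨e1, e2⟩ := hbox _ x h5 h6
    rw [abs_le]
    exact ⟨e1.trans (hb.ge y hy x), (hb.le y hy x).trans e2⟩

end Pool.Agent.MP_4eca41
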