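import Pool.Agent.Work.MP_4eca41_an.Defs

/-!
# C3: piecewise linear interpolation at geometric nodes and the dilation inequality (one variable)

Nodes: `τ 0 > τ 1 > ... → 0` on the right, `-τ' k` on the left, `2 τ (k+1) ≤ τ k ≤ 8 τ (k+1)`.
`ln a b g σ` is the value at `σ` of the line through `(a, g a)`, `(b, g b)`.
`PI τ τ' g σ = sup_k max (ln (τ (k+1)) (τ k) g σ) (ln (-τ' (k+1)) (-τ' k) g σ)`.

PROOFS.  For convex `g` and `a ≠ b`, `ln a b g σ ≤ g σ` for `σ` outside the open interval between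
`a, b`, and `ln a b g σ ≥ g σ` inside.  Boundedness of the supremum at `σ > 0`: for every `k` the line
number `k` (right) is `≤` line `0` or line `j` where ... see next line; simplest: all lines are supporting-type
lines with slopes between two slopes `m ≤ M` of `g` on `[-τ' 0 - 1, τ 0 + 1]`, and they are `≤ g 0` at `0`
(as `0` is outside of all open node intervals), so they are `≤ g 0 + max |m| |M| |σ|`.
(a) `σ ∈ [τ (k+1), τ k]`: any other line `l` is `≤ g` at both ends `τ (k+1)`, `τ k` (ends lie outside its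
open interval), where `ln (τ (k+1)) (τ k)` equals `g`; so `l ≤ ln (τ (k+1)) (τ k)` in between, and
`PI = ln (τ (k+1)) (τ k) = (1-θ) g (τ (k+1)) + θ g (τ k)`.  `σ = 0`: all lines `≤ g 0`, and
`ln (τ (k+1)) (τ k) g 0 → g 0` (slopes bounded, `τ (k+1) → 0`, `g` continuous), so `PI g 0 = g 0`.
`σ ≥ τ 0`: all other lines are `≤ g = ln (τ 1) (τ 0)` at `τ 0` and have smaller slope: `PI = ln (τ 1) (τ 0)`.
Same on the left.  Convexity: supremum of affine functions.
(c) `pi_dil`: `t > 0`, `σ = t/lam`.  If `σ ∈ [τ (k+1), τ k]`: `τ k ≤ 8 τ (k+1) ≤ lam σ = t`, so `g (τ (k+1))` and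
`g (τ k)` are `≤` the chord of `g` over `[0, t]`, hence `PI g σ ≤ g 0 + (g t - g 0)/lam`.  If `σ > τ 0`, with
`s` the slope of `ln (τ 1) (τ 0)`: `g t ≥ g (τ 0) + s (t - τ 0)` and
`lam (g (τ 0) + s (σ - τ 0)) - (lam-1) g 0 = g (τ 0) + s (t - τ 0) + (lam-1) (g (τ 0) - g 0 - s τ 0) ≤ g t`, since the
slope `s` is at least the slope of the chord over `[0, τ 0]`.  `t < 0`: reflect.  `t = 0`: equality.
(d) `PI g σ - g 0`: slopes of all lines are bounded by `L` and `PI g` is `g 0` at `0`, convex with slopes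
in `[-L, L]`.
-/

set_option autoImplicit false

open Set MeasureTheory

namespace Pool.Agent.MP_4eca41

/-- Value at `σ` of the line through `(a, g a)` and `(b, g b)`. -/
noncomputable def ln (a b : ℝ) (g : ℝ → ℝ) (σ : ℝ) : ℝ := g a + (σ - a) / (b - a) * (g b - g a)

/-- Piecewise linear interpolation at the nodes, extended linearly. -/
noncomputable def PI (τ τ' : ℕ → ℝ) (g : ℝ → ℝ) (σ : ℝ) : ℝ :=
  ⨆ k : ℕ, max (ln (τ (k + 1)) (τ k) g σ) (ln (-τ' (k + 1)) (-τ' k) g σ)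

/-- Admissible node sequence. -/
def NS (τ : ℕ → ℝ) : Prop := ∀ k, 0 < τ k ∧ 2 * τ (k + 1) ≤ τ k ∧ τ k ≤ 8 * τ (k + 1)

private theorem cl_three {g : ℝ → ℝ} (hg : ConvexOn ℝ univ g) {x y z : ℝ} (h1 : x ≤ y)
    (h2 : y ≤ z) (h3 : x < z) : (z - x) * g y ≤ (z - y) * g x + (y - x) * g z := by
  have h4 : 0 < z - x := by linarith
  have h5 := hg.2 (mem_univ x) (mem_univ z)
    (show (0 : ℝ) ≤ (z - y) / (z - x) from div_nonneg (by linarith) h4.le)
    (show (0 : ℝ) ≤ (y - x) / (z - x) from div_nonneg (by linarith) h4.le) (by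
      rw [← add_div, div_eq_one_iff_eq h4.ne']
      ring)
  have h6 : ((z - y) / (z - x)) • x + ((y - x) / (z - x)) • z = y := by
    simp only [smul_eq_mul]
    field_simp
    ring
  rw [h6] at h5
  simp only [smul_eq_mul] at h5
  have h7 := mul_le_mul_of_nonneg_left h5 h4.le
  have h8 : (z - x) * ((z - y) / (z - x) * g x + (y - x) / (z - x) * g z) =
      (z - y) * g x + (y - x) * g z := by
    field_simp
  rwa [h8] at h7

private theorem cl_mul {a b : ℝ} (h : a ≠ b) (g : ℝ → ℝ) (σ : ℝ) :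
    (b - a) * ln a b g σ = (b - a) * g a + (σ - a) * (g b - g a) := by
  have h1 : b - a ≠ 0 := sub_ne_zero.2 (Ne.symm h)
  unfold ln
  field_simp

private theorem cl_a (a b : ℝ) (g : ℝ → ℝ) : ln a b g a = g a := by
  unfold ln
  simp

private theorem cl_b {a b : ℝ} (h : a ≠ b) (g : ℝ → ℝ) : ln a b g b = g b := by
  have h1 : b - a ≠ 0 := sub_ne_zero.2 (Ne.symm h)
  unfold ln
  rw [div_self h1]
  ring

private theorem cl_symm {a b : ℝ} (h : a ≠ b) (g : ℝ → ℝ) (σ : ℝ) :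
    ln a b g σ = ln b a g σ := by
  have h1 : b - a ≠ 0 := sub_ne_zero.2 (Ne.symm h)
  have h2 : a - b ≠ 0 := sub_ne_zero.2 h
  have e1 := cl_mul h g σ
  have e2 := cl_mul (Ne.symm h) g σ
  have e3 : (b - a) * ln a b g σ = (b - a) * ln b a g σ := by
    have e4 : (b - a) * ln b a g σ = -((a - b) * ln b a g σ) := by ring
    rw [e1, e4, e2]
    ring
  exact mul_left_cancel₀ h1 e3

private theorem cl_comb (a b : ℝ) (g : ℝ → ℝ) (p q x y : ℝ) (hpq : p + q = 1) :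
    ln a b g (p * x + q * y) = p * ln a b g x + q * ln a b g y := by
  have hq : q = 1 - p := by linarith
  subst hq
  unfold ln
  ring

/-- comparison of two lines to the right of two points -/
private theorem cl_cmp (a b a' b' : ℝ) (g : ℝ → ℝ) {p q σ : ℝ} (h1 : p < q) (h2 : q ≤ σ)
    (h3 : ln a' b' g p ≤ ln a b g p) (h4 : ln a b g q ≤ ln a' b' g q) :
    ln a b g σ ≤ ln a' b' g σ := by
  -- `q` is between `p` and `σ`
  rcases eq_or_lt_of_le h2 with h5 | h5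
  · rw [← h5]
    exact h4
  have h6 : 0 < σ - p := by linarith
  have e1 : q = ((σ - q) / (σ - p)) * p + ((q - p) / (σ - p)) * σ := by
    field_simp
    ring
  have e2 : (σ - q) / (σ - p) + (q - p) / (σ - p) = 1 := by
    rw [← add_div, div_eq_one_iff_eq h6.ne']
    ring
  have e3 : 0 < (σ - q) / (σ - p) := div_pos (by linarith) h6
  have e4 : 0 < (q - p) / (σ - p) := div_pos (by linarith) h6
  rw [e1, cl_comb _ _ _ _ _ _ _ e2, cl_comb _ _ _ _ _ _ _ e2] at h4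
  have e5 := mul_le_mul_of_nonneg_left h3 e3.le
  have e6 : ((q - p) / (σ - p)) * ln a b g σ ≤ ((q - p) / (σ - p)) * ln a' b' g σ := by
    linarith
  exact le_of_mul_le_mul_left e6 e4

/-- comparison of two lines between two points -/
private theorem cl_btw (a b a' b' : ℝ) (g : ℝ → ℝ) {p q θ : ℝ} (h0 : 0 ≤ θ) (h1 : θ ≤ 1)
    (h3 : ln a b g p ≤ ln a' b' g p) (h4 : ln a b g q ≤ ln a' b' g q) :
    ln a b g ((1 - θ) * p + θ * q) ≤ ln a' b' g ((1 - θ) * p + θ * q) := by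
  rw [cl_comb _ _ _ _ _ _ _ (by ring), cl_comb _ _ _ _ _ _ _ (by ring)]
  have e1 := mul_le_mul_of_nonneg_left h3 (by linarith : 0 ≤ 1 - θ)
  have e2 := mul_le_mul_of_nonneg_left h4 h0
  linarith

private theorem cl_out {g : ℝ → ℝ} (hg : ConvexOn ℝ univ g) {a b σ : ℝ} (hab : a < b)
    (h : σ ≤ a ∨ b ≤ σ) : ln a b g σ ≤ g σ := by
  have h1 : 0 < b - a := by linarith
  have e1 := cl_mul hab.ne g σ
  have e2 : (b - a) * ln a b g σ ≤ (b - a) * g σ := by
    rw [e1]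
    rcases h with h | h
    · have e3 := cl_three hg h hab.le (by linarith)
      nlinarith [e3]
    · have e3 := cl_three hg hab.le h (by linarith)
      nlinarith [e3]
  exact le_of_mul_le_mul_left e2 h1

private theorem ns_lt {τ : ℕ → ℝ} (h : NS τ) (k : ℕ) : τ (k + 1) < τ k := by
  have h1 := h (k + 1)
  have h2 := h k
  linarith [h1.1, h2.2.1]

private theorem ns_anti {τ : ℕ → ℝ} (h : NS τ) : Antitone τ :=
  antitone_nat_of_succ_le fun k => (ns_lt h k).le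

private theorem ns_pow {τ : ℕ → ℝ} (h : NS τ) (k : ℕ) : τ k ≤ τ 0 * (1 / 2) ^ k := by
  induction k with
  | zero => simp
  | succ k ih =>
    have h1 := (h k).2.1
    rw [pow_succ]
    linarith

private theorem ns_small {τ : ℕ → ℝ} (h : NS τ) {ε : ℝ} (hε : 0 < ε) : ∃ k, τ (k + 1) ≤ ε := by
  have h0 := (h 0).1
  obtain ⟨k, hk⟩ := exists_pow_lt_of_lt_one (show 0 < ε / τ 0 from div_pos hε h0)
    (show (1 / 2 : ℝ) < 1 by norm_num)
  refine ⟨k, ?_⟩
  have h1 := (ns_lt h k).le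
  have h2 := ns_pow h k
  have h3 : τ 0 * (1 / 2) ^ k < ε := by
    rw [lt_div_iff₀ h0] at hk
    linarith
  linarith

/-- right lines outside of their interval -/
private theorem rl_out {τ : ℕ → ℝ} (h : NS τ) {g : ℝ → ℝ} (hg : ConvexOn ℝ univ g) {σ : ℝ}
    (k : ℕ) (hσ : σ ≤ τ (k + 1) ∨ τ k ≤ σ) : ln (τ (k + 1)) (τ k) g σ ≤ g σ :=
  cl_out hg (ns_lt h k) hσ

/-- left lines outside of their interval -/
private theorem ll_out {τ' : ℕ → ℝ} (h' : NS τ') {g : ℝ → ℝ} (hg : ConvexOn ℝ univ g) {σ : ℝ}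
    (k : ℕ) (hσ : σ ≤ -τ' k ∨ -τ' (k + 1) ≤ σ) : ln (-τ' (k + 1)) (-τ' k) g σ ≤ g σ := by
  have h1 := ns_lt h' k
  rw [cl_symm (by intro h2; linarith)]
  exact cl_out hg (by linarith) hσ

private theorem cl_neg (a b : ℝ) (g : ℝ → ℝ) (σ : ℝ) :
    ln (-a) (-b) g σ = ln a b (fun x => g (-x)) (-σ) := by
  unfold ln
  have h1 : (σ - -a) / (-b - -a) = (-σ - a) / (b - a) := by
    rw [← neg_div_neg_eq]
    congr 1 <;> ring
  rw [h1]

private theorem pi_refl (τ τ' : ℕ → ℝ) (g : ℝ → ℝ) (σ : ℝ) :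
    PI τ τ' g σ = PI τ' τ (fun x => g (-x)) (-σ) := by
  unfold PI
  congr 1
  funext k
  rw [cl_neg, cl_neg (τ (k + 1)) (τ k) (fun x => g (-x)) (-σ)]
  simp only [neg_neg]
  rw [max_comm]

private theorem cvx_neg {g : ℝ → ℝ} (hg : ConvexOn ℝ univ g) :
    ConvexOn ℝ univ fun x => g (-x) := by
  refine ⟨convex_univ, fun x _ y _ a b ha hb hab => ?_⟩
  have h1 := hg.2 (mem_univ (-x)) (mem_univ (-y)) ha hb hab
  have h2 : a • (-x) + b • (-y) = -(a • x + b • y) := by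
    simp only [smul_eq_mul]
    ring
  rw [h2] at h1
  exact h1

/-- right lines are bounded -/
private theorem rl_bdd {τ : ℕ → ℝ} (h : NS τ) {g : ℝ → ℝ} (hg : ConvexOn ℝ univ g) (σ : ℝ)
    (k : ℕ) : ln (τ (k + 1)) (τ k) g σ ≤ max (g σ) (max (g 0) (g (τ 0))) := by
  by_cases h1 : σ ≤ τ (k + 1) ∨ τ k ≤ σ
  · exact (rl_out h hg k h1).trans (le_max_left _ _)
  · push Not at h1
    refine le_trans ?_ (le_max_right _ _)
    set M := max (g 0) (g (τ 0)) with hM
    have h0 := (h 0).1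
    have hn : ∀ j, g (τ j) ≤ M := by
      intro j
      have h2 := cl_three hg (h j).1.le (ns_anti h (Nat.zero_le j)) h0
      have h3 := (h j).1
      have h4 := ns_anti h (Nat.zero_le j)
      have h5 : (τ 0 - τ j) * g 0 ≤ (τ 0 - τ j) * M :=
        mul_le_mul_of_nonneg_left (le_max_left _ _) (by linarith)
      have h6 : (τ j - 0) * g (τ 0) ≤ (τ j - 0) * M :=
        mul_le_mul_of_nonneg_left (le_max_right _ _) (by linarith)
      have h7 : (τ 0 - 0) * g (τ j) ≤ (τ 0 - 0) * M := by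
        nlinarith [h2, h5, h6]
      exact le_of_mul_le_mul_left h7 (by linarith)
    have hlt := ns_lt h k
    have hd : 0 < τ k - τ (k + 1) := by linarith
    have e1 := cl_mul hlt.ne g σ
    have e2 : (τ k - τ (k + 1)) * ln (τ (k + 1)) (τ k) g σ ≤ (τ k - τ (k + 1)) * M := by
      rw [e1]
      have e3 : (σ - τ (k + 1)) * g (τ k) ≤ (σ - τ (k + 1)) * M :=
        mul_le_mul_of_nonneg_left (hn k) (by linarith)
      have e4 : (τ k - σ) * g (τ (k + 1)) ≤ (τ k - σ) * M :=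
        mul_le_mul_of_nonneg_left (hn (k + 1)) (by linarith)
      nlinarith [e3, e4]
    exact le_of_mul_le_mul_left e2 hd

private theorem ll_bdd {τ' : ℕ → ℝ} (h' : NS τ') {g : ℝ → ℝ} (hg : ConvexOn ℝ univ g) (σ : ℝ)
    (k : ℕ) : ln (-τ' (k + 1)) (-τ' k) g σ ≤ max (g σ) (max (g 0) (g (-τ' 0))) := by
  rw [cl_neg]
  have h1 := rl_bdd h' (cvx_neg hg) (-σ) k
  simp only [neg_neg, neg_zero] at h1
  exact h1

private theorem pi_bdd (τ τ' : ℕ → ℝ) (h : NS τ) (h' : NS τ') (g : ℝ → ℝ)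
    (hg : ConvexOn ℝ univ g) (σ : ℝ) : BddAbove (Set.range fun k : ℕ =>
      max (ln (τ (k + 1)) (τ k) g σ) (ln (-τ' (k + 1)) (-τ' k) g σ)) := by
  refine ⟨max (max (g σ) (max (g 0) (g (τ 0)))) (max (g σ) (max (g 0) (g (-τ' 0)))), ?_⟩
  rintro x ⟨k, rfl⟩
  exact max_le_max (rl_bdd h hg σ k) (ll_bdd h' hg σ k)

private theorem pi_le_of (τ τ' : ℕ → ℝ) (g : ℝ → ℝ) (σ c : ℝ)
    (h1 : ∀ k, ln (τ (k + 1)) (τ k) g σ ≤ c) (h2 : ∀ k, ln (-τ' (k + 1)) (-τ' k) g σ ≤ c) :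
    PI τ τ' g σ ≤ c := ciSup_le fun k => max_le (h1 k) (h2 k)

private theorem rl_le (τ τ' : ℕ → ℝ) (h : NS τ) (h' : NS τ') (g : ℝ → ℝ)
    (hg : ConvexOn ℝ univ g) (σ : ℝ) (k : ℕ) : ln (τ (k + 1)) (τ k) g σ ≤ PI τ τ' g σ :=
  (le_max_left _ _).trans (le_ciSup (pi_bdd τ τ' h h' g hg σ) k)

private theorem ll_le (τ τ' : ℕ → ℝ) (h : NS τ) (h' : NS τ') (g : ℝ → ℝ)
    (hg : ConvexOn ℝ univ g) (σ : ℝ) (k : ℕ) : ln (-τ' (k + 1)) (-τ' k) g σ ≤ PI τ τ' g σ :=
  (le_max_right _ _).trans (le_ciSup (pi_bdd τ τ' h h' g hg σ) k)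

/-- the value in the interval number `k` -/
private theorem pi_val (τ τ' : ℕ → ℝ) (h : NS τ) (h' : NS τ') (g : ℝ → ℝ)
    (hg : ConvexOn ℝ univ g) (k : ℕ) {θ : ℝ} (h0 : 0 ≤ θ) (h1 : θ ≤ 1) :
    PI τ τ' g ((1 - θ) * τ (k + 1) + θ * τ k) = (1 - θ) * g (τ (k + 1)) + θ * g (τ k) := by
  have hlt := ns_lt h k
  have hval : ln (τ (k + 1)) (τ k) g ((1 - θ) * τ (k + 1) + θ * τ k) =
      (1 - θ) * g (τ (k + 1)) + θ * g (τ k) := by
    rw [cl_comb _ _ _ _ _ _ _ (by ring), cl_a, cl_b hlt.ne]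
  rw [← hval]
  refine le_antisymm (pi_le_of _ _ _ _ _ (fun j => ?_) (fun j => ?_))
    (rl_le τ τ' h h' g hg _ k)
  · rcases lt_trichotomy j k with hj | hj | hj
    · have h2 : τ k ≤ τ (j + 1) := ns_anti h hj
      refine cl_btw _ _ _ _ _ h0 h1 ?_ ?_
      · rw [cl_a]
        exact rl_out h hg j (Or.inl (by linarith))
      · rw [cl_b hlt.ne]
        exact rl_out h hg j (Or.inl h2)
    · rw [hj]
    · have h2 : τ j ≤ τ (k + 1) := ns_anti h hj
      refine cl_btw _ _ _ _ _ h0 h1 ?_ ?_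
      · rw [cl_a]
        exact rl_out h hg j (Or.inr h2)
      · rw [cl_b hlt.ne]
        exact rl_out h hg j (Or.inr (by linarith))
  · have h2 := (h' (j + 1)).1
    have h3 := (h (k + 1)).1
    have h4 := (h k).1
    refine cl_btw _ _ _ _ _ h0 h1 ?_ ?_
    · rw [cl_a]
      exact ll_out h' hg j (Or.inr (by linarith))
    · rw [cl_b hlt.ne]
      exact ll_out h' hg j (Or.inr (by linarith))

/-- the value to the right of the first node -/
private theorem pi_far (τ τ' : ℕ → ℝ) (h : NS τ) (h' : NS τ') (g : ℝ → ℝ)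
    (hg : ConvexOn ℝ univ g) {σ : ℝ} (hσ : τ 0 ≤ σ) : PI τ τ' g σ = ln (τ 1) (τ 0) g σ := by
  have hlt := ns_lt h 0
  refine le_antisymm (pi_le_of _ _ _ _ _ (fun j => ?_) (fun j => ?_))
    (rl_le τ τ' h h' g hg _ 0)
  · rcases Nat.eq_zero_or_pos j with hj | hj
    · rw [hj]
    · have h2 : τ j ≤ τ (0 + 1) := ns_anti h (by omega)
      have hltj := ns_lt h j
      refine cl_cmp _ _ _ _ _ (p := τ j) (q := τ 0) (by linarith) hσ ?_ ?_
      · rw [cl_b hltj.ne]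
        exact rl_out h hg 0 (Or.inl h2)
      · rw [cl_b hlt.ne]
        exact rl_out h hg j (Or.inr (by linarith))
  · have h2 := (h' j).1
    have h5 := (h' (j + 1)).1
    have h3 := (h 0).1
    have h6 := (h 1).1
    have hltj := ns_lt h' j
    refine cl_cmp _ _ _ _ _ (p := -τ' j) (q := τ 0) (by linarith) hσ ?_ ?_
    · rw [cl_b (a := -τ' (j + 1)) (b := -τ' j) (by intro h4; linarith)]
      exact rl_out h hg 0 (Or.inl (by show -τ' j ≤ τ 1; linarith))
    · rw [cl_b hlt.ne]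
      exact ll_out h' hg j (Or.inr (by linarith))

theorem pi_convex (τ τ' : ℕ → ℝ) (h : NS τ) (h' : NS τ') (g : ℝ → ℝ) (hg : ConvexOn ℝ univ g) :
    ConvexOn ℝ univ (PI τ τ' g) := by
  refine ⟨convex_univ, fun x _ y _ a b ha hb hab => ?_⟩
  simp only [smul_eq_mul]
  refine pi_le_of _ _ _ _ _ (fun k => ?_) (fun k => ?_)
  · rw [cl_comb _ _ _ _ _ _ _ hab]
    exact add_le_add (mul_le_mul_of_nonneg_left (rl_le τ τ' h h' g hg x k) ha)
      (mul_le_mul_of_nonneg_left (rl_le τ τ' h h' g hg y k) hb)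
  · rw [cl_comb _ _ _ _ _ _ _ hab]
    exact add_le_add (mul_le_mul_of_nonneg_left (ll_le τ τ' h h' g hg x k) ha)
      (mul_le_mul_of_nonneg_left (ll_le τ τ' h h' g hg y k) hb)

theorem pi_zero (τ τ' : ℕ → ℝ) (h : NS τ) (h' : NS τ') (g : ℝ → ℝ) (hg : ConvexOn ℝ univ g) :
    PI τ τ' g 0 = g 0 := by
  refine le_antisymm (pi_le_of _ _ _ _ _ (fun k => ?_) (fun k => ?_)) ?_
  · exact rl_out h hg k (Or.inl (h (k + 1)).1.le)
  · exact ll_out h' hg k (Or.inr (by linarith [(h' (k + 1)).1]))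
  · -- lower bound
    have hm : ∀ x, 0 < x → g 0 + (g 0 - g (-1)) * x ≤ g x := by
      intro x hx
      have h1 := cl_three hg (show (-1 : ℝ) ≤ 0 by norm_num) hx.le (by linarith)
      nlinarith [h1]
    have h0 := (h 0).1
    -- slopes
    set s : ℝ := (g (τ 0 + 1) - g (τ 0)) with hs
    have hsl : ∀ k, (g (τ k) - g (τ (k + 1))) ≤ s * (τ k - τ (k + 1)) := by
      intro k
      have hlt := ns_lt h k
      have hk := ns_anti h (Nat.zero_le k)
      have e1 := cl_three hg hlt.le (show τ k ≤ τ 0 + 1 by linarith) (by linarith)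
      have e2 := cl_three hg (show τ (k + 1) ≤ τ 0 by linarith)
        (show τ 0 ≤ τ 0 + 1 by linarith) (by linarith)
      have hd : 0 < τ 0 + 1 - τ (k + 1) := by linarith
      -- slope on the interval is at most slope to `τ 0 + 1`, which is at most `s`
      have e3 : (τ 0 + 1 - τ (k + 1)) * (g (τ k) - g (τ (k + 1))) ≤
          (τ k - τ (k + 1)) * (g (τ 0 + 1) - g (τ (k + 1))) := by nlinarith [e1]
      have e4 : g (τ 0 + 1) - g (τ (k + 1)) ≤ (τ 0 + 1 - τ (k + 1)) * s := by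
        rw [hs]
        nlinarith [e2]
      have e5 : (τ k - τ (k + 1)) * (g (τ 0 + 1) - g (τ (k + 1))) ≤
          (τ k - τ (k + 1)) * ((τ 0 + 1 - τ (k + 1)) * s) :=
        mul_le_mul_of_nonneg_left e4 (by linarith)
      have e6 : (τ 0 + 1 - τ (k + 1)) * (g (τ k) - g (τ (k + 1))) ≤
          (τ 0 + 1 - τ (k + 1)) * (s * (τ k - τ (k + 1))) := by
        nlinarith [e3, e5]
      exact le_of_mul_le_mul_left e6 hd
    have hlow : ∀ k, g 0 - (|s| + |g 0 - g (-1)|) * τ (k + 1) ≤ PI τ τ' g 0 := by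
      intro k
      refine le_trans ?_ (rl_le τ τ' h h' g hg 0 k)
      have hlt := ns_lt h k
      have hd : 0 < τ k - τ (k + 1) := by linarith
      have hp := (h (k + 1)).1
      have e1 := cl_mul hlt.ne g 0
      have e2 := hm (τ (k + 1)) hp
      have e3 := hsl k
      have e4 : (τ k - τ (k + 1)) * (g (τ (k + 1)) - s * τ (k + 1)) ≤
          (τ k - τ (k + 1)) * ln (τ (k + 1)) (τ k) g 0 := by
        rw [e1]
        have e5 : τ (k + 1) * (g (τ k) - g (τ (k + 1))) ≤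
            τ (k + 1) * (s * (τ k - τ (k + 1))) := mul_le_mul_of_nonneg_left e3 hp.le
        nlinarith [e5]
      have e6 := le_of_mul_le_mul_left e4 hd
      have e7 : s * τ (k + 1) ≤ |s| * τ (k + 1) :=
        mul_le_mul_of_nonneg_right (le_abs_self _) hp.le
      have e8 : -(|g 0 - g (-1)| * τ (k + 1)) ≤ (g 0 - g (-1)) * τ (k + 1) := by
        have e9 := mul_le_mul_of_nonneg_right (neg_abs_le (g 0 - g (-1))) hp.le
        linarith
      nlinarith [e2, e6, e7, e8]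
    set C : ℝ := |s| + |g 0 - g (-1)| + 1 with hC
    have hCp : 0 < C := by
      have := abs_nonneg s
      have := abs_nonneg (g 0 - g (-1))
      linarith
    refine le_of_forall_pos_le_add fun ε hε => ?_
    obtain ⟨k, hk⟩ := ns_small h (div_pos hε hCp)
    have h2 := hlow k
    have h3 : (|s| + |g 0 - g (-1)|) * τ (k + 1) ≤ ε := by
      have hp := (h (k + 1)).1
      rw [le_div_iff₀ hCp] at hk
      have e1 : (|s| + |g 0 - g (-1)|) * τ (k + 1) ≤ C * τ (k + 1) :=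
        mul_le_mul_of_nonneg_right (by linarith) hp.le
      linarith
    linarith

theorem pi_pos (τ τ' : ℕ → ℝ) (h : NS τ) (h' : NS τ') (σ : ℝ) (h0 : 0 < σ) (h1 : σ ≤ τ 0) :
    ∃ (k : ℕ) (θ : ℝ), 0 ≤ θ ∧ θ ≤ 1 ∧ τ (k + 1) ≤ σ ∧ σ ≤ τ k ∧
      σ = (1 - θ) * τ (k + 1) + θ * τ k ∧ ∀ g : ℝ → ℝ, ConvexOn ℝ univ g →
        PI τ τ' g σ = (1 - θ) * g (τ (k + 1)) + θ * g (τ k) := by
  classical
  have hex : ∃ k, τ (k + 1) ≤ σ := ns_small h h0
  set k := Nat.find hex with hk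
  have hk1 : τ (k + 1) ≤ σ := Nat.find_spec hex
  have hk2 : σ ≤ τ k := by
    rcases Nat.eq_zero_or_pos k with hz | hz
    · rw [hz]
      exact h1
    · have h2 := Nat.find_min hex (m := k - 1) (by omega)
      have h3 : k - 1 + 1 = k := by omega
      rw [h3] at h2
      exact (not_le.1 h2).le
  have hlt := ns_lt h k
  have hd : 0 < τ k - τ (k + 1) := by linarith
  have hσ : σ = (1 - (σ - τ (k + 1)) / (τ k - τ (k + 1))) * τ (k + 1) +
      (σ - τ (k + 1)) / (τ k - τ (k + 1)) * τ k := by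
    field_simp
    ring
  have ht0 : 0 ≤ (σ - τ (k + 1)) / (τ k - τ (k + 1)) := div_nonneg (by linarith) hd.le
  have ht1 : (σ - τ (k + 1)) / (τ k - τ (k + 1)) ≤ 1 := by
    rw [div_le_one hd]
    linarith
  refine ⟨k, (σ - τ (k + 1)) / (τ k - τ (k + 1)), ht0, ht1, hk1, hk2, hσ, fun g hg => ?_⟩
  have h4 := pi_val τ τ' h h' g hg k ht0 ht1
  rw [← hσ] at h4
  exact h4

theorem pi_neg (τ τ' : ℕ → ℝ) (h : NS τ) (h' : NS τ') (σ : ℝ) (h0 : σ < 0) (h1 : -τ' 0 ≤ σ) :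
    ∃ (k : ℕ) (θ : ℝ), 0 ≤ θ ∧ θ ≤ 1 ∧ -τ' k ≤ σ ∧ σ ≤ -τ' (k + 1) ∧
      σ = (1 - θ) * (-τ' (k + 1)) + θ * (-τ' k) ∧ ∀ g : ℝ → ℝ, ConvexOn ℝ univ g →
        PI τ τ' g σ = (1 - θ) * g (-τ' (k + 1)) + θ * g (-τ' k) := by
  obtain ⟨k, θ, e0, e1, e2, e3, e4, e5⟩ := pi_pos τ' τ h' h (-σ) (by linarith) (by linarith)
  refine ⟨k, θ, e0, e1, by linarith, by linarith, by linarith, fun g hg => ?_⟩
  rw [pi_refl, e5 _ (cvx_neg hg)]

theorem pi_ge (τ τ' : ℕ → ℝ) (h : NS τ) (h' : NS τ') (g : ℝ → ℝ) (hg : ConvexOn ℝ univ g) (σ : ℝ)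
    (h0 : -τ' 0 ≤ σ) (h1 : σ ≤ τ 0) : g σ ≤ PI τ τ' g σ := by
  rcases lt_trichotomy σ 0 with hs | hs | hs
  · obtain ⟨k, θ, e0, e1, e2, e3, e4, e5⟩ := pi_neg τ τ' h h' σ hs h0
    rw [e5 g hg]
    have h2 := hg.2 (mem_univ (-τ' (k + 1))) (mem_univ (-τ' k)) (by linarith : 0 ≤ 1 - θ) e0
      (by ring)
    simp only [smul_eq_mul] at h2
    rw [← e4] at h2
    exact h2
  · rw [hs, pi_zero τ τ' h h' g hg]
  · obtain ⟨k, θ, e0, e1, e2, e3, e4, e5⟩ := pi_pos τ τ' h h' σ hs h1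
    rw [e5 g hg]
    have h2 := hg.2 (mem_univ (τ (k + 1))) (mem_univ (τ k)) (by linarith : 0 ≤ 1 - θ) e0
      (by ring)
    simp only [smul_eq_mul] at h2
    rw [← e4] at h2
    exact h2

private theorem pi_dil_pos (τ τ' : ℕ → ℝ) (h : NS τ) (h' : NS τ') (g : ℝ → ℝ)
    (hg : ConvexOn ℝ univ g) (lam : ℝ) (hl : 8 ≤ lam) (t : ℝ) (ht : 0 < t) :
    lam * PI τ τ' g (t / lam) - (lam - 1) * g 0 ≤ g t := by
  have hlp : 0 < lam := by linarith
  have hσ : 0 < t / lam := div_pos ht hlp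
  have hlt : lam * (t / lam) = t := by
    field_simp
  rcases le_or_gt (t / lam) (τ 0) with h1 | h1
  · obtain ⟨k, θ, e0, e1, e2, e3, e4, e5⟩ := pi_pos τ τ' h h' (t / lam) hσ h1
    rw [e5 g hg]
    have hk1 := (h (k + 1)).1
    have hk0 := (h k).1
    have hk8 := (h k).2.2
    have ha : τ (k + 1) ≤ t := by
      have := mul_le_mul_of_nonneg_left e2 hlp.le
      nlinarith
    have hb : τ k ≤ t := by
      have h3 : 8 * (t / lam) ≤ lam * (t / lam) := mul_le_mul_of_nonneg_right hl hσ.le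
      linarith
    have c1 := cl_three hg hk1.le ha ht
    have c2 := cl_three hg hk0.le hb ht
    -- the chord of `g` over `[0, t]`
    have d1 : (1 - θ) * ((t - 0) * g (τ (k + 1))) ≤
        (1 - θ) * ((t - τ (k + 1)) * g 0 + (τ (k + 1) - 0) * g t) :=
      mul_le_mul_of_nonneg_left c1 (by linarith)
    have d2 : θ * ((t - 0) * g (τ k)) ≤ θ * ((t - τ k) * g 0 + (τ k - 0) * g t) :=
      mul_le_mul_of_nonneg_left c2 e0
    have d3 : t * ((1 - θ) * g (τ (k + 1)) + θ * g (τ k)) ≤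
        (t - t / lam) * g 0 + (t / lam) * g t := by
      have d4 : (t - t / lam) * g 0 + (t / lam) * g t =
          (1 - θ) * ((t - τ (k + 1)) * g 0 + (τ (k + 1) - 0) * g t) +
          θ * ((t - τ k) * g 0 + (τ k - 0) * g t) := by
        rw [e4]
        ring
      rw [d4]
      linarith
    have d5 : t * (lam * ((1 - θ) * g (τ (k + 1)) + θ * g (τ k)) - (lam - 1) * g 0) ≤
        t * g t := by
      have d6 := mul_le_mul_of_nonneg_left d3 hlp.le
      have d7 : lam * ((t - t / lam) * g 0 + (t / lam) * g t) =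
          (lam * t - t) * g 0 + t * g t := by
        field_simp
      rw [d7] at d6
      nlinarith [d6]
    exact le_of_mul_le_mul_left d5 ht
  · have h0 := (h 0).1
    rw [pi_far τ τ' h h' g hg h1.le]
    have htσ : t / lam ≤ t := by
      have h3 : 1 * (t / lam) ≤ lam * (t / lam) :=
        mul_le_mul_of_nonneg_right (by linarith) hσ.le
      linarith
    have e1 : ln (τ 1) (τ 0) g t ≤ g t := rl_out h hg 0 (Or.inr (by linarith))
    have e2 : ln (τ 1) (τ 0) g 0 ≤ g 0 := rl_out h hg 0 (Or.inl (h 1).1.le)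
    have e3 : ln (τ 1) (τ 0) g (t / lam) = (1 - 1 / lam) * ln (τ 1) (τ 0) g 0 +
        (1 / lam) * ln (τ 1) (τ 0) g t := by
      rw [← cl_comb _ _ _ _ _ _ _ (by ring)]
      congr 1
      ring
    rw [e3]
    have e4 : lam * ((1 - 1 / lam) * ln (τ 1) (τ 0) g 0 + (1 / lam) * ln (τ 1) (τ 0) g t) =
        (lam - 1) * ln (τ 1) (τ 0) g 0 + ln (τ 1) (τ 0) g t := by
      field_simp
    rw [e4]
    have e5 := mul_le_mul_of_nonneg_left e2 (by linarith : 0 ≤ lam - 1)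
    linarith

theorem pi_dil (τ τ' : ℕ → ℝ) (h : NS τ) (h' : NS τ') (g : ℝ → ℝ) (hg : ConvexOn ℝ univ g)
    (lam : ℝ) (hl : 8 ≤ lam) (t : ℝ) : lam * PI τ τ' g (t / lam) - (lam - 1) * g 0 ≤ g t := by
  rcases lt_trichotomy t 0 with ht | ht | ht
  · have h1 := pi_dil_pos τ' τ h' h (fun x => g (-x)) (cvx_neg hg) lam hl (-t) (by linarith)
    simp only [neg_zero, neg_neg] at h1
    rw [pi_refl]
    rw [neg_div] at h1
    exact h1
  · rw [ht, zero_div, pi_zero τ τ' h h' g hg]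
    linarith
  · exact pi_dil_pos τ τ' h h' g hg lam hl t ht

private theorem pi_lip_pos (τ τ' : ℕ → ℝ) (h : NS τ) (h' : NS τ') (g : ℝ → ℝ)
    (hg : ConvexOn ℝ univ g) (L : ℝ)
    (hL : ∀ x y : ℝ, -τ' 0 ≤ x → x ≤ τ 0 → -τ' 0 ≤ y → y ≤ τ 0 → |g x - g y| ≤ L * |x - y|)
    (σ : ℝ) (hσ : 0 < σ) : |PI τ τ' g σ - g 0| ≤ L * |σ| := by
  have h0 := (h 0).1
  have h0' := (h' 0).1
  rw [abs_of_pos hσ]
  have hn : ∀ x, 0 ≤ x → x ≤ τ 0 → |g x - g 0| ≤ L * x := by
    intro x hx1 hx2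
    have h1 := hL x 0 (by linarith) hx2 (by linarith) h0.le
    rw [sub_zero, abs_of_nonneg hx1] at h1
    exact h1
  rcases le_or_gt σ (τ 0) with h1 | h1
  · obtain ⟨k, θ, e0, e1, e2, e3, e4, e5⟩ := pi_pos τ τ' h h' σ hσ h1
    rw [e5 g hg]
    have a1 := hn (τ (k + 1)) (h (k + 1)).1.le (ns_anti h (Nat.zero_le _))
    have a2 := hn (τ k) (h k).1.le (ns_anti h (Nat.zero_le _))
    have a3 : (1 - θ) * g (τ (k + 1)) + θ * g (τ k) - g 0 =
        (1 - θ) * (g (τ (k + 1)) - g 0) + θ * (g (τ k) - g 0) := by ring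
    rw [a3]
    refine (abs_add_le _ _).trans ?_
    rw [abs_mul, abs_mul, abs_of_nonneg (by linarith : 0 ≤ 1 - θ), abs_of_nonneg e0]
    have b1 := mul_le_mul_of_nonneg_left a1 (by linarith : 0 ≤ 1 - θ)
    have b2 := mul_le_mul_of_nonneg_left a2 e0
    have b3 : L * σ = (1 - θ) * (L * τ (k + 1)) + θ * (L * τ k) := by
      conv_lhs => rw [e4]
      ring
    linarith
  · rw [pi_far τ τ' h h' g hg h1.le]
    have hlt := ns_lt h 0
    have hp1 := (h 1).1
    have hd : 0 < τ 0 - τ 1 := by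
      have : τ (0 + 1) = τ 1 := rfl
      linarith
    have a1 := hn (τ 0) h0.le le_rfl
    have a2 := hL (τ 0) (τ 1) (by linarith) le_rfl (by linarith) (by linarith)
    rw [abs_of_pos hd] at a2
    have a3 : ln (τ 1) (τ 0) g σ - g 0 = (g (τ 0) - g 0) +
        (σ - τ 0) / (τ 0 - τ 1) * (g (τ 0) - g (τ 1)) := by
      unfold ln
      field_simp
      ring
    rw [a3]
    refine (abs_add_le _ _).trans ?_
    rw [abs_mul, abs_of_nonneg (div_nonneg (by linarith : 0 ≤ σ - τ 0) hd.le)]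
    have b1 := mul_le_mul_of_nonneg_left a2
      (div_nonneg (by linarith : 0 ≤ σ - τ 0) hd.le)
    have b2 : (σ - τ 0) / (τ 0 - τ 1) * (L * (τ 0 - τ 1)) = L * (σ - τ 0) := by
      field_simp
    rw [b2] at b1
    linarith

theorem pi_lip (τ τ' : ℕ → ℝ) (h : NS τ) (h' : NS τ') (g : ℝ → ℝ) (hg : ConvexOn ℝ univ g) (L : ℝ)
    (hL : ∀ x y : ℝ, -τ' 0 ≤ x → x ≤ τ 0 → -τ' 0 ≤ y → y ≤ τ 0 → |g x - g y| ≤ L * |x - y|) (σ : ℝ) :
    |PI τ τ' g σ - g 0| ≤ L * |σ| := by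
  rcases lt_trichotomy σ 0 with hs | hs | hs
  · have h1 := pi_lip_pos τ' τ h' h (fun x => g (-x)) (cvx_neg hg) L (by
      intro x y hx1 hx2 hy1 hy2
      have h2 := hL (-x) (-y) (by linarith) (by linarith) (by linarith) (by linarith)
      have h3 : |(-x) - (-y)| = |x - y| := by
        rw [← abs_neg]
        congr 1
        ring
      rw [h3] at h2
      exact h2) (-σ) (by linarith)
    simp only [neg_zero, abs_neg] at h1
    rw [pi_refl]
    exact h1
  · rw [hs, pi_zero τ τ' h h' g hg]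
    simp
  · exact pi_lip_pos τ τ' h h' g hg L hL σ hs

end Pool.Agent.MP_4eca41
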