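import Pool.Agent.Work.MP_4eca41_an.C.CRho
import Pool.Agent.Work.MP_4eca41_an.C.CLin
import Pool.Agent.Work.MP_4eca41_an.T.T1
import Pool.Agent.Work.MP_4eca41_an.T.T2

/-!
# C4: the cut off dilation barriers  (paper: C2, C3, C4, C5 low)

PROOF.  `c, C` from `h.gr` (enlarge `C` so that `C ≥ 0`); `wg z = c z.2^2 - C (1 + z.1^2) - 1 ≤ w z - 1`.
`r0` from `h.net`, wlog `r0 ≤ 1`.  For `y ∈ S` choose `τ k ∈ [r0 4^(-k)/2, r0 4^(-k)]` with `(y.1, y.2 + τ k) ∈ S0` and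
`τ' k` in the same interval with `(y.1, y.2 - τ' k) ∈ S0`: `NS τ`, `NS τ'` (`τ k ≥ r0 4^(-k)/2 = 2 r0 4^(-k-1) ≥ 2 τ (k+1)`,
`τ k ≤ r0 4^(-k) = 8 (r0 4^(-k-1)/2) ≤ 8 τ (k+1)`).
For `|h| ≤ 1`, `g_h τ = Aav ρ w h (y.1, y.2 + τ)` is convex (`aav_convex`); let
`Q y h t = lam * PI τ τ' g_h (t/lam) - (lam - 1) * g_h 0`.  Let `B, L` be a bound and a Lipschitz constant in the second
variable of `w` on the compact box containing all `(y.1 + u, y.2 + τ)`, `y ∈ S`, `|u| ≤ 2`, `|τ| ≤ 1` (Lipschitz: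
`w` is convex in the second variable and bounded on a larger box; `t2_lip` or directly); they are also a bound and
a Lipschitz constant (in `τ`) for `g_h`, `|h| ≤ 1`.  By `pi_lip`: `|Q y h t - g_h 0| ≤ L |t|`, so `Q y h t ≤ B + L |t|`
(INDEPENDENT of `lam`).  Choose `T0 > 0` with `B + L |t| < wg (y.1 + h, y.2 + t)` for `|t| ≥ T0`, `|h| ≤ 1`, `y ∈ S`
(quadratic growth in `t`, `S` bounded).  `lam = max 8 (2 T0/r0)`: `|t| ≤ T0` implies `|t/lam| ≤ r0/2 ≤ τ 0, τ' 0`.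
`Lam : ℝ → ℝ` even, `0 ≤ Lam`, `Lam = 0` on `|h| ≤ 1/2`, `Lam = Lmax` on `|h| ≥ 3/4` with second differences bounded in
absolute value by `CL h^2` (e.g. `Lmax * smoothTransition (16 (h^2 - 1/4)/5)`), where `Lmax > B + L |t| - wg` for all `|t| ≤ T0`, `|h| ≤ 1`.
`q y (p, t) = max (Q y (p - y.1) (t - y.2) - Lam (p - y.1)) (wg (p, t))` if `|p - y.1| < 1`, `= wg (p, t)` otherwise.
So `q y z = wg z` if `|z.1 - y.1| ≥ 3/4` or `|z.2 - y.2| ≥ T0`.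
* contp: `q y (·, t)` is `wg` for `|p - y.1| ≥ 3/4` and the maximum of two continuous functions for `|p - y.1| < 1` (`PI` is a fixed combination
  `(1-θ) g_h a + θ g_h b` of values for fixed `t` with `|t/lam|` between the nodes; for larger `|t|` `q y = wg`).
* conv: for `|p - y.1| < 1` the maximum of two convex functions of `t` (`pi_convex`, composition with `t ↦ t/lam`).
* le: `pi_dil` gives `Q y h t ≤ g_h t = Aav ρ w h (y.1, y.2+t) ≤ w (y.1+h, y.2+t)` (`aav_le`).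
* eq: `Q y 0 0 = lam g_0 0 - (lam-1) g_0 0 = w y` (`pi_zero`, `aav_zero`), `Lam 0 = 0`, `wg y < w y`.
* rep: if `wg z < q y z`, then `|z.1 - y.1| < 3/4`, `|z.2 - y.2| < T0`; `t = z.2 - y.2`, `σ = t/lam`; nodes: `t = 0`: `a = b = 0`, `θ = 0`
  (`(y.1, y.2) ∈ S0`); `t > 0`: `pi_pos`, `a = τ (k+1)`, `b = τ k`; `t < 0`: `pi_neg`, `a = -τ' (k+1)`, `b = -τ' k`.  The representation of
  `PI` holds for all convex functions, in particular for all `g_{p - y.1}`.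
* sc: let `C'` be large.  Pointwise criterion `lower_of_pointwise` (T1) for the continuous function `q y` (or directly): at a point `z` with
  `q y z = wg z`: `D2 (q y) (h,0) z ≥ D2 wg (h,0) z = -2 C h^2`.  At `z` with `q y z > wg z`: by `rep`, near `z` on the horizontal line
  `q y ≥ qval - Lam` with equality at `z`, and `d2` of `p ↦ qval` is
  `lam ((1-θ) d2 (Aav · (y+a)) + θ d2 (Aav · (y+b))) - (lam-1) d2 (Aav · y) ≥ -(2 lam) Cρ h^2` by `Rho.bd`.  (Continuity in `p` on the line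
  is enough: `q y (·, t)` is continuous: it is `wg` for `|p-y.1| ≥ 3/4` and the maximum of two continuous functions for `|p-y.1| < 1`;
  use `t1_convex` for `p ↦ q y (p,t) + C' p^2`.)  `C'` is uniform in `y`.
* low: for small `v = (h, t)`: `q y (y+v) ≥ Q y h t = lam PI(t/lam) - (lam-1) g_h 0 ≥ lam g_h (t/lam) - (lam-1) g_h 0` (`pi_ge`, `Lam h = 0`).
  `g_h τ = ∫ w (y + (h + ρ s, τ)) ker`, and `|w (y+u) - w y - J.q y u| ≤ κ' sq u`, `J.q y` is (as `J.c y = 0`) affine in the second variable;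
  `∫ J.q y (h+ρ s, τ) ker = J.q y (h, τ) + J.a y ρ^2/18`.  So `g_h τ ≥ w y + J.q y (h, τ) - |J.a y| ρ^2 - κ' C (h^2 + τ^2)`, an analogous upper bound at
  `τ = 0`, and `lam J.q y (h, t/lam) - (lam-1) J.q y (h, 0) = J.q y (h, t)`.  `ρ h ≤ κ'' |h|` (Rho.small).  Choose `κ', κ''` small after `lam`.
-/

set_option autoImplicit false

open Set MeasureTheory

namespace Pool.Agent.MP_4eca41


private theorem cb_shift {g : ℝ → ℝ} (hg : ConvexOn ℝ univ g) (a : ℝ) :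
    ConvexOn ℝ univ fun t => g (a + t) := by
  refine ⟨convex_univ, fun x _ y _ s t hs ht hst => ?_⟩
  have h1 := hg.2 (mem_univ (a + x)) (mem_univ (a + y)) hs ht hst
  have h2 : s • (a + x) + t • (a + y) = a + (s • x + t • y) := by
    simp only [smul_eq_mul]
    have h3 : t = 1 - s := by linarith
    subst h3
    ring
  rw [h2] at h1
  exact h1

private theorem cb_scale {g : ℝ → ℝ} (hg : ConvexOn ℝ univ g) {lam : ℝ} (hl : 0 < lam)
    (b k : ℝ) : ConvexOn ℝ univ fun t => lam * g ((t - b) / lam) - k := by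
  refine ⟨convex_univ, fun x _ y _ s t hs ht hst => ?_⟩
  have h1 := hg.2 (mem_univ ((x - b) / lam)) (mem_univ ((y - b) / lam)) hs ht hst
  have h2 : s • ((x - b) / lam) + t • ((y - b) / lam) = ((s • x + t • y) - b) / lam := by
    simp only [smul_eq_mul]
    have h3 : t = 1 - s := by linarith
    subst h3
    field_simp
    ring
  rw [h2] at h1
  simp only [smul_eq_mul] at h1 ⊢
  have h3 : t = 1 - s := by linarith
  subst h3
  nlinarith

private theorem cb_quad {c : ℝ} (hc : 0 ≤ c) (k : ℝ) :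
    ConvexOn ℝ univ fun t : ℝ => c * t ^ 2 - k - 1 := by
  refine ⟨convex_univ, fun x _ y _ s t hs ht hst => ?_⟩
  simp only [smul_eq_mul]
  have h3 : t = 1 - s := by linarith
  subst h3
  have h4 : 0 ≤ c * (s * (1 - s) * (x - y) ^ 2) := by positivity
  nlinarith

private noncomputable def cbPsi (x : ℝ) : ℝ := (max (|x| - 1 / 2) 0) ^ 2

private theorem cbPsi_nn (x : ℝ) : 0 ≤ cbPsi x := sq_nonneg _

private theorem cbPsi_zero {x : ℝ} (h : |x| ≤ 1 / 2) : cbPsi x = 0 := by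
  unfold cbPsi
  rw [max_eq_right (by linarith)]
  norm_num

private theorem cbPsi_ge {x : ℝ} (h : 3 / 4 ≤ |x|) : 1 / 16 ≤ cbPsi x := by
  unfold cbPsi
  have h1 : 1 / 4 ≤ max (|x| - 1 / 2) 0 := le_trans (by linarith) (le_max_left _ _)
  nlinarith

private theorem cbPsi_le (x : ℝ) {a : ℝ} (ha : |a| ≤ 1 / 2) : cbPsi x ≤ (x - a) ^ 2 := by
  unfold cbPsi
  have h1 : max (|x| - 1 / 2) 0 ≤ |x - a| := by
    refine max_le ?_ (abs_nonneg _)
    have h2 := abs_sub_abs_le_abs_sub x a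
    linarith
  calc (max (|x| - 1 / 2) 0) ^ 2 ≤ |x - a| ^ 2 := pow_le_pow_left₀ (le_max_right _ _) h1 2
    _ = (x - a) ^ 2 := sq_abs _

private theorem cbPsi_eq (x : ℝ) : ∃ a : ℝ, |a| ≤ 1 / 2 ∧ cbPsi x = (x - a) ^ 2 := by
  unfold cbPsi
  rcases le_total |x| (1 / 2) with h | h
  · exact ⟨x, h, by rw [max_eq_right (by linarith)]; ring⟩
  · rw [max_eq_left (by linarith)]
    rcases abs_cases x with ⟨h1, h2⟩ | ⟨h1, h2⟩
    · refine ⟨1 / 2, by rw [abs_of_pos] <;> norm_num, by rw [h1]⟩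
    · refine ⟨-(1 / 2), by rw [abs_neg, abs_of_pos] <;> norm_num, by rw [h1]; ring⟩

private theorem cbPsi_d2 (x h : ℝ) : cbPsi (x + h) + cbPsi (x - h) - 2 * cbPsi x ≤ 2 * h ^ 2 := by
  obtain ⟨a, ha, h1⟩ := cbPsi_eq x
  have h2 := cbPsi_le (x + h) ha
  have h3 := cbPsi_le (x - h) ha
  rw [h1]
  nlinarith

private theorem cbPsi_cont : Continuous cbPsi := by
  unfold cbPsi
  fun_prop

private theorem cb_intq (α β γ : ℝ) :
    ∫ s in (-1 : ℝ)..1, (α + β * s + γ * s ^ 2) * ker s = α + γ / 9 := by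
  have hk := ker_continuous
  have i0 : IntervalIntegrable (fun s : ℝ => α * ker s) volume (-1) 1 :=
    (continuous_const.mul hk).intervalIntegrable _ _
  have i1 : IntervalIntegrable (fun s : ℝ => β * (s * ker s)) volume (-1) 1 :=
    (continuous_const.mul (continuous_id.mul hk)).intervalIntegrable _ _
  have i2 : IntervalIntegrable (fun s : ℝ => γ * (s ^ 2 * ker s)) volume (-1) 1 :=
    (continuous_const.mul ((continuous_id.pow 2).mul hk)).intervalIntegrable _ _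
  have e1 : (fun s : ℝ => (α + β * s + γ * s ^ 2) * ker s) =
      fun s => α * ker s + β * (s * ker s) + γ * (s ^ 2 * ker s) := by
    funext s
    ring
  rw [e1, intervalIntegral.integral_add (i0.add i1) i2, intervalIntegral.integral_add i0 i1,
    intervalIntegral.integral_const_mul, intervalIntegral.integral_const_mul,
    intervalIntegral.integral_const_mul, ker_int, ker_int1, ker_int2]
  ring

private theorem cb_int_le {f : ℝ → ℝ} (hf : Continuous f) {α β γ : ℝ}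
    (h : ∀ s ∈ Icc (-1 : ℝ) 1, α + β * s + γ * s ^ 2 ≤ f s) :
    α + γ / 9 ≤ ∫ s in (-1 : ℝ)..1, f s * ker s := by
  rw [← cb_intq α β γ]
  refine intervalIntegral.integral_mono_on (by norm_num) ?_ ?_ fun s hs => ?_
  · exact (Continuous.mul (by fun_prop) ker_continuous).intervalIntegrable _ _
  · exact (hf.mul ker_continuous).intervalIntegrable _ _
  · exact mul_le_mul_of_nonneg_right (h s hs) (ker_nonneg s)

private theorem cb_int_ge {f : ℝ → ℝ} (hf : Continuous f) {α β γ : ℝ}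
    (h : ∀ s ∈ Icc (-1 : ℝ) 1, f s ≤ α + β * s + γ * s ^ 2) :
    ∫ s in (-1 : ℝ)..1, f s * ker s ≤ α + γ / 9 := by
  rw [← cb_intq α β γ]
  refine intervalIntegral.integral_mono_on (by norm_num) ?_ ?_ fun s hs => ?_
  · exact (hf.mul ker_continuous).intervalIntegrable _ _
  · exact (Continuous.mul (by fun_prop) ker_continuous).intervalIntegrable _ _
  · exact mul_le_mul_of_nonneg_right (h s hs) (ker_nonneg s)

private noncomputable def cbG (ρ : ℝ → ℝ) (w : ℝ × ℝ → ℝ) (y : ℝ × ℝ) (h t : ℝ) : ℝ :=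
  Aav ρ w h (y.1, y.2 + t)

private theorem cbG_zero (ρ : ℝ → ℝ) (w : ℝ × ℝ → ℝ) (y : ℝ × ℝ) (h : ℝ) :
    cbG ρ w y h 0 = Aav ρ w h y := by
  unfold cbG
  rw [add_zero]

private theorem cbG_convex (ρ : ℝ → ℝ) (w : ℝ × ℝ → ℝ) (hw : Continuous w)
    (hc : ∀ p, ConvexOn ℝ univ fun t => w (p, t)) (y : ℝ × ℝ) (h : ℝ) :
    ConvexOn ℝ univ (cbG ρ w y h) :=
  cb_shift (aav_convex ρ w hw hc h y.1) y.2

private theorem cb_nodes (w : ℝ × ℝ → ℝ) (S0 S : Set (ℝ × ℝ)) (J : Jets) (h : WS w S0 S J) :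
    ∃ (r : ℝ) (τ τ' : ℝ × ℝ → ℕ → ℝ), 0 < r ∧ r ≤ 1 ∧ ∀ y ∈ S, NS (τ y) ∧ NS (τ' y) ∧
      (r / 2 ≤ τ y 0 ∧ τ y 0 ≤ 1) ∧ (r / 2 ≤ τ' y 0 ∧ τ' y 0 ≤ 1) ∧
      (∀ k, (y.1, y.2 + τ y k) ∈ S0) ∧ ∀ k, (y.1, y.2 - τ' y k) ∈ S0 := by
  obtain ⟨r0, hr0, hn⟩ := h.net
  set r := min r0 1 with hr
  have hrpos : 0 < r := lt_min hr0 one_pos
  have hr1 : r ≤ 1 := min_le_right _ _
  have hrr : r ≤ r0 := min_le_left _ _
  have hk : ∀ k : ℕ, 0 < r * (1 / 4) ^ k ∧ r * (1 / 4) ^ k ≤ r0 := by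
    intro k
    refine ⟨by positivity, ?_⟩
    have h1 : (1 / 4 : ℝ) ^ k ≤ 1 := pow_le_one₀ (by norm_num) (by norm_num)
    nlinarith
  have h1 : ∀ y : ℝ × ℝ, ∀ k : ℕ, ∃ τ : ℝ, y ∈ S →
      τ ∈ Icc (r * (1 / 4) ^ k / 2) (r * (1 / 4) ^ k) ∧ (y.1, y.2 + τ) ∈ S0 := by
    intro y k
    by_cases hy : y ∈ S
    · obtain ⟨⟨τ, h2, h3⟩, -⟩ := hn y hy _ (hk k).1 (hk k).2
      exact ⟨τ, fun _ => ⟨h2, h3⟩⟩
    · exact ⟨0, fun h => absurd h hy⟩
  have h2 : ∀ y : ℝ × ℝ, ∀ k : ℕ, ∃ τ : ℝ, y ∈ S →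
      τ ∈ Icc (r * (1 / 4) ^ k / 2) (r * (1 / 4) ^ k) ∧ (y.1, y.2 - τ) ∈ S0 := by
    intro y k
    by_cases hy : y ∈ S
    · obtain ⟨-, ⟨τ, h2, h3⟩⟩ := hn y hy _ (hk k).1 (hk k).2
      exact ⟨τ, fun _ => ⟨h2, h3⟩⟩
    · exact ⟨0, fun h => absurd h hy⟩
  choose τ hτ using h1
  choose τ' hτ' using h2
  have key : ∀ f : ℕ → ℝ, (∀ k, f k ∈ Icc (r * (1 / 4) ^ k / 2) (r * (1 / 4) ^ k)) →
      NS f ∧ (r / 2 ≤ f 0 ∧ f 0 ≤ 1) := by
    intro f hf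
    refine ⟨fun k => ?_, ?_⟩
    · obtain ⟨a1, a2⟩ := hf k
      obtain ⟨b1, b2⟩ := hf (k + 1)
      have h3 := (hk k).1
      rw [pow_succ] at b1 b2
      refine ⟨by linarith, by linarith, by linarith⟩
    · obtain ⟨a1, a2⟩ := hf 0
      rw [pow_zero, mul_one] at a1 a2
      exact ⟨a1, a2.trans hr1⟩
  refine ⟨r, τ, τ', hrpos, hr1, fun y hy => ?_⟩
  obtain ⟨n1, n2⟩ := key (τ y) fun k => (hτ y k hy).1
  obtain ⟨n3, n4⟩ := key (τ' y) fun k => (hτ' y k hy).1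
  exact ⟨n1, n3, n2, n4, fun k => (hτ y k hy).2, fun k => (hτ' y k hy).2⟩

private theorem cb_nod (S0 : Set (ℝ × ℝ)) {y : ℝ × ℝ} (hy : y ∈ S0) {τ τ' : ℕ → ℝ} (hτ : NS τ)
    (hτ' : NS τ') (h1 : ∀ k, (y.1, y.2 + τ k) ∈ S0) (h2 : ∀ k, (y.1, y.2 - τ' k) ∈ S0)
    {lam t : ℝ} (hl : 0 < lam) (h3 : -τ' 0 ≤ t / lam) (h4 : t / lam ≤ τ 0) :
    ∃ a b θ : ℝ, Nod S0 y lam t a b θ ∧ ∀ g : ℝ → ℝ, ConvexOn ℝ univ g →
      PI τ τ' g (t / lam) = (1 - θ) * g a + θ * g b := by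
  rcases lt_trichotomy (t / lam) 0 with h5 | h5 | h5
  · obtain ⟨k, θ, t0, t1, t2, t3, t4, t5⟩ := pi_neg τ τ' hτ hτ' _ h5 h3
    refine ⟨-τ' (k + 1), -τ' k, θ, ⟨t0, t1, ?_, ?_, t4, Or.inr (Or.inr ?_)⟩, t5⟩
    · have := h2 (k + 1)
      rwa [sub_eq_add_neg] at this
    · have := h2 k
      rwa [sub_eq_add_neg] at this
    · have e1 := hτ' k
      have e2 := hτ' (k + 1)
      exact ⟨by linarith [e2.1], by linarith [e1.2.1], by linarith [e1.2.2], t2, t3⟩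
  · have h6 : t = 0 := by
      rcases div_eq_zero_iff.1 h5 with h | h
      · exact h
      · exact absurd h hl.ne'
    refine ⟨0, 0, 0, ⟨le_rfl, zero_le_one, ?_, ?_, by rw [h5]; ring, Or.inl ⟨h6, rfl, rfl⟩⟩, ?_⟩
    · rw [add_zero]; exact hy
    · rw [add_zero]; exact hy
    · intro g hg
      rw [h5, pi_zero τ τ' hτ hτ' g hg]
      ring
  · obtain ⟨k, θ, t0, t1, t2, t3, t4, t5⟩ := pi_pos τ τ' hτ hτ' _ h5 h4
    refine ⟨τ (k + 1), τ k, θ, ⟨t0, t1, h1 _, h1 _, t4, Or.inr (Or.inl ?_)⟩, t5⟩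
    have e1 := hτ k
    have e2 := hτ (k + 1)
    exact ⟨e2.1, e1.2.1, e1.2.2, t2, t3⟩

private theorem cb_bounds (w : ℝ × ℝ → ℝ) (S0 S : Set (ℝ × ℝ)) (J : Jets) (h : WS w S0 S J)
    (ρ : ℝ → ℝ) (hρ : Rho w S0 J ρ) : ∃ B L M : ℝ, 0 ≤ B ∧ 0 ≤ L ∧ 0 ≤ M ∧
      (∀ y ∈ S, |y.1| ≤ M ∧ |y.2| ≤ M) ∧
      ∀ y ∈ S, ∀ u : ℝ, |u| ≤ 1 → |cbG ρ w y u 0| ≤ B ∧ ∀ x x' : ℝ, |x| ≤ 1 → |x'| ≤ 1 →
        |cbG ρ w y u x - cbG ρ w y u x'| ≤ L * |x - x'| := by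
  have hc := aav_continuous ρ hρ.cont w h.cont
  have hK : IsCompact (Icc (-1 : ℝ) 1 ×ˢ (S ×ˢ Icc (-2 : ℝ) 2)) :=
    isCompact_Icc.prod (h.cS.prod isCompact_Icc)
  have hF : Continuous fun x : ℝ × ((ℝ × ℝ) × ℝ) => cbG ρ w x.2.1 x.1 x.2.2 := by
    unfold cbG
    exact hc.comp (by fun_prop : Continuous fun x : ℝ × ((ℝ × ℝ) × ℝ) =>
      (x.1, ((x.2.1.1, x.2.1.2 + x.2.2) : ℝ × ℝ)))
  obtain ⟨B, hB⟩ := hK.exists_bound_of_continuousOn hF.continuousOn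
  obtain ⟨M, hM⟩ := h.cS.exists_bound_of_continuousOn (continuous_id (X := ℝ × ℝ)).continuousOn
  have hB' : ∀ y ∈ S, ∀ u x : ℝ, |u| ≤ 1 → |x| ≤ 2 → |cbG ρ w y u x| ≤ max B 0 := by
    intro y hy u x hu hx
    have h1 := hB (u, (y, x)) ⟨abs_le.1 hu, hy, abs_le.1 hx⟩
    rw [Real.norm_eq_abs] at h1
    exact h1.trans (le_max_left _ _)
  obtain ⟨L, hL0, hL⟩ := t2_lip 0 1 (max B 0) le_rfl one_pos
  refine ⟨max B 0, L, max M 0, le_max_right _ _, hL0, le_max_right _ _, fun y hy => ?_,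
    fun y hy u hu => ⟨hB' y hy u 0 hu (by rw [abs_zero]; norm_num), fun x x' hx hx' => ?_⟩⟩
  · have h1 := hM y hy
    have h2 : |y.1| ≤ ‖y‖ := norm_fst_le y
    have h3 : |y.2| ≤ ‖y‖ := norm_snd_le y
    exact ⟨h2.trans (h1.trans (le_max_left _ _)), h3.trans (h1.trans (le_max_left _ _))⟩
  · have h1 := hL (fun z => cbG ρ w y u z.2) ?_ ?_ ?_ (0, x) (0, x') (by simp) hx (by simp) hx'
    · simpa using h1
    · intro t
      refine Or.inl ⟨convex_univ, fun a _ b _ s t' hs ht hst => ?_⟩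
      simp only [smul_eq_mul]
      have h3 : t' = 1 - s := by linarith
      subst h3
      nlinarith
    · intro p
      refine Or.inl ?_
      have h2 := cbG_convex ρ w h.cont h.conv y u
      simpa using h2
    · intro z _ hz
      exact hB' y hy u z.2 hu (by linarith)


private noncomputable def cbW (c C : ℝ) (z : ℝ × ℝ) : ℝ := c * z.2 ^ 2 - C * (1 + z.1 ^ 2) - 1

private noncomputable def cbQ (ρ : ℝ → ℝ) (w : ℝ × ℝ → ℝ) (τ τ' : ℕ → ℝ) (lam : ℝ)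
    (y : ℝ × ℝ) (h t : ℝ) : ℝ :=
  lam * PI τ τ' (cbG ρ w y h) (t / lam) - (lam - 1) * cbG ρ w y h 0

open Classical in
private noncomputable def cbq (ρ : ℝ → ℝ) (w : ℝ × ℝ → ℝ) (τ τ' : ℕ → ℝ) (lam c C Lm : ℝ)
    (y z : ℝ × ℝ) : ℝ :=
  if |z.1 - y.1| < 1 then
    max (cbQ ρ w τ τ' lam y (z.1 - y.1) (z.2 - y.2) - Lm * cbPsi (z.1 - y.1)) (cbW c C z)
  else cbW c C z

private structure CbD (w : ℝ × ℝ → ℝ) (S0 : Set (ℝ × ℝ)) (ρ : ℝ → ℝ) (y : ℝ × ℝ)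
    (τ τ' : ℕ → ℝ) (lam c C Lm T0 : ℝ) : Prop where
  ny : y ∈ S0
  n1 : NS τ
  n2 : NS τ'
  m1 : ∀ k, (y.1, y.2 + τ k) ∈ S0
  m2 : ∀ k, (y.1, y.2 - τ' k) ∈ S0
  l8 : 8 ≤ lam
  t1 : T0 / lam ≤ τ 0
  t2 : T0 / lam ≤ τ' 0
  T1 : 1 ≤ T0
  L0 : 0 ≤ Lm
  c0 : 0 < c
  far : ∀ h t : ℝ, |h| ≤ 1 → T0 ≤ |t| → cbQ ρ w τ τ' lam y h t < cbW c C (y.1 + h, y.2 + t)
  side : ∀ h t : ℝ, |h| ≤ 1 → 3 / 4 ≤ |h| → |t| ≤ T0 →
    cbQ ρ w τ τ' lam y h t - Lm / 16 < cbW c C (y.1 + h, y.2 + t)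

private theorem cb_eqw {w : ℝ × ℝ → ℝ} {S0 : Set (ℝ × ℝ)} {ρ : ℝ → ℝ} {y : ℝ × ℝ}
    {τ τ' : ℕ → ℝ} {lam c C Lm T0 : ℝ} (D : CbD w S0 ρ y τ τ' lam c C Lm T0) {z : ℝ × ℝ}
    (h : 3 / 4 ≤ |z.1 - y.1| ∨ T0 ≤ |z.2 - y.2|) :
    cbq ρ w τ τ' lam c C Lm y z = cbW c C z := by
  unfold cbq
  split_ifs with h1
  · refine max_eq_right ?_
    have e : ((y.1 + (z.1 - y.1), y.2 + (z.2 - y.2)) : ℝ × ℝ) = z := by
      ext <;> simp
    have hL := D.L0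
    have hP := cbPsi_nn (z.1 - y.1)
    by_cases h2 : T0 ≤ |z.2 - y.2|
    · have h3 := D.far _ _ h1.le h2
      rw [e] at h3
      nlinarith [mul_nonneg hL hP]
    · have h4 : 3 / 4 ≤ |z.1 - y.1| := by
        rcases h with h | h
        · exact h
        · exact absurd h h2
      push Not at h2
      have h3 := D.side _ _ h1.le h4 h2.le
      rw [e] at h3
      have h5 := cbPsi_ge h4
      nlinarith [mul_le_mul_of_nonneg_left h5 hL]
  · rfl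

private theorem cb_ge {w : ℝ × ℝ → ℝ} {ρ : ℝ → ℝ} {y : ℝ × ℝ}
    {τ τ' : ℕ → ℝ} {lam c C Lm : ℝ} (z : ℝ × ℝ) :
    cbW c C z ≤ cbq ρ w τ τ' lam c C Lm y z := by
  unfold cbq
  split_ifs
  · exact le_max_right _ _
  · exact le_rfl

private theorem cb_lt {w : ℝ × ℝ → ℝ} {S0 : Set (ℝ × ℝ)} {ρ : ℝ → ℝ} {y : ℝ × ℝ}
    {τ τ' : ℕ → ℝ} {lam c C Lm T0 : ℝ} (D : CbD w S0 ρ y τ τ' lam c C Lm T0) {z : ℝ × ℝ}
    (h : cbW c C z < cbq ρ w τ τ' lam c C Lm y z) : |z.1 - y.1| < 3 / 4 ∧ |z.2 - y.2| < T0 := by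
  constructor
  · by_contra h1
    push Not at h1
    rw [cb_eqw D (Or.inl h1)] at h
    exact lt_irrefl _ h
  · by_contra h1
    push Not at h1
    rw [cb_eqw D (Or.inr h1)] at h
    exact lt_irrefl _ h

private theorem cb_tl {w : ℝ × ℝ → ℝ} {S0 : Set (ℝ × ℝ)} {ρ : ℝ → ℝ} {y : ℝ × ℝ}
    {τ τ' : ℕ → ℝ} {lam c C Lm T0 : ℝ} (D : CbD w S0 ρ y τ τ' lam c C Lm T0) {t : ℝ}
    (ht : |t| ≤ T0) : -τ' 0 ≤ t / lam ∧ t / lam ≤ τ 0 := by
  have hl : 0 < lam := by linarith [D.l8]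
  have h1 := abs_le.1 ht
  constructor
  · have h2 : -(T0 / lam) ≤ t / lam := by
      rw [← neg_div]
      exact div_le_div_of_nonneg_right h1.1 hl.le
    linarith [D.t2]
  · have h2 : t / lam ≤ T0 / lam := div_le_div_of_nonneg_right h1.2 hl.le
    linarith [D.t1]

private theorem cb_rep {w : ℝ × ℝ → ℝ} {S0 : Set (ℝ × ℝ)} {ρ : ℝ → ℝ} {y : ℝ × ℝ}
    {τ τ' : ℕ → ℝ} {lam c C Lm T0 : ℝ} (D : CbD w S0 ρ y τ τ' lam c C Lm T0)
    (hw : Continuous w) (hc : ∀ p, ConvexOn ℝ univ fun t => w (p, t)) {t : ℝ}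
    (ht : |t| ≤ T0) : ∃ a b θ : ℝ, Nod S0 y lam t a b θ ∧
      ∀ p, cbQ ρ w τ τ' lam y (p - y.1) t = qval ρ w y lam a b θ p := by
  have hl : 0 < lam := by linarith [D.l8]
  obtain ⟨h3, h4⟩ := cb_tl D ht
  obtain ⟨a, b, θ, h5, h6⟩ := cb_nod S0 D.ny D.n1 D.n2 D.m1 D.m2 hl h3 h4
  refine ⟨a, b, θ, h5, fun p => ?_⟩
  unfold cbQ qval
  rw [h6 _ (cbG_convex ρ w hw hc y (p - y.1)), cbG_zero]
  rfl

private theorem qval_cont {ρ : ℝ → ℝ} (hρ : Continuous ρ) {w : ℝ × ℝ → ℝ} (hw : Continuous w)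
    (y : ℝ × ℝ) (lam a b θ : ℝ) : Continuous (qval ρ w y lam a b θ) := by
  have hc := aav_continuous ρ hρ w hw
  have h1 : ∀ y' : ℝ × ℝ, Continuous fun p : ℝ => Aav ρ w (p - y.1) y' := by
    intro y'
    exact hc.comp (by fun_prop : Continuous fun p : ℝ => (p - y.1, y'))
  unfold qval
  exact ((((h1 _).const_mul _).add ((h1 _).const_mul _)).const_mul _).sub ((h1 _).const_mul _)

private theorem cbW_cont (c C : ℝ) : Continuous (cbW c C) := by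
  unfold cbW
  fun_prop

private theorem cb_contp {w : ℝ × ℝ → ℝ} {S0 : Set (ℝ × ℝ)} {ρ : ℝ → ℝ} {y : ℝ × ℝ}
    {τ τ' : ℕ → ℝ} {lam c C Lm T0 : ℝ} (D : CbD w S0 ρ y τ τ' lam c C Lm T0)
    (hρ : Continuous ρ) (hw : Continuous w) (hc : ∀ p, ConvexOn ℝ univ fun t => w (p, t))
    (t : ℝ) : Continuous fun p => cbq ρ w τ τ' lam c C Lm y (p, t) := by
  have hW : Continuous fun p : ℝ => cbW c C (p, t) :=
    (cbW_cont c C).comp (by fun_prop : Continuous fun p : ℝ => ((p, t) : ℝ × ℝ))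
  by_cases ht : T0 ≤ |t - y.2|
  · have h1 : (fun p => cbq ρ w τ τ' lam c C Lm y (p, t)) = fun p => cbW c C (p, t) := by
      funext p
      exact cb_eqw D (Or.inr ht)
    rw [h1]
    exact hW
  · push Not at ht
    obtain ⟨a, b, θ, -, h6⟩ := cb_rep D hw hc ht.le
    have hm : Continuous fun p : ℝ =>
        max (qval ρ w y lam a b θ p - Lm * cbPsi (p - y.1)) (cbW c C (p, t)) := by
      refine Continuous.max ?_ hW
      exact (qval_cont hρ hw y lam a b θ).sub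
        (continuous_const.mul (cbPsi_cont.comp (by fun_prop : Continuous fun p : ℝ => p - y.1)))
    rw [continuous_iff_continuousAt]
    intro p0
    by_cases hp : |p0 - y.1| < 1
    · refine hm.continuousAt.congr ?_
      have ho : IsOpen {p : ℝ | |p - y.1| < 1} :=
        isOpen_lt (by fun_prop) continuous_const
      filter_upwards [ho.mem_nhds hp] with p hp'
      have hp2 : |p - y.1| < 1 := hp'
      unfold cbq
      rw [if_pos hp2, ← h6 p]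
    · push Not at hp
      refine hW.continuousAt.congr ?_
      have ho : IsOpen {p : ℝ | 3 / 4 < |p - y.1|} :=
        isOpen_lt continuous_const (by fun_prop)
      filter_upwards [ho.mem_nhds (show 3 / 4 < |p0 - y.1| by linarith)] with p hp'
      have hp2 : 3 / 4 < |p - y.1| := hp'
      exact (cb_eqw D (Or.inl hp2.le)).symm

private theorem cb_conv {w : ℝ × ℝ → ℝ} {S0 : Set (ℝ × ℝ)} {ρ : ℝ → ℝ} {y : ℝ × ℝ}
    {τ τ' : ℕ → ℝ} {lam c C Lm T0 : ℝ} (D : CbD w S0 ρ y τ τ' lam c C Lm T0)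
    (hw : Continuous w) (hc : ∀ p, ConvexOn ℝ univ fun t => w (p, t))
    (p : ℝ) : ConvexOn ℝ univ fun t => cbq ρ w τ τ' lam c C Lm y (p, t) := by
  have hl : 0 < lam := by linarith [D.l8]
  have hW : ConvexOn ℝ univ fun t : ℝ => cbW c C (p, t) := by
    have h0 := cb_quad D.c0.le (C * (1 + p ^ 2))
    exact h0
  by_cases hp : |p - y.1| < 1
  · have h1 : (fun t => cbq ρ w τ τ' lam c C Lm y (p, t)) =
        (fun t => lam * PI τ τ' (cbG ρ w y (p - y.1)) ((t - y.2) / lam) -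
          ((lam - 1) * cbG ρ w y (p - y.1) 0 + Lm * cbPsi (p - y.1))) ⊔
        fun t => cbW c C (p, t) := by
      funext t
      unfold cbq cbQ
      rw [if_pos hp]
      show max _ _ = max _ _
      congr 1
      ring
    rw [h1]
    refine ConvexOn.sup ?_ hW
    exact cb_scale (pi_convex τ τ' D.n1 D.n2 _ (cbG_convex ρ w hw hc y (p - y.1))) hl _ _
  · have h1 : (fun t => cbq ρ w τ τ' lam c C Lm y (p, t)) = fun t => cbW c C (p, t) := by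
      funext t
      unfold cbq
      rw [if_neg hp]
    rw [h1]
    exact hW

private theorem cb_le {w : ℝ × ℝ → ℝ} {S0 : Set (ℝ × ℝ)} {ρ : ℝ → ℝ} {y : ℝ × ℝ}
    {τ τ' : ℕ → ℝ} {lam c C Lm T0 : ℝ} (D : CbD w S0 ρ y τ τ' lam c C Lm T0)
    (hw : Continuous w) (hc : ∀ p, ConvexOn ℝ univ fun t => w (p, t))
    (hcc : ∀ t, ConcaveOn ℝ univ fun p => w (p, t)) {z : ℝ × ℝ} (hz : cbW c C z ≤ w z) :
    cbq ρ w τ τ' lam c C Lm y z ≤ w z := by
  unfold cbq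
  split_ifs with h1
  · refine max_le ?_ hz
    have h2 : cbQ ρ w τ τ' lam y (z.1 - y.1) (z.2 - y.2) ≤ cbG ρ w y (z.1 - y.1) (z.2 - y.2) :=
      pi_dil τ τ' D.n1 D.n2 _ (cbG_convex ρ w hw hc y (z.1 - y.1)) lam D.l8 _
    have h3 : cbG ρ w y (z.1 - y.1) (z.2 - y.2) ≤ w z := by
      have h4 := aav_le ρ w hw hcc (z.1 - y.1) (y.1, y.2 + (z.2 - y.2))
      have e : ((y.1 + (z.1 - y.1), y.2 + (z.2 - y.2)) : ℝ × ℝ) = z := by
        ext <;> simp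
      rw [e] at h4
      exact h4
    have h5 := mul_nonneg D.L0 (cbPsi_nn (z.1 - y.1))
    linarith
  · exact hz

private theorem cb_eq {w : ℝ × ℝ → ℝ} {S0 : Set (ℝ × ℝ)} {ρ : ℝ → ℝ} {y : ℝ × ℝ}
    {τ τ' : ℕ → ℝ} {lam c C Lm T0 : ℝ} (D : CbD w S0 ρ y τ τ' lam c C Lm T0)
    (h0 : ρ 0 = 0) (hw : Continuous w) (hc : ∀ p, ConvexOn ℝ univ fun t => w (p, t))
    (hz : cbW c C y ≤ w y) : cbq ρ w τ τ' lam c C Lm y y = w y := by
  unfold cbq
  have h1 : |y.1 - y.1| < 1 := by rw [sub_self, abs_zero]; exact one_pos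
  rw [if_pos h1, sub_self, sub_self, cbPsi_zero (by rw [abs_zero]; norm_num), mul_zero, sub_zero]
  have h2 : cbQ ρ w τ τ' lam y 0 0 = w y := by
    unfold cbQ
    rw [zero_div, pi_zero τ τ' D.n1 D.n2 _ (cbG_convex ρ w hw hc y 0), cbG_zero,
      aav_zero ρ h0 w y]
    ring
  rw [h2]
  exact max_eq_left hz

private theorem cb_sc {w : ℝ × ℝ → ℝ} {S0 : Set (ℝ × ℝ)} {ρ : ℝ → ℝ} {y : ℝ × ℝ}
    {τ τ' : ℕ → ℝ} {lam c C Lm T0 : ℝ} (D : CbD w S0 ρ y τ τ' lam c C Lm T0)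
    (hρ : Continuous ρ) (hw : Continuous w) (hc : ∀ p, ConvexOn ℝ univ fun t => w (p, t))
    {Cr : ℝ} (hCr : 0 ≤ Cr) (hC : 0 ≤ C) (hb : ∀ y ∈ S0, ∀ x h : ℝ, |x| ≤ 2 → |h| ≤ 1 →
      |d2 (fun u => Aav ρ w u y) h x| ≤ Cr * h ^ 2) (z : ℝ × ℝ) (h : ℝ) :
    -(2 * C + 2 * lam * Cr + 2 * Lm) * h ^ 2 ≤
      D2 (cbq ρ w τ τ' lam c C Lm y) (h, 0) z := by
  have hl : 0 < lam := by linarith [D.l8]
  set K := 2 * C + 2 * lam * Cr + 2 * Lm with hK
  set φ : ℝ → ℝ := fun p => cbq ρ w τ τ' lam c C Lm y (p, z.2) with hφ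
  have hφc : Continuous φ := cb_contp D hρ hw hc z.2
  have hlC : 0 ≤ lam * Cr := mul_nonneg hl.le hCr
  have hpt : ∀ x h : ℝ, 0 < h → h < 1 / 4 → -K * h ^ 2 ≤ d2 φ h x := by
    intro x h hh0 hh1
    have hh2 : 0 ≤ h ^ 2 := sq_nonneg h
    have hge : ∀ p, cbW c C (p, z.2) ≤ φ p := fun p => cb_ge (p, z.2)
    by_cases hx : cbW c C (x, z.2) < φ x
    · obtain ⟨hx1, hx2⟩ := cb_lt D hx
      obtain ⟨a, b, θ, hN, h6⟩ := cb_rep D hw hc hx2.le
      have hx1' : |x - y.1| < 3 / 4 := hx1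
      have hp : ∀ p, |p - y.1| < 1 → φ p =
          max (qval ρ w y lam a b θ p - Lm * cbPsi (p - y.1)) (cbW c C (p, z.2)) := by
        intro p hp
        show cbq ρ w τ τ' lam c C Lm y (p, z.2) = _
        unfold cbq
        rw [if_pos hp, ← h6 p]
      have habs := abs_lt.1 hx1'
      have e1 : |x + h - y.1| < 1 := by
        rw [abs_lt]; constructor <;> linarith
      have e2 : |x - h - y.1| < 1 := by
        rw [abs_lt]; constructor <;> linarith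
      have f1 : qval ρ w y lam a b θ (x + h) - Lm * cbPsi (x + h - y.1) ≤ φ (x + h) := by
        rw [hp _ e1]
        exact le_max_left _ _
      have f2 : qval ρ w y lam a b θ (x - h) - Lm * cbPsi (x - h - y.1) ≤ φ (x - h) := by
        rw [hp _ e2]
        exact le_max_left _ _
      have f3 : φ x = qval ρ w y lam a b θ x - Lm * cbPsi (x - y.1) := by
        have h7 := hp x (by linarith)
        rcases max_choice (qval ρ w y lam a b θ x - Lm * cbPsi (x - y.1)) (cbW c C (x, z.2))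
          with h8 | h8
        · rw [h7, h8]
        · rw [h8] at h7
          rw [h7] at hx
          exact absurd hx (lt_irrefl _)
      obtain ⟨hθ0, hθ1, hNa, hNb, -, -⟩ := hN
      have g0 : |h| ≤ 1 := by rw [abs_of_pos hh0]; linarith
      have g1 : |x - y.1| ≤ 2 := by linarith
      have b1 := abs_le.1 (hb _ hNa (x - y.1) h g1 g0)
      have b2 := abs_le.1 (hb _ hNb (x - y.1) h g1 g0)
      have b3 := abs_le.1 (hb _ D.ny (x - y.1) h g1 g0)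
      have b4 := cbPsi_d2 (x - y.1) h
      unfold d2 at b1 b2 b3 ⊢
      have s1 : x + h - y.1 = x - y.1 + h := by ring
      have s2 : x - h - y.1 = x - y.1 - h := by ring
      rw [s1] at f1
      rw [s2] at f2
      unfold qval at f1 f2 f3
      rw [s1] at f1
      rw [s2] at f2
      set A1 := Aav ρ w (x - y.1 + h) (y.1, y.2 + a) with hA1
      set A2 := Aav ρ w (x - y.1 - h) (y.1, y.2 + a) with hA2
      set A3 := Aav ρ w (x - y.1) (y.1, y.2 + a) with hA3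
      set B1 := Aav ρ w (x - y.1 + h) (y.1, y.2 + b) with hB1
      set B2 := Aav ρ w (x - y.1 - h) (y.1, y.2 + b) with hB2
      set B3 := Aav ρ w (x - y.1) (y.1, y.2 + b) with hB3
      set D1 := Aav ρ w (x - y.1 + h) y with hD1
      set D2' := Aav ρ w (x - y.1 - h) y with hD2
      set D3 := Aav ρ w (x - y.1) y with hD3
      have k1 : -(Cr * h ^ 2) ≤ (1 - θ) * (A1 + A2 - 2 * A3) + θ * (B1 + B2 - 2 * B3) := by
        have m1 := mul_le_mul_of_nonneg_left b1.1 (by linarith : 0 ≤ 1 - θ)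
        have m2 := mul_le_mul_of_nonneg_left b2.1 hθ0
        nlinarith
      have k2 := mul_le_mul_of_nonneg_left k1 hl.le
      have k3 := mul_le_mul_of_nonneg_left b3.2 (by linarith [D.l8] : 0 ≤ lam - 1)
      have k4 := mul_le_mul_of_nonneg_left b4 D.L0
      have k5 : 0 ≤ Cr * h ^ 2 := mul_nonneg hCr hh2
      have k6 : 0 ≤ C * h ^ 2 := mul_nonneg hC hh2
      nlinarith
    · have hx' : φ x = cbW c C (x, z.2) := le_antisymm (not_lt.1 hx) (hge x)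
      have h1 := hge (x + h)
      have h2 := hge (x - h)
      unfold d2
      rw [hx']
      have k5 : 0 ≤ lam * Cr * h ^ 2 := mul_nonneg hlC hh2
      have k6 : 0 ≤ Lm * h ^ 2 := mul_nonneg D.L0 hh2
      unfold cbW at h1 h2 ⊢
      nlinarith
  have hcv : ConvexOn ℝ univ fun x => φ x + K / 2 * x ^ 2 := by
    refine t1_convex _ (hφc.add (by fun_prop)) fun x κ hκ => ⟨1 / 4, by norm_num, ?_⟩
    intro h hh0 hh1
    have h1 := hpt x h hh0 hh1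
    unfold d2 at h1 ⊢
    have h2 : 0 ≤ κ * h ^ 2 := by positivity
    nlinarith
  have h3 := d2_of_sc (K / 2) φ hcv z.1 h
  have h4 : D2 (cbq ρ w τ τ' lam c C Lm y) (h, 0) z = d2 φ h z.1 := by
    unfold D2 d2
    have e1 : z + (h, 0) = (z.1 + h, z.2) := by ext <;> simp
    have e2 : z - (h, 0) = (z.1 - h, z.2) := by ext <;> simp
    rw [e1, e2]
  rw [h4]
  have h5 : -(2 * (K / 2)) * h ^ 2 = -K * h ^ 2 := by ring
  rw [h5] at h3
  exact h3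


private theorem cb_exp {w : ℝ × ℝ → ℝ} {ρ : ℝ → ℝ} {y : ℝ × ℝ} (hw : Continuous w) (J : Jets)
    (hJ : J.c y = 0) {κ1 δ1 h σ : ℝ}
    (hE : ∀ v : ℝ × ℝ, sq v ≤ δ1 ^ 2 → |w (y + v) - w y - J.q y v| ≤ κ1 * sq v)
    (hr0 : 0 ≤ ρ h) (hr : ρ h ≤ |h| / 4) (hs : 2 * (h ^ 2 + σ ^ 2) ≤ δ1 ^ 2) :
    w y + J.q y (h, σ) + J.a y * ρ h ^ 2 / 18 - κ1 * (h ^ 2 + σ ^ 2 + ρ h ^ 2 / 9) ≤
      cbG ρ w y h σ ∧ cbG ρ w y h σ ≤
    w y + J.q y (h, σ) + J.a y * ρ h ^ 2 / 18 + κ1 * (h ^ 2 + σ ^ 2 + ρ h ^ 2 / 9) := by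
  set R := ρ h with hR
  have hf : Continuous fun s : ℝ => w (y.1 + h + R * s, y.2 + σ) :=
    hw.comp (by fun_prop : Continuous fun s : ℝ => ((y.1 + h + R * s, y.2 + σ) : ℝ × ℝ))
  have hsq : ∀ s ∈ Icc (-1 : ℝ) 1, sq ((h + R * s, σ) : ℝ × ℝ) ≤ δ1 ^ 2 := by
    intro s hs'
    have h1 : |R * s| ≤ |h| / 4 := by
      rw [abs_mul, abs_of_nonneg hr0]
      have h2 : |s| ≤ 1 := abs_le.2 hs'
      have h3 := abs_nonneg s
      nlinarith
    have h4 : |h + R * s| ≤ 5 / 4 * |h| := by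
      have h5 := abs_add_le h (R * s)
      linarith
    have h6 : (h + R * s) ^ 2 ≤ (5 / 4 * |h|) ^ 2 := by
      rw [← sq_abs (h + R * s)]
      exact pow_le_pow_left₀ (abs_nonneg _) h4 2
    have h7 : (5 / 4 * |h|) ^ 2 = 25 / 16 * h ^ 2 := by
      rw [mul_pow, sq_abs]
      norm_num
    unfold sq
    show (h + R * s) ^ 2 + σ ^ 2 ≤ δ1 ^ 2
    nlinarith [sq_nonneg h, sq_nonneg σ]
  have hE' : ∀ s ∈ Icc (-1 : ℝ) 1, |w (y.1 + h + R * s, y.2 + σ) - w y -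
      J.q y (h + R * s, σ)| ≤ κ1 * sq ((h + R * s, σ) : ℝ × ℝ) := by
    intro s hs'
    have h1 := hE _ (hsq s hs')
    have e : y + (h + R * s, σ) = (y.1 + h + R * s, y.2 + σ) := by
      ext
      · show y.1 + (h + R * s) = _
        ring
      · rfl
    rw [e] at h1
    exact h1
  have hG : cbG ρ w y h σ = ∫ s in (-1 : ℝ)..1, w (y.1 + h + R * s, y.2 + σ) * ker s := rfl
  rw [hG]
  have e0 : ∀ s, J.q y (h + R * s, σ) = J.p y * (h + R * s) + J.s y * σ +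
      (J.a y * (h + R * s) ^ 2 + 2 * J.b y * (h + R * s) * σ) / 2 := by
    intro s
    unfold Jets.q
    simp only [hJ]
    ring
  have e1 : J.q y (h, σ) = J.p y * h + J.s y * σ + (J.a y * h ^ 2 + 2 * J.b y * h * σ) / 2 := by
    unfold Jets.q
    simp only [hJ]
    ring
  constructor
  · have h1 := cb_int_le hf (α := w y + J.p y * h + J.s y * σ +
        (J.a y * h ^ 2 + 2 * J.b y * h * σ) / 2 - κ1 * (h ^ 2 + σ ^ 2))
        (β := J.p y * R + J.a y * h * R + J.b y * σ * R - 2 * κ1 * h * R)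
        (γ := J.a y * R ^ 2 / 2 - κ1 * R ^ 2) ?_
    · rw [e1]
      refine le_trans (le_of_eq ?_) h1
      ring
    · intro s hs'
      have h2 := (abs_le.1 (hE' s hs')).1
      rw [e0] at h2
      unfold sq at h2
      simp only at h2
      nlinarith
  · have h1 := cb_int_ge hf (α := w y + J.p y * h + J.s y * σ +
        (J.a y * h ^ 2 + 2 * J.b y * h * σ) / 2 + κ1 * (h ^ 2 + σ ^ 2))
        (β := J.p y * R + J.a y * h * R + J.b y * σ * R + 2 * κ1 * h * R)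
        (γ := J.a y * R ^ 2 / 2 + κ1 * R ^ 2) ?_
    · rw [e1]
      refine le_trans h1 (le_of_eq ?_)
      ring
    · intro s hs'
      have h2 := (abs_le.1 (hE' s hs')).2
      rw [e0] at h2
      unfold sq at h2
      simp only at h2
      nlinarith

private theorem cb_low {w : ℝ × ℝ → ℝ} {S0 : Set (ℝ × ℝ)} {ρ : ℝ → ℝ} {y : ℝ × ℝ}
    {τ τ' : ℕ → ℝ} {lam c C Lm T0 : ℝ} (D : CbD w S0 ρ y τ τ' lam c C Lm T0)
    (hw : Continuous w) (hc : ∀ p, ConvexOn ℝ univ fun t => w (p, t)) (J : Jets)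
    (hJ : J.c y = 0) {κ δ1 κ2 Ma : ℝ} (hκ : 0 < κ)
    (hE : ∀ v : ℝ × ℝ, sq v ≤ δ1 ^ 2 → |w (y + v) - w y - J.q y v| ≤ κ / (8 * lam) * sq v)
    (ha : |J.a y| ≤ Ma) (hκ2 : 0 ≤ κ2) (hM2 : Ma * κ2 ^ 2 ≤ κ) {v : ℝ × ℝ} (hr0 : 0 ≤ ρ v.1)
    (hr : ρ v.1 ≤ |v.1| / 4) (hr2 : ρ v.1 ≤ κ2 * |v.1|) (hs : 2 * sq v ≤ δ1 ^ 2)
    (hv1 : |v.1| ≤ 1 / 2) (hv2 : |v.2| ≤ 1 / 2) :
    w y + J.q y v - κ * sq v ≤ cbq ρ w τ τ' lam c C Lm y (y + v) := by
  have hl8 := D.l8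
  have hl : 0 < lam := by linarith
  unfold cbq
  have s1 : (y + v).1 - y.1 = v.1 := by simp
  have s2 : (y + v).2 - y.2 = v.2 := by simp
  rw [s1, s2, if_pos (by linarith), cbPsi_zero hv1, mul_zero, sub_zero]
  refine le_trans ?_ (le_max_left _ _)
  unfold cbQ
  obtain ⟨h3, h4⟩ := cb_tl D (show |v.2| ≤ T0 by linarith [D.T1])
  have h5 := pi_ge τ τ' D.n1 D.n2 _ (cbG_convex ρ w hw hc y v.1) _ h3 h4
  set σ := v.2 / lam with hσ
  have hv : v.2 = lam * σ := by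
    rw [hσ]
    field_simp
  have hσ2 : σ ^ 2 ≤ v.2 ^ 2 := by
    rw [hv, mul_pow]
    have : 1 ≤ lam ^ 2 := by nlinarith
    nlinarith [sq_nonneg σ]
  unfold sq at hs
  obtain ⟨e1, -⟩ := cb_exp (ρ := ρ) hw J hJ (h := v.1) (σ := σ) hE hr0 hr (by nlinarith)
  obtain ⟨-, e2⟩ := cb_exp (ρ := ρ) hw J hJ (h := v.1) (σ := 0) hE hr0 hr
    (by nlinarith [sq_nonneg v.2])
  set κ1 := κ / (8 * lam) with hκ1
  have hk : lam * κ1 = κ / 8 := by
    rw [hκ1]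
    field_simp
  have hκ1p : 0 < κ1 := by positivity
  set R := ρ v.1 with hR
  have hRR : R ^ 2 ≤ κ2 ^ 2 * v.1 ^ 2 := by
    have h6 : R ^ 2 ≤ (κ2 * |v.1|) ^ 2 := pow_le_pow_left₀ hr0 hr2 2
    rwa [mul_pow, sq_abs] at h6
  have hRq : R ^ 2 ≤ v.1 ^ 2 / 16 := by
    have h6 : R ^ 2 ≤ (|v.1| / 4) ^ 2 := pow_le_pow_left₀ hr0 hr 2
    rw [div_pow, sq_abs] at h6
    linarith
  have haR : -(κ * v.1 ^ 2) ≤ J.a y * R ^ 2 := by
    have h6 : |J.a y * R ^ 2| ≤ κ * v.1 ^ 2 := by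
      rw [abs_mul, abs_of_nonneg (sq_nonneg R)]
      have h7 : |J.a y| * R ^ 2 ≤ Ma * (κ2 ^ 2 * v.1 ^ 2) :=
        mul_le_mul ha hRR (sq_nonneg R) ((abs_nonneg _).trans ha)
      have h8 : Ma * κ2 ^ 2 * v.1 ^ 2 ≤ κ * v.1 ^ 2 :=
        mul_le_mul_of_nonneg_right hM2 (sq_nonneg _)
      linarith
    exact (abs_le.1 h6).1
  have g1 := mul_le_mul_of_nonneg_left h5 hl.le
  have g2 := mul_le_mul_of_nonneg_left e1 hl.le
  have g3 := mul_le_mul_of_nonneg_left e2 (by linarith : 0 ≤ lam - 1)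
  have q1 : J.q y v = J.p y * v.1 + J.s y * (lam * σ) +
      (J.a y * v.1 ^ 2 + 2 * J.b y * v.1 * (lam * σ)) / 2 := by
    unfold Jets.q
    rw [hJ, hv]
    ring
  have q2 : J.q y (v.1, σ) = J.p y * v.1 + J.s y * σ +
      (J.a y * v.1 ^ 2 + 2 * J.b y * v.1 * σ) / 2 := by
    unfold Jets.q
    simp only [hJ]
    ring
  have q3 : J.q y (v.1, 0) = J.p y * v.1 + J.a y * v.1 ^ 2 / 2 := by
    unfold Jets.q
    simp only
    ring
  rw [q1]
  rw [q2] at g2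
  rw [q3] at g3
  have t1 : sq v = v.1 ^ 2 + lam ^ 2 * σ ^ 2 := by
    unfold sq
    rw [hv]
    ring
  rw [t1]
  -- error terms
  have r1 : lam * (κ1 * (v.1 ^ 2 + σ ^ 2 + R ^ 2 / 9)) = κ / 8 * (v.1 ^ 2 + σ ^ 2 + R ^ 2 / 9) := by
    rw [← mul_assoc, hk]
  have r2 : (lam - 1) * (κ1 * (v.1 ^ 2 + 0 ^ 2 + R ^ 2 / 9)) ≤
      κ / 8 * (v.1 ^ 2 + R ^ 2 / 9) := by
    have h6 : (lam - 1) * κ1 ≤ κ / 8 := by linarith
    have h7 : 0 ≤ v.1 ^ 2 + R ^ 2 / 9 := by positivity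
    nlinarith
  have r3 : κ * (σ ^ 2) ≤ κ * (lam ^ 2 * σ ^ 2) := by
    have : 1 ≤ lam ^ 2 := by nlinarith
    have h8 := mul_le_mul_of_nonneg_right this (mul_nonneg hκ.le (sq_nonneg σ))
    linarith
  have r4 : κ * R ^ 2 ≤ κ * (v.1 ^ 2 / 16) := mul_le_mul_of_nonneg_left hRq hκ.le
  have r5 : 0 ≤ κ * v.1 ^ 2 := by positivity
  have r6 : 0 ≤ κ * σ ^ 2 := by positivity
  nlinarith

private theorem cb_Qle {w : ℝ × ℝ → ℝ} {ρ : ℝ → ℝ} {y : ℝ × ℝ} {τ τ' : ℕ → ℝ} (n1 : NS τ)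
    (n2 : NS τ') (hw : Continuous w) (hc : ∀ p, ConvexOn ℝ univ fun t => w (p, t))
    {lam B L h : ℝ} (hl : 0 < lam) (m1 : τ 0 ≤ 1) (m2 : τ' 0 ≤ 1)
    (hb : |cbG ρ w y h 0| ≤ B) (hL : ∀ x x' : ℝ, |x| ≤ 1 → |x'| ≤ 1 →
      |cbG ρ w y h x - cbG ρ w y h x'| ≤ L * |x - x'|) (t : ℝ) :
    cbQ ρ w τ τ' lam y h t ≤ B + L * |t| := by
  have h1 := pi_lip τ τ' n1 n2 _ (cbG_convex ρ w hw hc y h) L ?_ (t / lam)
  · have h2 := (abs_le.1 h1).2
    have h3 := mul_le_mul_of_nonneg_left h2 hl.le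
    have h4 : lam * (L * |t / lam|) = L * |t| := by
      rw [abs_div, abs_of_pos hl]
      field_simp
    rw [h4] at h3
    have h5 := (abs_le.1 hb).2
    unfold cbQ
    linarith
  · intro x x' a1 a2 a3 a4
    exact hL x x' (abs_le.2 ⟨by linarith, by linarith⟩) (abs_le.2 ⟨by linarith, by linarith⟩)

theorem exists_bar (w : ℝ × ℝ → ℝ) (S0 S : Set (ℝ × ℝ)) (J : Jets) (h : WS w S0 S J) (ρ : ℝ → ℝ)
    (hρ : Rho w S0 J ρ) :
    ∃ (lam c C : ℝ) (Lam : ℝ → ℝ) (q : ℝ × ℝ → ℝ × ℝ → ℝ), Bar w S0 S J ρ lam c C Lam q := by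
  obtain ⟨c, C, hc0, hgr⟩ := h.gr
  have hw := h.cont
  have hcv := h.conv
  have hC : 0 ≤ C := by
    have h1 := hgr (0, 0)
    simp only at h1
    have h2 := h1.1.trans h1.2
    norm_num at h2
    linarith
  obtain ⟨r, τ, τ', hr0, hr1, hnod⟩ := cb_nodes w S0 S J h
  obtain ⟨B, L, M, hB, hL, hM, hS, hbd⟩ := cb_bounds w S0 S J h ρ hρ
  set E := C * (1 + (M + 1) ^ 2) + 1 with hE
  have hE0 : 0 ≤ E := by positivity
  have hW : ∀ y ∈ S, ∀ u t : ℝ, |u| ≤ 1 →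
      c * (y.2 + t) ^ 2 - E ≤ cbW c C (y.1 + u, y.2 + t) := by
    intro y hy u t hu
    have h1 := (hS y hy).1
    have h2 : |y.1 + u| ≤ M + 1 := (abs_add_le _ _).trans (add_le_add h1 hu)
    have h3 : (y.1 + u) ^ 2 ≤ (M + 1) ^ 2 := by
      rw [← sq_abs (y.1 + u)]
      exact pow_le_pow_left₀ (abs_nonneg _) h2 2
    have h4 := mul_le_mul_of_nonneg_left h3 hC
    unfold cbW
    show _ ≤ c * (y.2 + t) ^ 2 - C * (1 + (y.1 + u) ^ 2) - 1
    rw [hE]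
    linarith
  set T0 := 2 * (L + (B + c * M ^ 2 + E) + 1) / c + 1 with hT0
  have hT1 : 1 ≤ T0 := by
    rw [hT0]
    have : 0 ≤ 2 * (L + (B + c * M ^ 2 + E) + 1) / c := by positivity
    linarith
  have hT2 : L + (B + c * M ^ 2 + E) + 1 ≤ c * T0 / 2 := by
    have h1 : c * T0 = 2 * (L + (B + c * M ^ 2 + E) + 1) + c := by
      rw [hT0]
      field_simp
    rw [h1]
    linarith
  set lam := max 8 (2 * T0 / r) with hlam
  have hl8 : 8 ≤ lam := le_max_left _ _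
  have hl : 0 < lam := by linarith
  have hlT : T0 / lam ≤ r / 2 := by
    rw [div_le_iff₀ hl]
    have h1 : 2 * T0 / r ≤ lam := le_max_right _ _
    rw [div_le_iff₀ hr0] at h1
    linarith
  set Lm := 16 * (B + L * T0 + E + 1) with hLm
  have hLm0 : 0 ≤ Lm := by positivity
  have hD : ∀ y ∈ S, CbD w S0 ρ y (τ y) (τ' y) lam c C Lm T0 := by
    intro y hy
    obtain ⟨n1, n2, ⟨n3, n4⟩, ⟨n5, n6⟩, n7, n8⟩ := hnod y hy
    have hQ : ∀ u t : ℝ, |u| ≤ 1 → cbQ ρ w (τ y) (τ' y) lam y u t ≤ B + L * |t| := by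
      intro u t hu
      obtain ⟨b1, b2⟩ := hbd y hy u hu
      exact cb_Qle n1 n2 hw hcv hl n4 n6 b1 b2 t
    refine ⟨h.sub hy, n1, n2, n7, n8, hl8, hlT.trans n3, hlT.trans n5, hT1, hLm0, hc0, ?_, ?_⟩
    · intro u t hu ht
      have h1 := hQ u t hu
      have h2 := hW y hy u t hu
      have h3 := (hS y hy).2
      have h4 : y.2 ^ 2 ≤ M ^ 2 := by
        rw [← sq_abs y.2]
        exact pow_le_pow_left₀ (abs_nonneg _) h3 2
      have h5 : t ^ 2 / 2 - M ^ 2 ≤ (y.2 + t) ^ 2 := by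
        nlinarith [sq_nonneg (2 * y.2 + t)]
      have h6 := mul_le_mul_of_nonneg_left h5 hc0.le
      have h7 : t ^ 2 = |t| ^ 2 := (sq_abs t).symm
      have h8 : c * T0 / 2 * |t| ≤ c * (|t| ^ 2 / 2) := by
        have : T0 * |t| ≤ |t| * |t| := mul_le_mul_of_nonneg_right ht (abs_nonneg t)
        nlinarith
      have h9 : (L + (B + c * M ^ 2 + E) + 1) * |t| ≤ c * T0 / 2 * |t| :=
        mul_le_mul_of_nonneg_right hT2 (abs_nonneg t)
      have h10 : (B + c * M ^ 2 + E) * 1 ≤ (B + c * M ^ 2 + E) * |t| :=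
        mul_le_mul_of_nonneg_left (hT1.trans ht) (by positivity)
      have h11 : 1 ≤ |t| := hT1.trans ht
      rw [h7] at h6
      nlinarith
    · intro u t hu _ ht
      have h1 := hQ u t hu
      have h2 := hW y hy u t hu
      have h3 : 0 ≤ c * (y.2 + t) ^ 2 := by positivity
      have h4 : L * |t| ≤ L * T0 := mul_le_mul_of_nonneg_left ht hL
      rw [hLm]
      linarith
  have hwW : ∀ z, cbW c C z ≤ w z := by
    intro z
    have h1 := (hgr z).1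
    unfold cbW
    linarith
  obtain ⟨Cr, hCr⟩ := hρ.bd
  have hCr' : ∀ y ∈ S0, ∀ x h : ℝ, |x| ≤ 2 → |h| ≤ 1 →
      |d2 (fun u => Aav ρ w u y) h x| ≤ max Cr 0 * h ^ 2 := by
    intro y hy x u hx hu
    exact (hCr y hy x u hx hu).trans
      (mul_le_mul_of_nonneg_right (le_max_left _ _) (sq_nonneg _))
  have hrnn : ∀ x, 0 ≤ ρ x := by
    intro x
    by_cases hx : x = 0
    · rw [hx, hρ.zero]
    · exact (hρ.pos x hx).le
  obtain ⟨Ma, hMa⟩ := h.c0.exists_bound_of_continuousOn h.ex.ca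
  refine ⟨lam, c, C, fun u => Lm * cbPsi u, fun y z => cbq ρ w (τ y) (τ' y) lam c C Lm y z, ?_⟩
  refine
    { lam8 := hl8
      cpos := hc0
      cC := fun z => (hgr z).1
      Lnn := fun u => mul_nonneg hLm0 (cbPsi_nn u)
      L0 := fun u hu => by
        show Lm * cbPsi u = 0
        rw [cbPsi_zero hu, mul_zero]
      contp := fun y hy t => cb_contp (hD y hy) hρ.cont hw hcv t
      conv := fun y hy p => cb_conv (hD y hy) hw hcv p
      le := fun y hy z => cb_le (hD y hy) hw hcv h.conc (hwW z)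
      ge := fun y _ z => cb_ge z
      eq := fun y hy => cb_eq (hD y hy) hρ.zero hw hcv (hwW y)
      sc := ?_
      rep := ?_
      low := ?_ }
  · refine ⟨2 * C + 2 * lam * max Cr 0 + 2 * Lm, by positivity, fun y hy z u => ?_⟩
    exact cb_sc (hD y hy) hρ.cont hw hcv (le_max_right _ _) hC hCr' z u
  · intro y hy z hz
    have hz' : cbW c C z < cbq ρ w (τ y) (τ' y) lam c C Lm y z := hz
    obtain ⟨h1, h2⟩ := cb_lt (hD y hy) hz'
    obtain ⟨a, b, θ, h3, h4⟩ := cb_rep (hD y hy) hw hcv h2.le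
    refine ⟨h1, a, b, θ, h3, fun p hp => ?_⟩
    show cbq ρ w (τ y) (τ' y) lam c C Lm y (p, z.2) = _
    unfold cbq
    rw [if_pos hp, ← h4 p]
    rfl
  · intro κ hκ
    obtain ⟨δ1, hδ1, hE1⟩ := h.ex.ex (κ / (8 * lam)) (by positivity)
    have hκ2 : 0 < min 1 (κ / (|Ma| + 1)) := lt_min one_pos (by positivity)
    obtain ⟨δ2, hδ2, hE2⟩ := hρ.small _ hκ2
    set κ2 := min 1 (κ / (|Ma| + 1)) with hk2
    have hMk : |Ma| * κ2 ^ 2 ≤ κ := by
      have h1 : κ2 ≤ 1 := min_le_left _ _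
      have h2 : κ2 ≤ κ / (|Ma| + 1) := min_le_right _ _
      rw [le_div_iff₀ (by positivity)] at h2
      have h3 : κ2 ^ 2 ≤ κ2 := by nlinarith
      have h4 := mul_le_mul_of_nonneg_left h3 (abs_nonneg Ma)
      nlinarith
    set δ := min (1 / 2) (min δ2 (δ1 / 2)) with hδ
    have hδ0 : 0 < δ := lt_min (by norm_num) (lt_min hδ2 (by positivity))
    have d1 : δ ≤ 1 / 2 := min_le_left _ _
    have d2' : δ ≤ δ2 := (min_le_right _ _).trans (min_le_left _ _)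
    have d3 : δ ≤ δ1 / 2 := (min_le_right _ _).trans (min_le_right _ _)
    refine ⟨δ, hδ0, fun y hy v hv => ?_⟩
    have hv' : v.1 ^ 2 + v.2 ^ 2 ≤ δ ^ 2 := hv
    have v1 : |v.1| ≤ δ := abs_le_of_sq_le_sq (by nlinarith [sq_nonneg v.2]) hδ0.le
    have v2 : |v.2| ≤ δ := abs_le_of_sq_le_sq (by nlinarith [sq_nonneg v.1]) hδ0.le
    have h0 : y ∈ S0 := h.sub hy
    refine cb_low (hD y hy) hw hcv J (h.tt y h0) hκ (fun u hu => hE1 y h0 u hu)
      (Ma := |Ma|) ?_ hκ2.le hMk (hrnn _) (hρ.le _) (hE2 _ (v1.trans d2')) ?_ (v1.trans d1)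
      (v2.trans d1)
    · have h1 := hMa y h0
      rw [Real.norm_eq_abs] at h1
      exact h1.trans (le_abs_self _)
    · show 2 * (v.1 ^ 2 + v.2 ^ 2) ≤ δ1 ^ 2
      nlinarith

end Pool.Agent.MP_4eca41
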