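import Pool.Agent.Work.MP_4eca41_an.T.Mol

/-!
# Definitions of block C (FIXED)
-/

set_option autoImplicit false

open Set MeasureTheory

namespace Pool.Agent.MP_4eca41

/-- Average of `w` in the first variable around `y.1 + h`, radius `ρ h`, at height `y.2`. -/
noncomputable def Aav (ρ : ℝ → ℝ) (w : ℝ × ℝ → ℝ) (h : ℝ) (y : ℝ × ℝ) : ℝ :=
  ∫ s in (-1 : ℝ)..1, w (y.1 + h + ρ h * s, y.2) * ker s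

/-- Radius function adapted to `w` on `S0`. -/
structure Rho (w : ℝ × ℝ → ℝ) (S0 : Set (ℝ × ℝ)) (J : Jets) (ρ : ℝ → ℝ) : Prop where
  cont : Continuous ρ
  zero : ρ 0 = 0
  pos : ∀ x, x ≠ 0 → 0 < ρ x
  le : ∀ x, ρ x ≤ |x| / 4
  small : ∀ κ : ℝ, 0 < κ → ∃ δ : ℝ, 0 < δ ∧ ∀ x, |x| ≤ δ → ρ x ≤ κ * |x|
  near : ∀ κ : ℝ, 0 < κ → ∃ δ : ℝ, 0 < δ ∧ ∀ y ∈ S0, ∀ x h : ℝ, |x| ≤ δ → |h| ≤ δ →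
    |d2 (fun u => Aav ρ w u y) h x - J.a y * h ^ 2| ≤ κ * h ^ 2
  bd : ∃ C : ℝ, ∀ y ∈ S0, ∀ x h : ℝ, |x| ≤ 2 → |h| ≤ 1 →
    |d2 (fun u => Aav ρ w u y) h x| ≤ C * h ^ 2

/-- `a, b` are (offsets of) neighbouring nodes above or below `y`, and `t / lam = (1-θ) a + θ b`. -/
def Nod (S0 : Set (ℝ × ℝ)) (y : ℝ × ℝ) (lam t a b θ : ℝ) : Prop :=
  0 ≤ θ ∧ θ ≤ 1 ∧ (y.1, y.2 + a) ∈ S0 ∧ (y.1, y.2 + b) ∈ S0 ∧ t / lam = (1 - θ) * a + θ * b ∧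
    ((t = 0 ∧ a = 0 ∧ b = 0) ∨ (0 < a ∧ 2 * a ≤ b ∧ b ≤ 8 * a ∧ a ≤ t / lam ∧ t / lam ≤ b) ∨
      (a < 0 ∧ b ≤ 2 * a ∧ 8 * a ≤ b ∧ b ≤ t / lam ∧ t / lam ≤ a))

/-- The value of the dilation barrier `q_y` at `(p, y.2 + t)` in terms of the nodes. -/
noncomputable def qval (ρ : ℝ → ℝ) (w : ℝ × ℝ → ℝ) (y : ℝ × ℝ) (lam a b θ p : ℝ) : ℝ :=
  lam * ((1 - θ) * Aav ρ w (p - y.1) (y.1, y.2 + a) + θ * Aav ρ w (p - y.1) (y.1, y.2 + b)) -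
    (lam - 1) * Aav ρ w (p - y.1) y

/-- The family of (cut off) dilation barriers `q y`, `y ∈ S`. -/
structure Bar (w : ℝ × ℝ → ℝ) (S0 S : Set (ℝ × ℝ)) (J : Jets) (ρ : ℝ → ℝ) (lam c C : ℝ)
    (Lam : ℝ → ℝ) (q : ℝ × ℝ → ℝ × ℝ → ℝ) : Prop where
  lam8 : 8 ≤ lam
  cpos : 0 < c
  cC : ∀ z : ℝ × ℝ, c * z.2 ^ 2 - C * (1 + z.1 ^ 2) ≤ w z
  Lnn : ∀ h, 0 ≤ Lam h
  L0 : ∀ h, |h| ≤ 1 / 2 → Lam h = 0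
  contp : ∀ y ∈ S, ∀ t, Continuous fun p => q y (p, t)
  conv : ∀ y ∈ S, ∀ p, ConvexOn ℝ univ fun t => q y (p, t)
  le : ∀ y ∈ S, ∀ z, q y z ≤ w z
  ge : ∀ y ∈ S, ∀ z : ℝ × ℝ, c * z.2 ^ 2 - C * (1 + z.1 ^ 2) - 1 ≤ q y z
  eq : ∀ y ∈ S, q y y = w y
  sc : ∃ C' : ℝ, 0 ≤ C' ∧ ∀ y ∈ S, ∀ (z : ℝ × ℝ) (h : ℝ), -C' * h ^ 2 ≤ D2 (q y) (h, 0) z
  rep : ∀ y ∈ S, ∀ z : ℝ × ℝ, c * z.2 ^ 2 - C * (1 + z.1 ^ 2) - 1 < q y z →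
    |z.1 - y.1| < 3 / 4 ∧ ∃ a b θ : ℝ, Nod S0 y lam (z.2 - y.2) a b θ ∧
      ∀ p, |p - y.1| < 1 → q y (p, z.2) =
        max (qval ρ w y lam a b θ p - Lam (p - y.1)) (c * z.2 ^ 2 - C * (1 + p ^ 2) - 1)
  low : ∀ κ : ℝ, 0 < κ → ∃ δ : ℝ, 0 < δ ∧ ∀ y ∈ S, ∀ v : ℝ × ℝ, sq v ≤ δ ^ 2 →
    w y + J.q y v - κ * sq v ≤ q y (y + v)

/-- The lower function. -/
noncomputable def W00 (S : Set (ℝ × ℝ)) (q : ℝ × ℝ → ℝ × ℝ → ℝ) (z : ℝ × ℝ) : ℝ := ⨆ y : S, q y z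

end Pool.Agent.MP_4eca41
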