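import Pool.Agent.Work.MP_4eca41_an.C.CRho

/-!
# C6: sequences of nearly active barriers

PROOF of `bar_key`.  `q (y n) (z n) → w zz` and `wg := c z.2^2 - C (1+z.1^2) - 1 ≤ w - 1` (Bar.cC), `wg (z n) → wg zz ≤ w zz - 1`, so for large
`n`, `wg (z n) < q (y n) (z n)`, and `Bar.rep` applies at `z n`: `h n := (z n).1 - (y n).1`, `|h n| < 3/4`, nodes `a n, b n, θ n`, and
`q (y n) (z n) = qval ρ w (y n) lam (a n) (b n) (θ n) ((z n).1) - Lam (h n) ≤ qval …` (as it is `> wg`).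
Put `g_n τ = Aav ρ w (h n) ((y n).1, (y n).2 + τ)`, convex in `τ`, `t n = (z n).2 - (y n).2`.  By convexity (same computation as `pi_dil`:
the nodes `a, b` satisfy `|a| ≤ |b| ≤ 8 |a| ≤ 8 |t/lam| ≤ |t|` and have the sign of `t`, so `g a`, `g b` are below the chord of `g` over `[0, t]`):
`qval ≤ g_n (t n)`.  (1) `g_n (t n) = Aav ρ w (h n) ((y n).1, (z n).2) → Aav ρ w hh (yy.1, zz.2)`, `hh = zz.1 - yy.1` (`aav_continuous`).  So
`w zz ≤ Aav ρ w hh (yy.1, zz.2)`; if `hh ≠ 0` this is `< w (yy.1 + hh, zz.2) = w zz` by `aav_lt` (`ρ hh > 0`, hypothesis `hs`): contradiction.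
So `yy.1 = zz.1`, `h n → 0`, also (conclusion 1).  (2) Let `tt = zz.2 - yy.2`.  If `tt = 0` the second conclusion is trivial (both sides
vanish: `t = yy.2`).  If `tt > 0` (the case `< 0` is symmetric): for large `n` the second alternative of `Nod` holds; `a n, b n, θ n` are bounded:
pass to a subsequence converging to `a, b, θ`; `a ≥ (tt/lam)/8 > 0`, `b ≤ 8 a ≤ 8 tt/lam ≤ tt`, `tt/lam = (1-θ) a + θ b`.  In the limit
(`aav_continuous`, `aav_zero`): `w zz ≤ lam ((1-θ) G a + θ G b) - (lam-1) G 0` with `G τ = w (zz.1, yy.2 + τ)` convex, `G tt = w zz`.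
Chord inequalities `G a ≤ (1 - a/tt) G 0 + (a/tt) G tt`, `G b ≤ …` sum up to `≤ G tt`; equality forces equality for the node with positive
weight.  If `θ < 1`: `G a` is on the chord with `0 < a < tt` (`a ≤ b/2 ≤ tt/2`).  If `θ = 1`: `b = tt/lam`, `0 < b < tt`, `G b` on the chord.  A convex
function which touches its chord at an interior point is affine on the interval.  This is the second conclusion.
PROOF of `bar_nodes`: along the sequence of `bar_key` (with `yy.1 = zz.1`), for every `κ > 0` eventually the rep-nodes satisfy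
`|lam ((1-θ) J.a (y+a) + θ J.a (y+b)) - (lam-1) J.a y - J.a zz| < κ` if `zz ∈ S`: otherwise take a subsequence along which the inequality fails and
`a n → a, b n → b, θ n → θ`.  If `tt = 0`: `a = b = 0`, `yy = zz` and by continuity of `J.a` on the compact set `S0` the expression tends to
`lam J.a zz - (lam-1) J.a zz - J.a zz = 0`.  If `tt ≠ 0`: the points `(zz.1, yy.2 + a)`, `(zz.1, yy.2 + b)` are in `S0` (closed) and between
`yy, zz ∈ S`; `w (zz.1, ·)` is affine on the segment (bar_key), so `WS.aff` (with `t1, t2` the smaller and larger of `yy.2, zz.2`) says `J.a (zz.1, yy.2 + τ) = J.a yy + (τ/tt) (J.a zz - J.a yy)`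
for `τ = a, b`; as `(1-θ) a + θ b = tt/lam`, the expression equals `lam J.a yy + (J.a zz - J.a yy) - (lam-1) J.a yy - J.a zz = 0`.
-/

set_option autoImplicit false

open Set MeasureTheory Filter Topology

namespace Pool.Agent.MP_4eca41

private theorem chord_le {g : ℝ → ℝ} (hg : ConvexOn ℝ univ g) (t r : ℝ) (h0 : 0 ≤ r)
    (h1 : r ≤ 1) : g (r * t) ≤ (1 - r) * g 0 + r * g t := by
  have h := hg.2 (mem_univ (0 : ℝ)) (mem_univ t) (by linarith : (0 : ℝ) ≤ 1 - r) h0 (by ring)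
  simp only [smul_eq_mul, mul_zero, zero_add] at h
  exact h

private theorem chord_touch {g : ℝ → ℝ} (hg : ConvexOn ℝ univ g) (t r : ℝ) (h0 : 0 < r)
    (h1 : r < 1) (he : (1 - r) * g 0 + r * g t ≤ g (r * t)) (s : ℝ) (hs0 : 0 ≤ s)
    (hs1 : s ≤ 1) : g (s * t) = (1 - s) * g 0 + s * g t := by
  refine le_antisymm (chord_le hg t s hs0 hs1) ?_
  rcases le_total s r with hsr | hsr
  · -- `r` between `s` and `1`
    have hs : 0 < 1 - s := by linarith
    have hμ0 : 0 ≤ (r - s) / (1 - s) := div_nonneg (by linarith) hs.le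
    have hμ1 : 0 ≤ (1 - r) / (1 - s) := div_nonneg (by linarith) hs.le
    have hsum : (1 - r) / (1 - s) + (r - s) / (1 - s) = 1 := by
      rw [← add_div]
      rw [show 1 - r + (r - s) = 1 - s by ring, div_self hs.ne']
    have h := hg.2 (mem_univ (s * t)) (mem_univ t) hμ1 hμ0 hsum
    simp only [smul_eq_mul] at h
    have e : (1 - r) / (1 - s) * (s * t) + (r - s) / (1 - s) * t = r * t := by
      field_simp
      ring
    rw [e] at h
    have h2 := he.trans h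
    have h3 : (1 - s) * ((1 - r) * g 0 + r * g t) ≤
        (1 - r) * g (s * t) + (r - s) * g t := by
      have := mul_le_mul_of_nonneg_left h2 hs.le
      refine this.trans (le_of_eq ?_)
      field_simp
    have h4 : 0 ≤ (1 - r) * (g (s * t) - ((1 - s) * g 0 + s * g t)) := by nlinarith
    have h5 := nonneg_of_mul_nonneg_right h4 (by linarith)
    linarith
  · have hs : 0 < s := lt_of_lt_of_le h0 hsr
    have hμ0 : 0 ≤ r / s := div_nonneg h0.le hs.le
    have hμ1 : 0 ≤ 1 - r / s := by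
      rw [sub_nonneg, div_le_one hs]
      exact hsr
    have h := hg.2 (mem_univ (0 : ℝ)) (mem_univ (s * t)) hμ1 hμ0 (by ring)
    simp only [smul_eq_mul, mul_zero, zero_add] at h
    have e : r / s * (s * t) = r * t := by
      field_simp
    rw [e] at h
    have h2 := he.trans h
    have h3 : s * ((1 - r) * g 0 + r * g t) ≤ (s - r) * g 0 + r * g (s * t) := by
      have := mul_le_mul_of_nonneg_left h2 hs.le
      refine this.trans (le_of_eq ?_)
      field_simp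
    have h4 : 0 ≤ r * (g (s * t) - ((1 - s) * g 0 + s * g t)) := by nlinarith
    have h5 := nonneg_of_mul_nonneg_right h4 h0
    linarith

private theorem nod_ratio {S0 : Set (ℝ × ℝ)} {y : ℝ × ℝ} {lam t a b θ : ℝ} (hlam : 8 ≤ lam)
    (h : Nod S0 y lam t a b θ) : ∃ α β : ℝ, a = α * t ∧ b = β * t ∧ 1 / (8 * lam) ≤ α ∧
      α ≤ 1 / lam ∧ 1 / lam ≤ β ∧ β ≤ 8 / lam ∧ (1 - θ) * α + θ * β = 1 / lam := by
  obtain ⟨h0, h1, ha, hb, he, hc⟩ := h
  have hl : 0 < lam := by linarith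
  rcases hc with ⟨ht, ha0, hb0⟩ | hc
  · subst ht ha0 hb0
    refine ⟨1 / lam, 1 / lam, by simp, by simp, ?_, le_refl _, le_refl _, ?_, by ring⟩
    · exact one_div_le_one_div_of_le hl (by linarith)
    · exact div_le_div_of_nonneg_right (by norm_num) hl.le
  · have key : t ≠ 0 ∧ 0 < a / t ∧ 2 * (a / t) ≤ b / t ∧ b / t ≤ 8 * (a / t) ∧ a / t ≤ 1 / lam ∧
        1 / lam ≤ b / t := by
      rcases hc with ⟨c1, c2, c3, c4, c5⟩ | ⟨c1, c2, c3, c4, c5⟩
      · have ht : 0 < t := by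
          have : 0 < t / lam := lt_of_lt_of_le c1 c4
          rcases (div_pos_iff.1 this) with h | h
          · exact h.1
          · linarith [h.2]
        refine ⟨ht.ne', div_pos c1 ht, ?_, ?_, ?_, ?_⟩
        · rw [← mul_div_assoc]
          exact div_le_div_of_nonneg_right c2 ht.le
        · rw [← mul_div_assoc]
          exact div_le_div_of_nonneg_right c3 ht.le
        · rw [div_le_iff₀ ht]
          calc a ≤ t / lam := c4
            _ = 1 / lam * t := by ring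
        · rw [le_div_iff₀ ht]
          calc 1 / lam * t = t / lam := by ring
            _ ≤ b := c5
      · have ht : t < 0 := by
          have : t / lam < 0 := lt_of_le_of_lt c5 c1
          rcases (div_neg_iff.1 this) with h | h
          · linarith [h.2]
          · exact h.1
        refine ⟨ht.ne, div_pos_of_neg_of_neg c1 ht, ?_, ?_, ?_, ?_⟩
        · rw [← mul_div_assoc]
          exact div_le_div_of_nonpos_of_le ht.le c2
        · rw [← mul_div_assoc]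
          exact div_le_div_of_nonpos_of_le ht.le c3
        · rw [div_le_iff_of_neg ht]
          calc 1 / lam * t = t / lam := by ring
            _ ≤ a := c5
        · rw [le_div_iff_of_neg ht]
          calc b ≤ t / lam := c4
            _ = 1 / lam * t := by ring
    obtain ⟨ht, k1, k2, k3, k4, k5⟩ := key
    refine ⟨a / t, b / t, by field_simp, by field_simp, ?_, k4, k5, ?_, ?_⟩
    · have : 1 / (8 * lam) = (1 / lam) / 8 := by
        field_simp
      rw [this]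
      linarith
    · calc b / t ≤ 8 * (a / t) := k3
        _ ≤ 8 * (1 / lam) := by linarith
        _ = 8 / lam := by ring
    · have : (1 - θ) * (a / t) + θ * (b / t) = ((1 - θ) * a + θ * b) / t := by ring
      rw [this, ← he]
      field_simp

private theorem shift_convex {F : ℝ → ℝ} (hF : ConvexOn ℝ univ F) (c : ℝ) :
    ConvexOn ℝ univ fun τ => F (c + τ) := by
  refine ⟨convex_univ, fun x _ y _ a b ha hb hab => ?_⟩
  have h := hF.2 (mem_univ (c + x)) (mem_univ (c + y)) ha hb hab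
  simp only [smul_eq_mul] at h ⊢
  have e : a * (c + x) + b * (c + y) = c + (a * x + b * y) := by
    have : a * (c + x) + b * (c + y) = (a + b) * c + (a * x + b * y) := by ring
    rw [this, hab, one_mul]
  rw [e] at h
  exact h

private theorem node_val {g : ℝ → ℝ} {lam t α β θ : ℝ} (hl : 0 < lam)
    (he : (1 - θ) * α + θ * β = 1 / lam) :
    lam * ((1 - θ) * g (α * t) + θ * g (β * t)) - (lam - 1) * g 0 = g t -
      lam * ((1 - θ) * ((1 - α) * g 0 + α * g t - g (α * t)) +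
        θ * ((1 - β) * g 0 + β * g t - g (β * t))) := by
  have h1 : lam * ((1 - θ) * α + θ * β) = 1 := by
    rw [he]
    field_simp
  have h2 : lam * ((1 - θ) * ((1 - α) * g 0 + α * g t - g (α * t)) +
        θ * ((1 - β) * g 0 + β * g t - g (β * t))) =
      lam * g 0 - (lam * ((1 - θ) * α + θ * β)) * g 0 + (lam * ((1 - θ) * α + θ * β)) * g t -
        lam * ((1 - θ) * g (α * t) + θ * g (β * t)) := by ring
  rw [h2, h1]
  ring

private theorem node_le {g : ℝ → ℝ} (hg : ConvexOn ℝ univ g) {lam t α β θ : ℝ} (hlam : 8 ≤ lam)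
    (h0 : 0 ≤ θ) (h1 : θ ≤ 1) (hα0 : 1 / (8 * lam) ≤ α) (hα1 : α ≤ 1 / lam)
    (hβ0 : 1 / lam ≤ β) (hβ1 : β ≤ 8 / lam) (he : (1 - θ) * α + θ * β = 1 / lam) :
    lam * ((1 - θ) * g (α * t) + θ * g (β * t)) - (lam - 1) * g 0 ≤ g t := by
  have hl : 0 < lam := by linarith
  rw [node_val hl he]
  have p1 : 0 < 1 / (8 * lam) := by positivity
  have p2 : 0 < 1 / lam := by positivity
  have p3 : 8 / lam ≤ 1 := by
    rw [div_le_one hl]
    exact hlam
  have p4 : 1 / lam ≤ 1 := by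
    rw [div_le_one hl]
    linarith
  have e1 := chord_le hg t α (by linarith) (by linarith)
  have e2 := chord_le hg t β (by linarith) (by linarith)
  have : 0 ≤ lam * ((1 - θ) * ((1 - α) * g 0 + α * g t - g (α * t)) +
        θ * ((1 - β) * g 0 + β * g t - g (β * t))) :=
    mul_nonneg hl.le (add_nonneg (mul_nonneg (by linarith) (by linarith))
      (mul_nonneg h0 (by linarith)))
  linarith

private theorem qval_eq (ρ : ℝ → ℝ) (w : ℝ × ℝ → ℝ) (y : ℝ × ℝ) (lam a b θ p : ℝ) :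
    qval ρ w y lam a b θ p =
      lam * ((1 - θ) * (fun τ => Aav ρ w (p - y.1) (y.1, y.2 + τ)) a +
        θ * (fun τ => Aav ρ w (p - y.1) (y.1, y.2 + τ)) b) -
      (lam - 1) * (fun τ => Aav ρ w (p - y.1) (y.1, y.2 + τ)) 0 := by
  unfold qval
  simp only [add_zero]

/-- nodes of the nearly active barriers -/
private theorem bar_rep (w : ℝ × ℝ → ℝ) (S0 S : Set (ℝ × ℝ)) (J : Jets) (ρ : ℝ → ℝ)
    (lam c C : ℝ) (Lam : ℝ → ℝ) (q : ℝ × ℝ → ℝ × ℝ → ℝ)
    (hb : Bar w S0 S J ρ lam c C Lam q) (y z : ℝ × ℝ) (hy : y ∈ S)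
    (hq : c * z.2 ^ 2 - C * (1 + z.1 ^ 2) - 1 < q y z) :
    ∃ a b θ : ℝ, Nod S0 y lam (z.2 - y.2) a b θ ∧ q y z ≤ qval ρ w y lam a b θ z.1 := by
  obtain ⟨h1, a, b, θ, hn, hr⟩ := hb.rep y hy z hq
  refine ⟨a, b, θ, hn, ?_⟩
  have h2 := hr z.1 (by linarith)
  have h3 : (z.1, z.2) = z := rfl
  rw [h3] at h2
  rw [h2] at hq ⊢
  rcases lt_max_iff.1 hq with h | h
  · rw [max_eq_left h.le]
    linarith [hb.Lnn (z.1 - y.1)]
  · exact absurd h (lt_irrefl _)

private theorem box_compact (lam : ℝ) : IsCompact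
    (Icc (1 / (8 * lam)) (1 / lam) ×ˢ Icc (1 / lam) (8 / lam) ×ˢ Icc (0 : ℝ) 1) :=
  isCompact_Icc.prod (isCompact_Icc.prod isCompact_Icc)

private theorem poly_zero (A B : ℝ)
    (h : ∀ ε : ℝ, 0 < ε → ∃ δ : ℝ, 0 < δ ∧ ∀ u : ℝ, |u| ≤ δ → |A * u + B * u ^ 2| ≤ ε * u ^ 2) :
    A = 0 ∧ B = 0 := by
  have hA : A = 0 := by
    by_contra hne
    have hA0 : 0 < |A| := abs_pos.2 hne
    obtain ⟨δ, hδ, hh⟩ := h 1 one_pos
    have hB : 0 < |B| + 1 := by positivity
    set u := min δ (|A| / (2 * (|B| + 1))) with hu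
    have hu0 : 0 < u := lt_min hδ (by positivity)
    have h1 := hh u (by rw [abs_of_pos hu0]; exact min_le_left _ _)
    have h2 : |A| * u ≤ |A * u + B * u ^ 2| + |B| * u ^ 2 := by
      have := abs_sub (A * u + B * u ^ 2) (B * u ^ 2)
      have e : A * u + B * u ^ 2 - B * u ^ 2 = A * u := by ring
      rw [e, abs_mul, abs_of_pos hu0, abs_mul B, abs_of_nonneg (sq_nonneg u)] at this
      exact this
    have h3 : |A| * u ≤ ((|B| + 1) * u) * u := by nlinarith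
    have h4 : |A| ≤ (|B| + 1) * u := le_of_mul_le_mul_right h3 hu0
    have h5 : (|B| + 1) * u ≤ |A| / 2 := by
      calc (|B| + 1) * u ≤ (|B| + 1) * (|A| / (2 * (|B| + 1))) :=
            mul_le_mul_of_nonneg_left (min_le_right _ _) hB.le
        _ = |A| / 2 := by field_simp
    linarith
  refine ⟨hA, ?_⟩
  subst hA
  by_contra hne
  have hB0 : 0 < |B| := abs_pos.2 hne
  obtain ⟨δ, hδ, hh⟩ := h (|B| / 2) (by positivity)
  have h1 := hh δ (by rw [abs_of_pos hδ])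
  rw [zero_mul, zero_add, abs_mul, abs_of_nonneg (sq_nonneg δ)] at h1
  have h2 : |B| ≤ |B| / 2 := le_of_mul_le_mul_right h1 (by positivity)
  linarith

theorem bar_key (w : ℝ × ℝ → ℝ) (S0 S : Set (ℝ × ℝ)) (J : Jets) (h : WS w S0 S J) (ρ : ℝ → ℝ)
    (hρ : Rho w S0 J ρ) (lam c C : ℝ) (Lam : ℝ → ℝ) (q : ℝ × ℝ → ℝ × ℝ → ℝ)
    (hb : Bar w S0 S J ρ lam c C Lam q) (z y : ℕ → ℝ × ℝ) (zz yy : ℝ × ℝ) (hy : ∀ n, y n ∈ S)
    (lz : Tendsto z atTop (𝓝 zz)) (ly : Tendsto y atTop (𝓝 yy))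
    (lq : Tendsto (fun n => q (y n) (z n)) atTop (𝓝 (w zz)))
    (hs : ∀ r : ℝ, 0 < r → w (zz.1 + r, zz.2) + w (zz.1 - r, zz.2) < 2 * w zz) :
    yy.1 = zz.1 ∧ ∀ t : ℝ, (yy.2 ≤ t ∧ t ≤ zz.2 ∨ zz.2 ≤ t ∧ t ≤ yy.2) →
      (zz.2 - yy.2) * w (zz.1, t) = (zz.2 - t) * w (zz.1, yy.2) + (t - yy.2) * w (zz.1, zz.2) := by
  have hlam := hb.lam8
  have hl : 0 < lam := by linarith
  have lz1 : Tendsto (fun n => (z n).1) atTop (𝓝 zz.1) := (continuous_fst.tendsto zz).comp lz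
  have lz2 : Tendsto (fun n => (z n).2) atTop (𝓝 zz.2) := (continuous_snd.tendsto zz).comp lz
  have ly1 : Tendsto (fun n => (y n).1) atTop (𝓝 yy.1) := (continuous_fst.tendsto yy).comp ly
  have ly2 : Tendsto (fun n => (y n).2) atTop (𝓝 yy.2) := (continuous_snd.tendsto yy).comp ly
  have hwg : Tendsto (fun n => c * (z n).2 ^ 2 - C * (1 + (z n).1 ^ 2) - 1) atTop
      (𝓝 (c * zz.2 ^ 2 - C * (1 + zz.1 ^ 2) - 1)) :=
    (((lz2.pow 2).const_mul c).sub (((lz1.pow 2).const_add 1).const_mul C)).sub_const 1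
  have hlt : c * zz.2 ^ 2 - C * (1 + zz.1 ^ 2) - 1 < w zz := by
    have := hb.cC zz
    linarith
  obtain ⟨N, hN⟩ := eventually_atTop.1 (hwg.eventually_lt lq hlt)
  have hshift : Tendsto (fun k : ℕ => k + N) atTop atTop := tendsto_add_atTop_nat N
  -- data
  have hdata : ∀ k : ℕ, ∃ x : ℝ × ℝ × ℝ,
      x ∈ Icc (1 / (8 * lam)) (1 / lam) ×ˢ Icc (1 / lam) (8 / lam) ×ˢ Icc (0 : ℝ) 1 ∧
      (1 - x.2.2) * x.1 + x.2.2 * x.2.1 = 1 / lam ∧
      q (y (k + N)) (z (k + N)) ≤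
        lam * ((1 - x.2.2) * Aav ρ w ((z (k + N)).1 - (y (k + N)).1)
            ((y (k + N)).1, (y (k + N)).2 + x.1 * ((z (k + N)).2 - (y (k + N)).2)) +
          x.2.2 * Aav ρ w ((z (k + N)).1 - (y (k + N)).1)
            ((y (k + N)).1, (y (k + N)).2 + x.2.1 * ((z (k + N)).2 - (y (k + N)).2))) -
        (lam - 1) * Aav ρ w ((z (k + N)).1 - (y (k + N)).1) (y (k + N)) := by
    intro k
    obtain ⟨a, b, θ, hn, hle⟩ := bar_rep w S0 S J ρ lam c C Lam q hb (y (k + N)) (z (k + N))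
      (hy _) (hN (k + N) (by omega))
    obtain ⟨α, β, ea, eb, r1, r2, r3, r4, r5⟩ := nod_ratio hlam hn
    refine ⟨(α, β, θ), ⟨⟨r1, r2⟩, ⟨r3, r4⟩, ⟨hn.1, hn.2.1⟩⟩, r5, ?_⟩
    rw [ea, eb] at hle
    exact hle
  choose x hxK hxe hxq using hdata
  -- first conclusion
  have hac := aav_continuous ρ hρ.cont w h.cont
  have hfirst : ∀ k : ℕ, q (y (k + N)) (z (k + N)) ≤
      Aav ρ w ((z (k + N)).1 - (y (k + N)).1) ((y (k + N)).1, (z (k + N)).2) := by
    intro k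
    have hcv := shift_convex (aav_convex ρ w h.cont h.conv ((z (k + N)).1 - (y (k + N)).1)
      (y (k + N)).1) (y (k + N)).2
    have h1 := node_le hcv hlam (hxK k).2.2.1 (hxK k).2.2.2 (hxK k).1.1 (hxK k).1.2
      (hxK k).2.1.1 (hxK k).2.1.2 (hxe k) (t := (z (k + N)).2 - (y (k + N)).2)
    have h2 := (hxq k).trans (le_of_eq ?_) |>.trans h1
    · have e : (y (k + N)).2 + ((z (k + N)).2 - (y (k + N)).2) = (z (k + N)).2 := by ring
      rw [e] at h2
      exact h2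
    · simp only [add_zero]
  have hlim1 : Tendsto (fun k : ℕ => Aav ρ w ((z (k + N)).1 - (y (k + N)).1)
      ((y (k + N)).1, (z (k + N)).2)) atTop (𝓝 (Aav ρ w (zz.1 - yy.1) (yy.1, zz.2))) := by
    have h1 : Tendsto (fun n => ((z n).1 - (y n).1, ((y n).1, (z n).2))) atTop
        (𝓝 (zz.1 - yy.1, (yy.1, zz.2))) := (lz1.sub ly1).prodMk_nhds (ly1.prodMk_nhds lz2)
    exact ((hac.tendsto _).comp h1).comp hshift
  have hle1 : w zz ≤ Aav ρ w (zz.1 - yy.1) (yy.1, zz.2) :=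
    le_of_tendsto_of_tendsto' (lq.comp hshift) hlim1 hfirst
  have h1eq : yy.1 = zz.1 := by
    by_contra hne
    have hne' : zz.1 - yy.1 ≠ 0 := fun hh => hne (by linarith)
    have e : yy.1 + (zz.1 - yy.1) = zz.1 := by ring
    have h2 := aav_lt ρ w h.cont h.conc (zz.1 - yy.1) (yy.1, zz.2) (hρ.pos _ hne')
      (by
        intro r hr
        simp only [e]
        exact hs r hr)
    simp only [e] at h2
    exact absurd hle1 (not_le.2 h2)
  refine ⟨h1eq, ?_⟩
  -- second conclusion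
  obtain ⟨xx, hxxK, φ, hφ, hlx⟩ := (box_compact lam).tendsto_subseq hxK
  have hψ : Tendsto (fun k : ℕ => φ k + N) atTop atTop := hshift.comp hφ.tendsto_atTop
  have lx1 : Tendsto (fun k => (x (φ k)).1) atTop (𝓝 xx.1) := (continuous_fst.tendsto xx).comp hlx
  have lx2 : Tendsto (fun k => (x (φ k)).2.1) atTop (𝓝 xx.2.1) :=
    ((continuous_fst.comp continuous_snd).tendsto xx).comp hlx
  have lx3 : Tendsto (fun k => (x (φ k)).2.2) atTop (𝓝 xx.2.2) :=
    ((continuous_snd.comp continuous_snd).tendsto xx).comp hlx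
  have lz1' := lz1.comp hψ
  have lz2' := lz2.comp hψ
  have ly1' := ly1.comp hψ
  have ly2' := ly2.comp hψ
  have hee : (1 - xx.2.2) * xx.1 + xx.2.2 * xx.2.1 = 1 / lam := by
    have h1 : Tendsto (fun k => (1 - (x (φ k)).2.2) * (x (φ k)).1 +
        (x (φ k)).2.2 * (x (φ k)).2.1) atTop
        (𝓝 ((1 - xx.2.2) * xx.1 + xx.2.2 * xx.2.1)) :=
      ((lx3.const_sub 1).mul lx1).add (lx3.mul lx2)
    have h2 : (fun k => (1 - (x (φ k)).2.2) * (x (φ k)).1 +
        (x (φ k)).2.2 * (x (φ k)).2.1) = fun _ => 1 / lam := by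
      funext k
      exact hxe (φ k)
    rw [h2] at h1
    exact tendsto_nhds_unique h1 tendsto_const_nhds |>.symm ▸ rfl
  have hA : ∀ (γ : ℕ → ℝ) (g0 : ℝ), Tendsto γ atTop (𝓝 g0) →
      Tendsto (fun k => Aav ρ w ((z (φ k + N)).1 - (y (φ k + N)).1)
        ((y (φ k + N)).1, (y (φ k + N)).2 + γ k * ((z (φ k + N)).2 - (y (φ k + N)).2)))
        atTop (𝓝 (w (zz.1, yy.2 + g0 * (zz.2 - yy.2)))) := by
    intro γ g0 hγ
    have h1 : Tendsto (fun k => ((z (φ k + N)).1 - (y (φ k + N)).1,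
        ((y (φ k + N)).1, (y (φ k + N)).2 + γ k * ((z (φ k + N)).2 - (y (φ k + N)).2))))
        atTop (𝓝 (zz.1 - yy.1, (yy.1, yy.2 + g0 * (zz.2 - yy.2)))) :=
      (lz1'.sub ly1').prodMk_nhds (ly1'.prodMk_nhds (ly2'.add (hγ.mul (lz2'.sub ly2'))))
    have h2 := (hac.tendsto _).comp h1
    simp only [h1eq, sub_self, aav_zero ρ hρ.zero] at h2
    exact h2
  have hA0 : Tendsto (fun k => Aav ρ w ((z (φ k + N)).1 - (y (φ k + N)).1) (y (φ k + N)))
      atTop (𝓝 (w (zz.1, yy.2))) := by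
    have h1 := hA (fun _ => 0) 0 tendsto_const_nhds
    simp only [zero_mul, add_zero] at h1
    exact h1
  have hlim2 := (((lx3.const_sub 1).mul (hA _ _ lx1)).add (lx3.mul (hA _ _ lx2))).const_mul lam
    |>.sub (hA0.const_mul (lam - 1))
  have hle2 := le_of_tendsto_of_tendsto' (lq.comp hψ) hlim2 fun k => hxq (φ k)
  set G : ℝ → ℝ := fun τ => w (zz.1, yy.2 + τ) with hG
  have hGc : ConvexOn ℝ univ G := shift_convex (h.conv zz.1) yy.2
  have hG0 : G 0 = w (zz.1, yy.2) := by simp [hG]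
  have hGt : G (zz.2 - yy.2) = w (zz.1, zz.2) := by
    have e : yy.2 + (zz.2 - yy.2) = zz.2 := by ring
    simp only [hG, e]
  have hle3 : w (zz.1, zz.2) ≤ lam * ((1 - xx.2.2) * G (xx.1 * (zz.2 - yy.2)) +
      xx.2.2 * G (xx.2.1 * (zz.2 - yy.2))) - (lam - 1) * G 0 := by
    rw [hG0]
    exact hle2
  rw [node_val hl hee, hGt, hG0] at hle3
  have hb1 : 0 < 1 / (8 * lam) := by positivity
  have hb2 : 0 < 1 / lam := by positivity
  have hb3 : 8 / lam ≤ 1 := by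
    rw [div_le_one hl]
    exact hlam
  have hb4 : 1 / lam < 1 := by
    rw [div_lt_one hl]
    linarith
  obtain ⟨⟨k1, k2⟩, ⟨k3, k4⟩, ⟨k5, k6⟩⟩ := hxxK
  have ea := chord_le hGc (zz.2 - yy.2) xx.1 (by linarith) (by linarith)
  have eb := chord_le hGc (zz.2 - yy.2) xx.2.1 (by linarith) (by linarith)
  rw [hG0, hGt] at ea eb
  have hsum : (1 - xx.2.2) * ((1 - xx.1) * w (zz.1, yy.2) + xx.1 * w (zz.1, zz.2) -
      G (xx.1 * (zz.2 - yy.2))) + xx.2.2 * ((1 - xx.2.1) * w (zz.1, yy.2) +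
      xx.2.1 * w (zz.1, zz.2) - G (xx.2.1 * (zz.2 - yy.2))) ≤ 0 := by
    by_contra hcon
    push Not at hcon
    have := mul_pos hl hcon
    linarith
  have n1 : 0 ≤ (1 - xx.2.2) * ((1 - xx.1) * w (zz.1, yy.2) + xx.1 * w (zz.1, zz.2) -
      G (xx.1 * (zz.2 - yy.2))) := mul_nonneg (by linarith) (by linarith)
  have n2 : 0 ≤ xx.2.2 * ((1 - xx.2.1) * w (zz.1, yy.2) +
      xx.2.1 * w (zz.1, zz.2) - G (xx.2.1 * (zz.2 - yy.2))) := mul_nonneg k5 (by linarith)
  have htouch : ∃ r : ℝ, 0 < r ∧ r < 1 ∧ (1 - r) * G 0 + r * G (zz.2 - yy.2) ≤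
      G (r * (zz.2 - yy.2)) := by
    rw [hG0, hGt]
    rcases lt_or_eq_of_le k6 with hθ | hθ
    · refine ⟨xx.1, by linarith, by linarith, ?_⟩
      have h1 : (1 - xx.2.2) * ((1 - xx.1) * w (zz.1, yy.2) + xx.1 * w (zz.1, zz.2) -
        G (xx.1 * (zz.2 - yy.2))) = 0 := le_antisymm (by linarith) n1
      rcases mul_eq_zero.1 h1 with h2 | h2
      · linarith
      · linarith
    · refine ⟨xx.2.1, by linarith, ?_, ?_⟩
      · have h1 := hee
        rw [hθ] at h1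
        have h2 : xx.2.1 = 1 / lam := by linarith
        rw [h2]
        exact hb4
      · rw [hθ] at n1 hsum
        linarith
  obtain ⟨r, hr0, hr1, hr⟩ := htouch
  intro t ht
  by_cases htt : zz.2 - yy.2 = 0
  · have e1 : zz.2 = yy.2 := by linarith
    have e2 : t = yy.2 := by
      rcases ht with ⟨a1, a2⟩ | ⟨a1, a2⟩ <;> linarith
    rw [e1, e2]
    ring
  · have hs01 : 0 ≤ (t - yy.2) / (zz.2 - yy.2) ∧ (t - yy.2) / (zz.2 - yy.2) ≤ 1 := by
      rcases ht with ⟨a1, a2⟩ | ⟨a1, a2⟩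
      · have hp : 0 < zz.2 - yy.2 := lt_of_le_of_ne (by linarith) (Ne.symm htt)
        exact ⟨div_nonneg (by linarith) hp.le, (div_le_one hp).2 (by linarith)⟩
      · have hp : zz.2 - yy.2 < 0 := lt_of_le_of_ne (by linarith) htt
        exact ⟨div_nonneg_of_nonpos (by linarith) hp.le,
          (div_le_one_of_neg hp).2 (by linarith)⟩
    have h1 := chord_touch hGc (zz.2 - yy.2) r hr0 hr1 hr ((t - yy.2) / (zz.2 - yy.2))
      hs01.1 hs01.2
    have e1 : (t - yy.2) / (zz.2 - yy.2) * (zz.2 - yy.2) = t - yy.2 := by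
      field_simp
    rw [e1, hG0, hGt] at h1
    have e2 : G (t - yy.2) = w (zz.1, t) := by
      have e : yy.2 + (t - yy.2) = t := by ring
      simp only [hG, e]
    rw [e2] at h1
    rw [h1]
    field_simp
    ring

theorem bar_nodes (w : ℝ × ℝ → ℝ) (S0 S : Set (ℝ × ℝ)) (J : Jets) (h : WS w S0 S J) (ρ : ℝ → ℝ)
    (hρ : Rho w S0 J ρ) (lam c C : ℝ) (Lam : ℝ → ℝ) (q : ℝ × ℝ → ℝ × ℝ → ℝ)
    (hb : Bar w S0 S J ρ lam c C Lam q) (z y : ℕ → ℝ × ℝ) (zz yy : ℝ × ℝ) (hy : ∀ n, y n ∈ S)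
    (lz : Tendsto z atTop (𝓝 zz)) (ly : Tendsto y atTop (𝓝 yy)) (hz : zz ∈ S)
    (lq : Tendsto (fun n => q (y n) (z n)) atTop (𝓝 (w zz)))
    (hs : ∀ r : ℝ, 0 < r → w (zz.1 + r, zz.2) + w (zz.1 - r, zz.2) < 2 * w zz) (κ : ℝ) (hκ : 0 < κ) :
    ∀ᶠ n in atTop, ∀ a b θ : ℝ, Nod S0 (y n) lam ((z n).2 - (y n).2) a b θ →
      |lam * ((1 - θ) * J.a ((y n).1, (y n).2 + a) + θ * J.a ((y n).1, (y n).2 + b)) -
        (lam - 1) * J.a (y n) - J.a zz| < κ := by
  have hlam := hb.lam8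
  have hl : 0 < lam := by linarith
  by_contra hcon
  rw [Filter.not_eventually] at hcon
  obtain ⟨φ, hφ, hφ2⟩ := extraction_of_frequently_atTop hcon
  push Not at hφ2
  have hdata : ∀ k : ℕ, ∃ x : ℝ × ℝ × ℝ,
      x ∈ Icc (1 / (8 * lam)) (1 / lam) ×ˢ Icc (1 / lam) (8 / lam) ×ˢ Icc (0 : ℝ) 1 ∧
      (1 - x.2.2) * x.1 + x.2.2 * x.2.1 = 1 / lam ∧
      ((y (φ k)).1, (y (φ k)).2 + x.1 * ((z (φ k)).2 - (y (φ k)).2)) ∈ S0 ∧
      ((y (φ k)).1, (y (φ k)).2 + x.2.1 * ((z (φ k)).2 - (y (φ k)).2)) ∈ S0 ∧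
      κ ≤ |lam * ((1 - x.2.2) *
          J.a ((y (φ k)).1, (y (φ k)).2 + x.1 * ((z (φ k)).2 - (y (φ k)).2)) +
        x.2.2 * J.a ((y (φ k)).1, (y (φ k)).2 + x.2.1 * ((z (φ k)).2 - (y (φ k)).2))) -
        (lam - 1) * J.a (y (φ k)) - J.a zz| := by
    intro k
    obtain ⟨a, b, θ, hn, hle⟩ := hφ2 k
    obtain ⟨α, β, ea, eb, r1, r2, r3, r4, r5⟩ := nod_ratio hlam hn
    have h3 := hn.2.2.1
    have h4 := hn.2.2.2.1
    refine ⟨(α, β, θ), ⟨⟨r1, r2⟩, ⟨r3, r4⟩, ⟨hn.1, hn.2.1⟩⟩, r5, ?_, ?_, ?_⟩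
    · rw [ea] at h3
      exact h3
    · rw [eb] at h4
      exact h4
    · rw [ea, eb] at hle
      exact hle
  choose x hxK hxe hx1 hx2 hxq using hdata
  obtain ⟨xx, hxxK, ψ, hψ, hlx⟩ := (box_compact lam).tendsto_subseq hxK
  have hχ : Tendsto (fun k => φ (ψ k)) atTop atTop := hφ.tendsto_atTop.comp hψ.tendsto_atTop
  obtain ⟨h1eq, haff⟩ := bar_key w S0 S J h ρ hρ lam c C Lam q hb z y zz yy hy lz ly lq hs
  have hyyS : yy ∈ S := h.cS.isClosed.mem_of_tendsto ly (Eventually.of_forall hy)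
  have hclS0 : IsClosed S0 := h.c0.isClosed
  have lz2 : Tendsto (fun n => (z n).2) atTop (𝓝 zz.2) := (continuous_snd.tendsto zz).comp lz
  have ly1 : Tendsto (fun n => (y n).1) atTop (𝓝 yy.1) := (continuous_fst.tendsto yy).comp ly
  have ly2 : Tendsto (fun n => (y n).2) atTop (𝓝 yy.2) := (continuous_snd.tendsto yy).comp ly
  have lx1 : Tendsto (fun k => (x (ψ k)).1) atTop (𝓝 xx.1) := (continuous_fst.tendsto xx).comp hlx
  have lx2 : Tendsto (fun k => (x (ψ k)).2.1) atTop (𝓝 xx.2.1) :=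
    ((continuous_fst.comp continuous_snd).tendsto xx).comp hlx
  have lx3 : Tendsto (fun k => (x (ψ k)).2.2) atTop (𝓝 xx.2.2) :=
    ((continuous_snd.comp continuous_snd).tendsto xx).comp hlx
  have hee : (1 - xx.2.2) * xx.1 + xx.2.2 * xx.2.1 = 1 / lam := by
    have h1 : Tendsto (fun k => (1 - (x (ψ k)).2.2) * (x (ψ k)).1 +
        (x (ψ k)).2.2 * (x (ψ k)).2.1) atTop
        (𝓝 ((1 - xx.2.2) * xx.1 + xx.2.2 * xx.2.1)) :=
      ((lx3.const_sub 1).mul lx1).add (lx3.mul lx2)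
    have h2 : (fun k => (1 - (x (ψ k)).2.2) * (x (ψ k)).1 +
        (x (ψ k)).2.2 * (x (ψ k)).2.1) = fun _ => 1 / lam := by
      funext k
      exact hxe (ψ k)
    rw [h2] at h1
    exact tendsto_nhds_unique h1 tendsto_const_nhds |>.symm ▸ rfl
  have hP : ∀ (γ : ℕ → ℝ) (g0 : ℝ), Tendsto γ atTop (𝓝 g0) →
      (∀ k, ((y (φ (ψ k))).1, (y (φ (ψ k))).2 + γ k * ((z (φ (ψ k))).2 - (y (φ (ψ k))).2)) ∈ S0) →
      (zz.1, yy.2 + g0 * (zz.2 - yy.2)) ∈ S0 ∧
      Tendsto (fun k => J.a ((y (φ (ψ k))).1,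
        (y (φ (ψ k))).2 + γ k * ((z (φ (ψ k))).2 - (y (φ (ψ k))).2)))
        atTop (𝓝 (J.a (zz.1, yy.2 + g0 * (zz.2 - yy.2)))) := by
    intro γ g0 hγ hm
    have l1 : Tendsto (fun k => ((y (φ (ψ k))).1,
        (y (φ (ψ k))).2 + γ k * ((z (φ (ψ k))).2 - (y (φ (ψ k))).2))) atTop
        (𝓝 (zz.1, yy.2 + g0 * (zz.2 - yy.2))) := by
      rw [← h1eq]
      exact (ly1.comp hχ).prodMk_nhds
        ((ly2.comp hχ).add (hγ.mul ((lz2.comp hχ).sub (ly2.comp hχ))))
    have m1 : (zz.1, yy.2 + g0 * (zz.2 - yy.2)) ∈ S0 :=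
      hclS0.mem_of_tendsto l1 (Eventually.of_forall hm)
    refine ⟨m1, ?_⟩
    exact (h.ex.ca _ m1).tendsto.comp
      (tendsto_nhdsWithin_iff.2 ⟨l1, Eventually.of_forall hm⟩)
  obtain ⟨m1, lJ1⟩ := hP _ _ lx1 (fun k => hx1 (ψ k))
  obtain ⟨m2, lJ2⟩ := hP _ _ lx2 (fun k => hx2 (ψ k))
  have lJ0 : Tendsto (fun k => J.a (y (φ (ψ k)))) atTop (𝓝 (J.a yy)) := by
    have l1 : Tendsto (fun k => y (φ (ψ k))) atTop (𝓝 yy) := ly.comp hχ
    exact (h.ex.ca _ (h.sub hyyS)).tendsto.comp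
      (tendsto_nhdsWithin_iff.2 ⟨l1, Eventually.of_forall fun k => h.sub (hy _)⟩)
  have hlim := ((((((lx3.const_sub 1).mul lJ1).add (lx3.mul lJ2)).const_mul lam).sub
    (lJ0.const_mul (lam - 1))).sub_const (J.a zz)).abs
  have hge := ge_of_tendsto' hlim fun k => hxq (ψ k)
  obtain ⟨⟨k1, k2⟩, ⟨k3, k4⟩, ⟨k5, k6⟩⟩ := hxxK
  have hb1 : 0 < 1 / (8 * lam) := by positivity
  have hb2 : 0 < 1 / lam := by positivity
  have hb3 : 8 / lam ≤ 1 := by
    rw [div_le_one hl]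
    exact hlam
  have hb4 : 1 / lam < 1 := by
    rw [div_lt_one hl]
    linarith
  have eyy : (zz.1, yy.2) = yy := by rw [← h1eq]
  have ezz : (zz.1, zz.2) = zz := rfl
  -- the key affine identity
  have hkey : ∀ α : ℝ, 0 ≤ α → α ≤ 1 → (zz.1, yy.2 + α * (zz.2 - yy.2)) ∈ S0 →
      J.a (zz.1, yy.2 + α * (zz.2 - yy.2)) = (1 - α) * J.a yy + α * J.a zz := by
    intro α h0 h1 hm
    rcases lt_trichotomy yy.2 zz.2 with hlt | heq | hgt
    · have hp : 0 < zz.2 - yy.2 := by linarith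
      have hA := h.aff zz.1 yy.2 zz.2 (yy.2 + α * (zz.2 - yy.2)) (by rw [eyy]; exact hyyS) hz hm hlt
        (by nlinarith) (by nlinarith) (fun t ht => haff t (Or.inl ht))
      rw [eyy, ezz] at hA
      have e1 : (zz.2 - yy.2) * J.a (zz.1, yy.2 + α * (zz.2 - yy.2)) =
          (zz.2 - yy.2) * ((1 - α) * J.a yy + α * J.a zz) := by
        rw [hA]
        ring
      exact mul_left_cancel₀ hp.ne' e1
    · have e0 : yy = zz := Prod.ext h1eq heq
      have e1 : (zz.1, yy.2 + α * (zz.2 - yy.2)) = zz := by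
        rw [heq, sub_self, mul_zero, add_zero]
      rw [e1, e0]
      ring
    · have hp : 0 < yy.2 - zz.2 := by linarith
      have hA := h.aff zz.1 zz.2 yy.2 (yy.2 + α * (zz.2 - yy.2)) hz (by rw [eyy]; exact hyyS) hm hgt
        (by nlinarith) (by nlinarith) (fun t ht => by
          have := haff t (Or.inr ht)
          linarith)
      rw [eyy, ezz] at hA
      have e1 : (yy.2 - zz.2) * J.a (zz.1, yy.2 + α * (zz.2 - yy.2)) =
          (yy.2 - zz.2) * ((1 - α) * J.a yy + α * J.a zz) := by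
        rw [hA]
        ring
      exact mul_left_cancel₀ hp.ne' e1
  rw [hkey xx.1 (by linarith) (by linarith) m1, hkey xx.2.1 (by linarith) (by linarith) m2] at hge
  have hfin : lam * ((1 - xx.2.2) * ((1 - xx.1) * J.a yy + xx.1 * J.a zz) +
      xx.2.2 * ((1 - xx.2.1) * J.a yy + xx.2.1 * J.a zz)) - (lam - 1) * J.a yy - J.a zz = 0 := by
    have e1 : lam * ((1 - xx.2.2) * xx.1 + xx.2.2 * xx.2.1) = 1 := by
      rw [hee]
      field_simp
    linear_combination (J.a zz - J.a yy) * e1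
  rw [hfin, abs_zero] at hge
  linarith

/-- A second order expansion with negative `a` and concavity in `p` give strict concavity at the point. -/
theorem strict_of_exp (w : ℝ × ℝ → ℝ) (hw : ∀ t, ConcaveOn ℝ univ fun p => w (p, t)) (y : ℝ × ℝ)
    (p s a b c : ℝ) (he : ExpAt w y p s a b c) (ha : a < 0) (r : ℝ) (hr : 0 < r) :
    w (y.1 + r, y.2) + w (y.1 - r, y.2) < 2 * w y := by
  obtain ⟨δ, hδ, hh⟩ := he (-a / 4) (by linarith)
  set u := min r δ with hu
  have hu0 : 0 < u := lt_min hr hδ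
  have hur : u ≤ r := min_le_left _ _
  have hud : u ^ 2 ≤ δ ^ 2 := pow_le_pow_left₀ hu0.le (min_le_right _ _) 2
  have h1 := hh (u, 0) (by simp only [sq]; nlinarith)
  have h2 := hh (-u, 0) (by simp only [sq]; nlinarith)
  have e1 : y + (u, 0) = (y.1 + u, y.2) := by
    ext <;> simp
  have e2 : y + (-u, 0) = (y.1 - u, y.2) := by
    ext <;> simp [sub_eq_add_neg]
  rw [e1] at h1
  rw [e2] at h2
  simp only [sq] at h1 h2
  have h3 := (abs_le.1 h1).2
  have h4 := (abs_le.1 h2).2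
  have hu2 : 0 < u ^ 2 := by positivity
  have h5 : w (y.1 + u, y.2) + w (y.1 - u, y.2) < 2 * w y := by nlinarith
  -- scaling
  have hμ0 : 0 ≤ u / r := by positivity
  have hμ1 : u / r ≤ 1 := (div_le_one hr).2 hur
  have hμp : 0 < u / r := by positivity
  have c1 := (hw y.2).2 (mem_univ y.1) (mem_univ (y.1 + r)) (by linarith : (0 : ℝ) ≤ 1 - u / r) hμ0
    (by ring)
  have c2 := (hw y.2).2 (mem_univ y.1) (mem_univ (y.1 - r)) (by linarith : (0 : ℝ) ≤ 1 - u / r) hμ0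
    (by ring)
  simp only [smul_eq_mul] at c1 c2
  have f1 : (1 - u / r) * y.1 + u / r * (y.1 + r) = y.1 + u := by
    field_simp
    ring
  have f2 : (1 - u / r) * y.1 + u / r * (y.1 - r) = y.1 - u := by
    field_simp
    ring
  rw [f1] at c1
  rw [f2] at c2
  have e3 : (y.1, y.2) = y := rfl
  rw [e3] at c1 c2
  have h6 : (u / r) * (w (y.1 + r, y.2) + w (y.1 - r, y.2) - 2 * w y) < 0 := by
    have e4 : (u / r) * (w (y.1 + r, y.2) + w (y.1 - r, y.2) - 2 * w y) =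
        ((1 - u / r) * w y + u / r * w (y.1 + r, y.2)) +
        ((1 - u / r) * w y + u / r * w (y.1 - r, y.2)) - 2 * w y := by ring
    rw [e4]
    linarith
  by_contra hcon
  push Not at hcon
  have h7 : 0 ≤ (u / r) * (w (y.1 + r, y.2) + w (y.1 - r, y.2) - 2 * w y) :=
    mul_nonneg hμ0 (by linarith)
  linarith

theorem expAt_of_exp2 (w : ℝ × ℝ → ℝ) (K : Set (ℝ × ℝ)) (J : Jets) (h : Exp2 w K J) (y : ℝ × ℝ)
    (hy : y ∈ K) : ExpAt w y (J.p y) (J.s y) (J.a y) (J.b y) (J.c y) := by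
  intro ε hε
  obtain ⟨δ, hδ, hh⟩ := h.ex ε hε
  exact ⟨δ, hδ, fun v hv => hh y hy v hv⟩

/-- Uniqueness of the coefficients of a second order expansion. -/
theorem expAt_unique (w : ℝ × ℝ → ℝ) (y : ℝ × ℝ) (p s a b c p' s' a' b' c' : ℝ)
    (h : ExpAt w y p s a b c) (h' : ExpAt w y p' s' a' b' c') :
    p = p' ∧ s = s' ∧ a = a' ∧ b = b' ∧ c = c' := by
  have key : ∀ m n : ℝ, m ^ 2 + n ^ 2 ≤ 2 → (p - p') * m + (s - s') * n = 0 ∧
      ((a - a') * m ^ 2 + 2 * (b - b') * m * n + (c - c') * n ^ 2) / 2 = 0 := by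
    intro m n hmn
    refine poly_zero _ _ ?_
    intro ε hε
    obtain ⟨δ, hδ, hh⟩ := h (ε / 4) (by linarith)
    obtain ⟨δ', hδ', hh'⟩ := h' (ε / 4) (by linarith)
    refine ⟨min δ δ' / 2, by positivity, fun u hu => ?_⟩
    have hm0 : 0 < min δ δ' := lt_min hδ hδ'
    have hu2 : u ^ 2 ≤ (min δ δ' / 2) ^ 2 := by
      rw [← sq_abs]
      exact pow_le_pow_left₀ (abs_nonneg u) hu 2
    have hmd : (min δ δ') ^ 2 ≤ δ ^ 2 := pow_le_pow_left₀ hm0.le (min_le_left _ _) 2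
    have hmd' : (min δ δ') ^ 2 ≤ δ' ^ 2 := pow_le_pow_left₀ hm0.le (min_le_right _ _) 2
    have hsq : sq (m * u, n * u) = (m ^ 2 + n ^ 2) * u ^ 2 := by
      simp only [sq]
      ring
    have hu0 : 0 ≤ u ^ 2 := sq_nonneg u
    have hs2 : sq (m * u, n * u) ≤ 2 * u ^ 2 := by
      rw [hsq]
      exact mul_le_mul_of_nonneg_right hmn hu0
    have h1 := hh (m * u, n * u) (by nlinarith)
    have h2 := hh' (m * u, n * u) (by nlinarith)
    have h3 := abs_sub (w (y + (m * u, n * u)) - w y - (p' * (m * u) + s' * (n * u) +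
      (a' * (m * u) ^ 2 + 2 * b' * (m * u) * (n * u) + c' * (n * u) ^ 2) / 2))
      (w (y + (m * u, n * u)) - w y - (p * (m * u) + s * (n * u) +
      (a * (m * u) ^ 2 + 2 * b * (m * u) * (n * u) + c * (n * u) ^ 2) / 2))
    have e : (w (y + (m * u, n * u)) - w y - (p' * (m * u) + s' * (n * u) +
      (a' * (m * u) ^ 2 + 2 * b' * (m * u) * (n * u) + c' * (n * u) ^ 2) / 2)) -
      (w (y + (m * u, n * u)) - w y - (p * (m * u) + s * (n * u) +
      (a * (m * u) ^ 2 + 2 * b * (m * u) * (n * u) + c * (n * u) ^ 2) / 2)) =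
      ((p - p') * m + (s - s') * n) * u +
        ((a - a') * m ^ 2 + 2 * (b - b') * m * n + (c - c') * n ^ 2) / 2 * u ^ 2 := by ring
    rw [e] at h3
    refine h3.trans ?_
    nlinarith
  have k1 := key 1 0 (by norm_num)
  have k2 := key 0 1 (by norm_num)
  have k3 := key 1 1 (by norm_num)
  obtain ⟨k11, k12⟩ := k1
  obtain ⟨k21, k22⟩ := k2
  obtain ⟨k31, k32⟩ := k3
  refine ⟨by linarith, by linarith, by linarith, by linarith, by linarith⟩

end Pool.Agent.MP_4eca41
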