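import Pool.Agent.Work.MP_4eca41_an.C.CDefs
import Pool.Agent.Work.MP_4eca41_an.T.T4Z

/-!
# C1: the adapted radius function exists  (paper: C0, C1)

PROOF.  `S0` is compact, `J.a`, `J.p` are bounded on it.  Let `η k → 0` be such that for `k ≥ k0`,
`y ∈ S0`, `|u| ≤ 2^(1-k)`: `|w (y.1+u, y.2) - w y - J.p y u - J.a y u^2/2| ≤ η k u^2` (`Exp2` with `v = (u, 0)`,
where `J.q y (u,0) = J.p y u + J.a y u^2/2`); wlog `η` antitone, `≤ 1`, positive.  With `C` from `t4_zero`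
choose `e k` antitone, positive, tending to `0`, `e 0 ≤ 1/(16 C)`, and `e (k+1) ≥ (η k)^(1/4)/(16 C)` for
`k ≥ k0` (e.g. `e (k+1) = max ((η k)^(1/4)) (2^(-k))/(16C)` for `k ≥ k0`, `e k = 1/(16 C)` for `k ≤ k0`), and take
`ρ, ρ1, ρ2` from `t4_zero`.  Then `ρ x ≤ 4 e k |x| ≤ |x|/4` (for `|x| ≥ 1`: `ρ ≤ 2 e 0`), `ρ x ≤ 4 e k |x|` gives
`small`; `|ρ1| ≤ 1`, `ρ |ρ2| ≤ 4 e k C e k ≤ 1`.
For fixed `y ∈ S0` let `g u = w (y.1 + u, y.2)`, so `Aav ρ w h y = mol ρ g h`.  `mol_second` on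
`U = {0}ᶜ`: `mol ρ g` is C^2 off `0`.  For `2^(-k-1) ≤ |x| ≤ 2^(-k)`, `k ≥ k0`, write `g = T + E`,
`T u = w y + J.p y u + J.a y u^2/2`.  `mol ρ T = T + J.a y ρ^2/18`, second derivative
`J.a y (1 + (ρ1^2 + ρ ρ2)/9)`, with `|ρ1|^2 + ρ|ρ2| ≤ C' (e k)^2`.  `|E u| ≤ η k u^2 ≤ η k (2 |x|)^2` for `|u - x| ≤ ρ x ≤ |x|`,
so by `mol_second` applied to `E`: `|(mol ρ E)'' x| ≤ C0 4 η k x^2/(e (k+1) |x|/2)^2 ≤ C'' (η k)^(1/2)`.  So
`|(mol ρ g)'' x - J.a y| ≤ C (e k^2 + (η k)^(1/2)) =: small` uniformly in `y ∈ S0`.  At `0`: `mol ρ g` is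
differentiable with derivative `J.p y` (`|mol ρ g x - T x| ≤ C x^2`), and `(mol ρ g)'` is continuous at `0`
(`|(mol ρ E)' x| ≤ C0 4 η k x^2/(e (k+1)|x|/2) → 0`, `(mol ρ T)' = T' + J.a ρ ρ1/9`).  Hence for `|x| ≤ δ`, `κ` given,
`mol ρ g - (J.a y - κ) u^2/2` has a continuous derivative on `[-2δ, 2δ]` which is nondecreasing (its
derivative is `≥ 0` off `0`), so it is convex there, and similarly for the upper bound: `near`.
`bd`: for `δ ≤ |x| ≤ 4` the second derivative is bounded: `|g| ≤ B` on the relevant compact set (`w`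
continuous, `S0` compact), `ρ ≥ m > 0` there; combine with `near` (derivative continuous on `[-4, 4]`
and Lipschitz).
-/

set_option autoImplicit false

open Set MeasureTheory

namespace Pool.Agent.MP_4eca41

/-- the profile on a horizontal line -/
private def gy (w : ℝ × ℝ → ℝ) (y : ℝ × ℝ) (u : ℝ) : ℝ := w (y.1 + u, y.2)

private theorem aav_mol (ρ : ℝ → ℝ) (w : ℝ × ℝ → ℝ) (h : ℝ) (y : ℝ × ℝ) :
    Aav ρ w h y = mol ρ (gy w y) h := by
  unfold Aav mol gy
  simp only [add_assoc]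

private theorem gy_cont {w : ℝ × ℝ → ℝ} (hw : Continuous w) (y : ℝ × ℝ) : Continuous (gy w y) :=
  hw.comp ((continuous_const.add continuous_id).prodMk continuous_const)

private theorem gy_conc {w : ℝ × ℝ → ℝ} (hc : ∀ t, ConcaveOn ℝ univ fun p => w (p, t)) (y : ℝ × ℝ) :
    ConcaveOn ℝ univ (gy w y) := (hc y.2).translate_right y.1

private theorem cr_lip (G m2 : ℝ → ℝ) (a κ R : ℝ) (hG0 : ContinuousAt G 0)
    (hG : ∀ x, x ≠ 0 → HasDerivAt G (m2 x) x) (hb : ∀ x, x ≠ 0 → |x| ≤ R → |m2 x - a| ≤ κ)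
    (x x' : ℝ) (hx : |x| ≤ R) (hx' : |x'| ≤ R) :
    |G x - G x' - a * (x - x')| ≤ κ * |x - x'| := by
  have hGc : Continuous G := by
    rw [continuous_iff_continuousAt]
    intro z
    by_cases hz : z = 0
    · rw [hz]; exact hG0
    · exact (hG z hz).continuousAt
  have seg : ∀ p q : ℝ, p < q → (∀ c ∈ Ioo p q, c ≠ 0) → |p| ≤ R → |q| ≤ R →
      |G q - G p - a * (q - p)| ≤ κ * (q - p) := by
    intro p q hpq h0 hp hq
    obtain ⟨c, hc, hc2⟩ := exists_hasDerivAt_eq_slope G m2 hpq hGc.continuousOn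
      fun z hz => hG z (h0 z hz)
    have hqp : 0 < q - p := by linarith
    have h1 : G q - G p = m2 c * (q - p) := by
      rw [hc2]
      field_simp
    have h2 : |c| ≤ R := by
      rw [abs_le] at hp hq ⊢
      constructor <;> linarith [hc.1, hc.2, hp.1, hq.2]
    have h3 := hb c (h0 c hc) h2
    rw [h1, ← sub_mul, abs_mul, abs_of_pos hqp]
    exact mul_le_mul_of_nonneg_right h3 hqp.le
  have main : ∀ p q : ℝ, p ≤ q → |p| ≤ R → |q| ≤ R → |G q - G p - a * (q - p)| ≤ κ * (q - p) := by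
    intro p q hpq hp hq
    rcases hpq.eq_or_lt with h | h
    · rw [h]; simp
    · rcases le_or_gt 0 p with h1 | h1
      · exact seg p q h (fun c hc => by linarith [hc.1] |> fun h : 0 < c => h.ne') hp hq
      · rcases le_or_gt q 0 with h2 | h2
        · exact seg p q h (fun c hc => by linarith [hc.2] |> fun h : c < 0 => h.ne) hp hq
        · have hR : |(0 : ℝ)| ≤ R := by
            rw [abs_zero]
            exact (abs_nonneg p).trans hp
          have h3 := seg p 0 h1 (fun c hc => hc.2.ne) hp hR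
          have h4 := seg 0 q h2 (fun c hc => hc.1.ne') hR hq
          have e : G q - G p - a * (q - p) = (G q - G 0 - a * (q - 0)) +
              (G 0 - G p - a * (0 - p)) := by ring
          rw [e]
          refine (abs_add_le _ _).trans ?_
          linarith
  rcases le_total x' x with h | h
  · have := main x' x h hx' hx
    rwa [abs_of_nonneg (by linarith : 0 ≤ x - x')]
  · have := main x x' h hx hx'
    rw [abs_of_nonpos (by linarith : x - x' ≤ 0)]
    have e : G x - G x' - a * (x - x') = -(G x' - G x - a * (x' - x)) := by ring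
    rw [e, abs_neg]
    linarith

private theorem cr_d2 (f G : ℝ → ℝ) (a κ R : ℝ) (hf : ∀ x, HasDerivAt f (G x) x)
    (hG : ∀ x x', |x| ≤ R → |x'| ≤ R → |G x - G x' - a * (x - x')| ≤ κ * |x - x'|) (x h : ℝ)
    (hx : |x| + |h| ≤ R) : |d2 f h x - a * h ^ 2| ≤ κ * h ^ 2 := by
  have key : ∀ h : ℝ, 0 ≤ h → |x| + h ≤ R → |d2 f h x - a * h ^ 2| ≤ κ * h ^ 2 := by
    intro h hh hx
    have h1 : ∀ t : ℝ, HasDerivAt (fun t => d2 f t x - a * t ^ 2)
        (G (x + t) - G (x - t) - a * (2 * t)) t := by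
      intro t
      have e1 := (hf (x + t)).comp_const_add x t
      have e2 := (hf (x - t)).comp_const_sub x t
      have e3 := (((e1.add e2).sub_const (2 * f x)).sub ((hasDerivAt_pow 2 t).const_mul a))
      convert! e3 using 1
      norm_num
      ring
    have h2 := image_norm_le_of_norm_deriv_right_le_deriv_boundary
      (f := fun t => d2 f t x - a * t ^ 2) (f' := fun t => G (x + t) - G (x - t) - a * (2 * t))
      (a := 0) (b := h) (fun t _ => (h1 t).continuousAt.continuousWithinAt)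
      (fun t _ => (h1 t).hasDerivWithinAt) (B := fun t => κ * t ^ 2) (B' := fun t => κ * (2 * t))
      (by simp only [d2, add_zero, sub_zero, Real.norm_eq_abs]; norm_num; ring_nf) (fun t => by
        have := (hasDerivAt_pow 2 t).const_mul κ
        convert! this using 1
        norm_num) (fun t ht => by
        have h3 : |x + t| ≤ R := (abs_add_le x t).trans (by
          rw [abs_of_nonneg ht.1]; linarith [ht.2])
        have h4 : |x - t| ≤ R := (abs_sub x t).trans (by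
          rw [abs_of_nonneg ht.1]; linarith [ht.2])
        have h5 := hG (x + t) (x - t) h3 h4
        have e : x + t - (x - t) = 2 * t := by ring
        rw [e, abs_of_nonneg (by linarith [ht.1] : 0 ≤ 2 * t)] at h5
        rw [Real.norm_eq_abs]
        exact h5) (right_mem_Icc.2 hh)
    rw [Real.norm_eq_abs] at h2
    exact h2
  rcases le_total 0 h with hh | hh
  · exact key h hh (by rwa [abs_of_nonneg hh] at hx)
  · have h1 := key (-h) (by linarith) (by rwa [abs_of_nonpos hh] at hx)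
    have e : d2 f (-h) x = d2 f h x := by
      unfold d2
      rw [sub_neg_eq_add, ← sub_eq_add_neg]
      ring
    rw [e, neg_sq] at h1
    exact h1

/-- the error of the second order expansion on a horizontal line -/
private noncomputable def Er (w : ℝ × ℝ → ℝ) (J : Jets) (y : ℝ × ℝ) (u : ℝ) : ℝ :=
  w (y.1 + u, y.2) - w y - J.p y * u - J.a y * u ^ 2 / 2

private theorem er_cont {w : ℝ × ℝ → ℝ} (hw : Continuous w) (J : Jets) (y : ℝ × ℝ) :
    Continuous (Er w J y) := by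
  have h1 := gy_cont hw y
  unfold Er
  unfold gy at h1
  fun_prop

private theorem er_zero (w : ℝ × ℝ → ℝ) (J : Jets) (y : ℝ × ℝ) : Er w J y 0 = 0 := by
  unfold Er
  simp

private theorem er_exp {w : ℝ × ℝ → ℝ} {S0 : Set (ℝ × ℝ)} {J : Jets} (hE : Exp2 w S0 J) {ε : ℝ}
    (hε : 0 < ε) : ∃ δ : ℝ, 0 < δ ∧ ∀ y ∈ S0, ∀ u : ℝ, |u| ≤ δ → |Er w J y u| ≤ ε * u ^ 2 := by
  obtain ⟨δ, hδ, h⟩ := hE.ex ε hε
  refine ⟨δ, hδ, fun y hy u hu => ?_⟩
  have h1 := h y hy (u, 0) (by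
    unfold sq
    simp only
    have := sq_le_sq' (by linarith [(abs_le.1 hu).1]) (abs_le.1 hu).2
    linarith)
  have e1 : y + (u, (0 : ℝ)) = (y.1 + u, y.2) := by
    ext <;> simp
  have e2 : J.q y (u, 0) = J.p y * u + J.a y * u ^ 2 / 2 := by
    unfold Jets.q
    simp
  have e3 : sq (u, (0 : ℝ)) = u ^ 2 := by
    unfold sq
    simp
  rw [e1, e2, e3] at h1
  unfold Er
  have e4 : w (y.1 + u, y.2) - w y - (J.p y * u + J.a y * u ^ 2 / 2) =
      w (y.1 + u, y.2) - w y - J.p y * u - J.a y * u ^ 2 / 2 := by ring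
  rw [e4] at h1
  exact h1

private theorem cr_eta {w : ℝ × ℝ → ℝ} {S0 : Set (ℝ × ℝ)} {J : Jets} (hE : Exp2 w S0 J) :
    ∃ η : ℕ → ℝ, Antitone η ∧ (∀ k, 0 ≤ η k ∧ η k ≤ 1) ∧
      Filter.Tendsto η Filter.atTop (nhds 0) ∧
      ∀ k, η k < 1 → ∀ y ∈ S0, ∀ u : ℝ, |u| ≤ 4 * (1 / 2) ^ k → |Er w J y u| ≤ η k * u ^ 2 := by
  obtain ⟨A, hA⟩ : ∃ A : ℕ → Set ℝ, A = fun k => {r : ℝ | r = 0 ∨ ∃ y ∈ S0, ∃ u : ℝ,
      |u| ≤ 4 * (1 / 2) ^ k ∧ r = min 1 (|Er w J y u| / u ^ 2)} := ⟨_, rfl⟩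
  have h0 : ∀ k, (0 : ℝ) ∈ A k := fun k => by rw [hA]; exact Or.inl rfl
  have hb : ∀ k, ∀ r ∈ A k, r ≤ 1 := by
    intro k r hr
    rw [hA] at hr
    rcases hr with hr | ⟨y, _, u, _, hr⟩
    · rw [hr]; exact zero_le_one
    · rw [hr]; exact min_le_left _ _
  have hbd : ∀ k, BddAbove (A k) := fun k => ⟨1, fun r hr => hb k r hr⟩
  refine ⟨fun k => sSup (A k), ?_, ?_, ?_, ?_⟩
  · intro k l hkl
    refine csSup_le_csSup (hbd k) ⟨0, h0 l⟩ ?_
    intro r hr
    rw [hA] at hr ⊢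
    rcases hr with hr | ⟨y, hy, u, hu, hr⟩
    · exact Or.inl hr
    · refine Or.inr ⟨y, hy, u, hu.trans ?_, hr⟩
      have := pow_le_pow_of_le_one (by norm_num : (0 : ℝ) ≤ 1 / 2) (by norm_num) hkl
      linarith
  · exact fun k => ⟨le_csSup (hbd k) (h0 k), csSup_le ⟨0, h0 k⟩ (hb k)⟩
  · rw [Metric.tendsto_atTop]
    intro ε hε
    obtain ⟨δ, hδ, h1⟩ := er_exp hE (half_pos hε)
    obtain ⟨K, hK⟩ := exists_pow_lt_of_lt_one (by positivity : 0 < δ / 4)
      (by norm_num : (1 / 2 : ℝ) < 1)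
    refine ⟨K, fun k hk => ?_⟩
    have h2 : sSup (A k) ≤ ε / 2 := by
      refine csSup_le ⟨0, h0 k⟩ fun r hr => ?_
      rw [hA] at hr
      rcases hr with hr | ⟨y, hy, u, hu, hr⟩
      · rw [hr]; positivity
      · rw [hr]
        refine (min_le_right _ _).trans ?_
        have h3 : |u| ≤ δ := by
          have := pow_le_pow_of_le_one (by norm_num : (0 : ℝ) ≤ 1 / 2) (by norm_num) hk
          linarith
        exact div_le_of_le_mul₀ (sq_nonneg u) (by positivity) (h1 y hy u h3)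
    rw [Real.dist_eq, sub_zero, abs_of_nonneg (le_csSup (hbd k) (h0 k))]
    linarith
  · intro k hk y hy u hu
    by_cases hu0 : u = 0
    · rw [hu0, er_zero]
      simp
    · have h1 : min 1 (|Er w J y u| / u ^ 2) ≤ sSup (A k) := by
        refine le_csSup (hbd k) ?_
        rw [hA]
        exact Or.inr ⟨y, hy, u, hu, rfl⟩
      have h2 : |Er w J y u| / u ^ 2 ≤ sSup (A k) := by
        rcases min_le_iff.1 h1 with h3 | h3
        · exact absurd h3 (not_le.2 hk)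
        · exact h3
      have hpos : 0 < u ^ 2 := by positivity
      exact (div_le_iff₀ hpos).1 h2

private theorem cr_t {η : ℕ → ℝ} (ha : Antitone η) (hb : ∀ k, 0 ≤ η k ∧ η k ≤ 1)
    (ht : Filter.Tendsto η Filter.atTop (nhds 0)) :
    ∃ t : ℕ → ℝ, Antitone t ∧ (∀ k, 0 < t k ∧ t k ≤ 1) ∧
      Filter.Tendsto t Filter.atTop (nhds 0) ∧ ∀ k, η k ≤ t k ^ 4 := by
  refine ⟨fun k => max (√(√(η k))) ((1 / 2) ^ k), ?_, ?_, ?_, ?_⟩
  · intro k l hkl
    refine max_le_max (Real.sqrt_le_sqrt (Real.sqrt_le_sqrt (ha hkl))) ?_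
    exact pow_le_pow_of_le_one (by norm_num) (by norm_num) hkl
  · intro k
    refine ⟨lt_max_of_lt_right (by positivity), max_le ?_ ?_⟩
    · exact Real.sqrt_le_one.2 (Real.sqrt_le_one.2 (hb k).2)
    · exact pow_le_one₀ (by norm_num) (by norm_num)
  · have h1 : Filter.Tendsto (fun k => √(√(η k))) Filter.atTop (nhds 0) := by
      have h2 := (Real.continuous_sqrt.comp Real.continuous_sqrt).tendsto 0
      have h3 := h2.comp ht
      simp only [Function.comp_def, Real.sqrt_zero] at h3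
      exact h3
    have h4 : Filter.Tendsto (fun k : ℕ => (1 / 2 : ℝ) ^ k) Filter.atTop (nhds 0) :=
      tendsto_pow_atTop_nhds_zero_of_lt_one (by norm_num) (by norm_num)
    have h5 := h1.max h4
    rw [max_self] at h5
    exact h5
  · intro k
    have h1 : (√(√(η k))) ^ 4 = η k := by
      have : (√(√(η k))) ^ 4 = ((√(√(η k))) ^ 2) ^ 2 := by ring
      rw [this, Real.sq_sqrt (Real.sqrt_nonneg _), Real.sq_sqrt (hb k).1]
    calc η k = (√(√(η k))) ^ 4 := h1.symm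
      _ ≤ _ := pow_le_pow_left₀ (Real.sqrt_nonneg _) (le_max_left _ _) 4

private theorem mol_dec {w : ℝ × ℝ → ℝ} (hw : Continuous w) (J : Jets) (y : ℝ × ℝ) (ρ : ℝ → ℝ)
    (x : ℝ) : mol ρ (gy w y) x = (w y + J.p y * x + J.a y / 2 * x ^ 2 + J.a y / 2 * ρ x ^ 2 / 9) +
      mol ρ (Er w J y) x := by
  rw [← mol_poly ρ (w y) (J.p y) (J.a y / 2) x]
  unfold mol
  rw [← intervalIntegral.integral_add]
  · refine intervalIntegral.integral_congr fun s _ => ?_
    simp only [gy, Er]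
    ring
  · have h1 := ker_continuous
    exact (by fun_prop : Continuous fun s : ℝ => (w y + J.p y * (x + ρ x * s) +
      J.a y / 2 * (x + ρ x * s) ^ 2) * ker s).intervalIntegrable _ _
  · have h1 := ker_continuous
    have h2 := er_cont hw J y
    exact (by fun_prop : Continuous fun s : ℝ => Er w J y (x + ρ x * s) *
      ker s).intervalIntegrable _ _

private theorem cr_dy {x : ℝ} (hx : x ≠ 0) {K : ℕ} (h : |x| ≤ (1 / 2) ^ K) :
    ∃ k, K ≤ k ∧ (1 / 2 : ℝ) ^ (k + 1) ≤ |x| ∧ |x| ≤ (1 / 2) ^ k := by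
  obtain ⟨k, h1, h2⟩ := exists_nat_pow_near_of_lt_one (abs_pos.2 hx)
    (h.trans (pow_le_one₀ (by norm_num) (by norm_num))) (by norm_num : (0 : ℝ) < 1 / 2)
    (by norm_num)
  refine ⟨k, ?_, h1.le, h2⟩
  by_contra hk
  have h3 : k + 1 ≤ K := by omega
  have h4 := pow_le_pow_of_le_one (by norm_num : (0 : ℝ) ≤ 1 / 2) (by norm_num) h3
  linarith

private theorem cr_y {w : ℝ × ℝ → ℝ} (hw : Continuous w) (J : Jets) (y : ℝ × ℝ)
    {ρ ρ1 ρ2 : ℝ → ℝ} (hρc : Continuous ρ)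
    (hρ : ∀ x, x ≠ 0 → 0 < ρ x ∧ HasDerivAt ρ (ρ1 x) x ∧ HasDerivAt ρ1 (ρ2 x) x)
    (hle : ∀ x, ρ x ≤ |x| / 4) (hρ1 : ∀ x, x ≠ 0 → |ρ1 x| ≤ 1)
    {m1 m2 : ℝ → ℝ} (hm : ∀ x, x ≠ 0 → HasDerivAt (mol ρ (Er w J y)) (m1 x) x ∧
      HasDerivAt m1 (m2 x) x) {L δ1 : ℝ} (hδ1 : 0 < δ1)
    (hL : ∀ x, x ≠ 0 → |x| ≤ δ1 → |m1 x| ≤ L * |x|) :
    ∃ G : ℝ → ℝ, (∀ x, HasDerivAt (fun u => Aav ρ w u y) (G x) x) ∧ ContinuousAt G 0 ∧
      ∀ x, x ≠ 0 → HasDerivAt G (J.a y + J.a y / 9 * (ρ1 x ^ 2 + ρ x * ρ2 x) + m2 x) x := by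
  classical
  obtain ⟨G, hG⟩ : ∃ G : ℝ → ℝ, G = fun x => if x = 0 then J.p y else
      J.p y + J.a y * x + J.a y / 9 * (ρ x * ρ1 x) + m1 x := ⟨_, rfl⟩
  have hG0 : G 0 = J.p y := by rw [hG]; simp
  have hGx : ∀ x, x ≠ 0 → G x = J.p y + J.a y * x + J.a y / 9 * (ρ x * ρ1 x) + m1 x := by
    intro x hx
    rw [hG]
    simp [hx]
  have hf : (fun u => Aav ρ w u y) = fun u => (w y + J.p y * u + J.a y / 2 * u ^ 2 +
      J.a y / 2 * ρ u ^ 2 / 9) + mol ρ (Er w J y) u := by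
    funext u
    rw [aav_mol, mol_dec hw]
  have hGc : ContinuousAt G 0 := by
    refine continuousAt_of_locally_lipschitz hδ1 (|J.a y| + |J.a y| + L) fun x hx => ?_
    rw [Real.dist_eq, sub_zero] at hx
    rw [Real.dist_eq, Real.dist_eq, sub_zero]
    by_cases hx0 : x = 0
    · rw [hx0, sub_self, abs_zero]
      simp
    · rw [hG0, hGx x hx0]
      have h1 := hL x hx0 hx.le
      have h2 : |ρ x * ρ1 x| ≤ |x| := by
        rw [abs_mul, abs_of_pos (hρ x hx0).1]
        calc ρ x * |ρ1 x| ≤ |x| / 4 * 1 :=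
              mul_le_mul (hle x) (hρ1 x hx0) (abs_nonneg _) (by positivity)
          _ ≤ |x| := by linarith [abs_nonneg x]
      have e : J.p y + J.a y * x + J.a y / 9 * (ρ x * ρ1 x) + m1 x - J.p y =
          J.a y * x + J.a y / 9 * (ρ x * ρ1 x) + m1 x := by ring
      rw [e]
      refine (abs_add_le _ _).trans ((add_le_add (abs_add_le _ _) h1).trans ?_)
      have h3 : |J.a y * x| = |J.a y| * |x| := abs_mul _ _
      have h4 : |J.a y / 9 * (ρ x * ρ1 x)| ≤ |J.a y| * |x| := by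
        rw [abs_mul]
        refine mul_le_mul ?_ h2 (abs_nonneg _) (abs_nonneg _)
        rw [abs_div]
        norm_num
        linarith [abs_nonneg (J.a y)]
      rw [h3]
      linarith
  have hfx : ∀ x, x ≠ 0 → HasDerivAt (fun u => Aav ρ w u y) (G x) x := by
    intro x hx
    rw [hf, hGx x hx]
    have h1 := (((((hasDerivAt_id x).const_mul (J.p y)).const_add (w y)).add
      ((hasDerivAt_pow 2 x).const_mul (J.a y / 2))).add
      ((((hρ x hx).2.1.pow 2).const_mul (J.a y / 2)).div_const 9)).add (hm x hx).1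
    convert! h1 using 1
    norm_num
    ring
  have hGd : ∀ x, x ≠ 0 → HasDerivAt G
      (J.a y + J.a y / 9 * (ρ1 x ^ 2 + ρ x * ρ2 x) + m2 x) x := by
    intro x hx
    have h1 := ((((hasDerivAt_id x).const_mul (J.a y)).const_add (J.p y)).add
      (((hρ x hx).2.1.mul (hρ x hx).2.2).const_mul (J.a y / 9))).add (hm x hx).2
    have h2 : HasDerivAt (fun x => J.p y + J.a y * x + J.a y / 9 * (ρ x * ρ1 x) + m1 x)
        (J.a y + J.a y / 9 * (ρ1 x ^ 2 + ρ x * ρ2 x) + m2 x) x := by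
      convert! h1 using 1
      ring
    refine h2.congr_of_eventuallyEq ?_
    filter_upwards [isOpen_compl_singleton.mem_nhds (show x ∈ ({0}ᶜ : Set ℝ) from hx)] with z hz
    exact hGx z hz
  have hc : Continuous fun u => Aav ρ w u y := by
    have h1 : (fun u => Aav ρ w u y) = mol ρ (gy w y) := funext fun u => aav_mol ρ w u y
    rw [h1]
    exact mol_continuous ρ _ hρc (gy_cont hw y)
  exact ⟨G, hasDerivAt_of_hasDerivAt_of_ne' hfx hc.continuousAt hGc, hGc, hGd⟩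

theorem exists_rho (w : ℝ × ℝ → ℝ) (hw : Continuous w) (S0 : Set (ℝ × ℝ)) (hS : IsCompact S0)
    (J : Jets) (hE : Exp2 w S0 J) : ∃ ρ : ℝ → ℝ, Rho w S0 J ρ := by
  obtain ⟨C, hC1, hT4⟩ := t4_zero
  obtain ⟨C0, hC0, hmol⟩ := mol_second
  obtain ⟨η, hηa, hηb, hηt, hη⟩ := cr_eta hE
  obtain ⟨t, hta, htb, htt, ht4⟩ := cr_t hηa hηb hηt
  obtain ⟨A, hA⟩ := hS.exists_bound_of_continuousOn hE.ca
  obtain ⟨P, hP⟩ := hS.exists_bound_of_continuousOn hE.cp
  obtain ⟨W, hW⟩ := hS.exists_bound_of_continuousOn hw.continuousOn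
  obtain ⟨W4, hW4⟩ := (hS.prod (isCompact_Icc (a := (-4 : ℝ)) (b := 4))).exists_bound_of_continuousOn
    (f := fun z : (ℝ × ℝ) × ℝ => w (z.1.1 + z.2, z.1.2)) (by
      have : Continuous fun z : (ℝ × ℝ) × ℝ => w (z.1.1 + z.2, z.1.2) := by fun_prop
      exact this.continuousOn)
  simp only [Real.norm_eq_abs] at hA hP hW hW4
  obtain ⟨c, hc⟩ : ∃ c : ℝ, c = 1 / (16 * C) := ⟨_, rfl⟩
  have hc0 : 0 < c := by rw [hc]; positivity
  have hCc : C * c = 1 / 16 := by rw [hc]; field_simp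
  have hc16 : c ≤ 1 / 16 := by nlinarith
  obtain ⟨ρ, ρ1, ρ2, hρc, hρ0, hρ, hρ2c, hdy, hbig⟩ := hT4 (fun k => c * t k)
    (fun k l hkl => mul_le_mul_of_nonneg_left (hta hkl) hc0.le)
    (fun k => mul_pos hc0 (htb k).1) (by nlinarith [(htb 0).2, (htb 0).1])
  -- elementary bounds
  have hle : ∀ x, ρ x ≤ |x| / 4 := by
    intro x
    by_cases hx0 : x = 0
    · rw [hx0, hρ0]; simp
    · rcases le_total |x| 1 with h1 | h1
      · obtain ⟨k, -, h2, h3⟩ := cr_dy (K := 0) hx0 (by simpa using h1)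
        have h4 := (hdy x k h2 h3).2.1
        have h5 : c * t k ≤ 1 / 16 := by nlinarith [(htb k).2, (htb k).1]
        nlinarith [abs_nonneg x]
      · have h4 := (hbig x h1).2.1
        have h5 : c * t 0 ≤ 1 / 16 := by nlinarith [(htb 0).2, (htb 0).1]
        linarith
  have hρ1 : ∀ x, x ≠ 0 → |ρ1 x| ≤ 1 := by
    intro x hx0
    rcases le_total |x| 1 with h1 | h1
    · obtain ⟨k, -, h2, h3⟩ := cr_dy (K := 0) hx0 (by simpa using h1)
      have h4 := (hdy x k h2 h3).2.2.1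
      have h5 : C * (c * t k) ≤ 1 := by
        rw [← mul_assoc, hCc]
        linarith [(htb k).2, (htb k).1]
      linarith
    · rw [(hbig x h1).2.2.1]; simp
  have hρ2 : ∀ x, x ≠ 0 → ρ x * |ρ2 x| ≤ 1 := by
    intro x hx0
    rcases le_total |x| 1 with h1 | h1
    · obtain ⟨k, -, h2, h3⟩ := cr_dy (K := 0) hx0 (by simpa using h1)
      have h4 := (hdy x k h2 h3).2.2.2
      have h5 : C * (c * t k) ≤ 1 := by
        rw [← mul_assoc, hCc]
        linarith [(htb k).2, (htb k).1]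
      have h6 : ρ x * |ρ2 x| ≤ |x| / 4 * |ρ2 x| :=
        mul_le_mul_of_nonneg_right (hle x) (abs_nonneg _)
      nlinarith [abs_nonneg x, abs_nonneg (ρ2 x)]
    · rw [(hbig x h1).2.2.2]; simp
  -- scale from which on the error is controlled
  obtain ⟨K, hK⟩ : ∃ K : ℕ, ∀ k ≥ K, η k < 1 := by
    have h1 := (tendsto_order.1 hηt).2 1 one_pos
    exact Filter.eventually_atTop.1 h1
  -- the data for the individual points
  have hdat : ∀ y ∈ S0, ∃ G M2 : ℝ → ℝ, (∀ x, HasDerivAt (fun u => Aav ρ w u y) (G x) x) ∧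
      ContinuousAt G 0 ∧ (∀ x, x ≠ 0 → HasDerivAt G (M2 x) x) ∧
      (∀ (x : ℝ) (k : ℕ), K ≤ k → x ≠ 0 → (1 / 2 : ℝ) ^ (k + 1) ≤ |x| → |x| ≤ (1 / 2) ^ k →
        |M2 x - J.a y| ≤ (A + 16 * C0 / c ^ 2) * t k) ∧
      ∀ x, x ≠ 0 → |x| ≤ 3 → |M2 x| ≤ A + A + C0 * (W4 + W + P * 4 + A * 8) / ρ x ^ 2 := by
    intro y hy
    have hAy := hA y hy
    have hA0 : 0 ≤ A := (abs_nonneg _).trans hAy
    obtain ⟨m1, m2, hm, -, hmb⟩ := hmol (Er w J y) ρ ρ1 ρ2 {0}ᶜ isOpen_compl_singleton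
      (er_cont hw J y) (fun x hx => (hρ x hx).1) (fun x hx => (hρ x hx).2.1)
      (fun x hx => (hρ x hx).2.2) hρ2c hρ1 hρ2
    have hEb : ∀ (x : ℝ) (k : ℕ), K ≤ k → x ≠ 0 → |x| ≤ (1 / 2) ^ k → ∀ u, |u - x| ≤ ρ x →
        |Er w J y u| ≤ η (k + 1) * (4 * x ^ 2) := by
      intro x k hk hx0 hx2 u hu
      have h1 : |u| ≤ 2 * |x| := by
        have h2 : |u| ≤ |u - x| + |x| := by
          have := abs_add_le (u - x) x
          rwa [sub_add_cancel] at this
        linarith [hle x, abs_nonneg x]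
      have h3 : |u| ≤ 4 * (1 / 2) ^ (k + 1) := by
        rw [pow_succ]
        linarith
      refine (hη (k + 1) (hK (k + 1) (by omega)) y hy u h3).trans ?_
      refine mul_le_mul_of_nonneg_left ?_ (hηb _).1
      rw [← sq_abs u, ← sq_abs x]
      nlinarith [abs_nonneg u, abs_nonneg x]
    have hρlow : ∀ (x : ℝ) (k : ℕ), (1 / 2 : ℝ) ^ (k + 1) ≤ |x| → |x| ≤ (1 / 2) ^ k →
        c * t (k + 1) / 2 * |x| ≤ ρ x := fun x k h1 h2 => (hdy x k h1 h2).1
    have hm1 : ∀ (x : ℝ) (k : ℕ), K ≤ k → x ≠ 0 → (1 / 2 : ℝ) ^ (k + 1) ≤ |x| →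
        |x| ≤ (1 / 2) ^ k → |m1 x| ≤ 8 * C0 / c * |x| := by
      intro x k hk hx0 h1 h2
      have h3 := (hmb x hx0 _ (hEb x k hk hx0 h2)).1
      refine h3.trans ?_
      rw [div_le_iff₀ (hρ x hx0).1]
      have h4 := hρlow x k h1 h2
      have h5 : η (k + 1) ≤ t (k + 1) := by
        refine (ht4 (k + 1)).trans ?_
        have h6 := htb (k + 1)
        calc t (k + 1) ^ 4 = t (k + 1) ^ 3 * t (k + 1) := by ring
          _ ≤ 1 * t (k + 1) := mul_le_mul_of_nonneg_right (pow_le_one₀ h6.1.le h6.2) h6.1.le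
          _ = _ := one_mul _
      calc C0 * (η (k + 1) * (4 * x ^ 2)) ≤ C0 * (t (k + 1) * (4 * x ^ 2)) := by gcongr
        _ = 8 * C0 / c * |x| * (c * t (k + 1) / 2 * |x|) := by
            rw [← sq_abs x]
            field_simp
            ring
        _ ≤ 8 * C0 / c * |x| * ρ x := mul_le_mul_of_nonneg_left h4 (by positivity)
    have hm2 : ∀ (x : ℝ) (k : ℕ), K ≤ k → x ≠ 0 → (1 / 2 : ℝ) ^ (k + 1) ≤ |x| →
        |x| ≤ (1 / 2) ^ k → |m2 x| ≤ 16 * C0 / c ^ 2 * t k := by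
      intro x k hk hx0 h1 h2
      have h3 := (hmb x hx0 _ (hEb x k hk hx0 h2)).2
      refine h3.trans ?_
      have hp := (hρ x hx0).1
      rw [div_le_iff₀ (by positivity)]
      have h4 := hρlow x k h1 h2
      have h6 := htb (k + 1)
      have h7 := hta (Nat.le_succ k)
      have h4' : (c * t (k + 1) / 2 * |x|) ^ 2 ≤ ρ x ^ 2 :=
        pow_le_pow_left₀ (by have := h6.1; positivity) h4 2
      calc C0 * (η (k + 1) * (4 * x ^ 2)) ≤ C0 * (t (k + 1) ^ 4 * (4 * x ^ 2)) := by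
            gcongr
            exact ht4 (k + 1)
        _ = 16 * C0 / c ^ 2 * t (k + 1) ^ 2 * (c * t (k + 1) / 2 * |x|) ^ 2 := by
            rw [← sq_abs x]
            field_simp
            ring
        _ ≤ 16 * C0 / c ^ 2 * t (k + 1) ^ 2 * ρ x ^ 2 :=
            mul_le_mul_of_nonneg_left h4' (by positivity)
        _ ≤ 16 * C0 / c ^ 2 * t k * ρ x ^ 2 := by
            refine mul_le_mul_of_nonneg_right (mul_le_mul_of_nonneg_left ?_ (by positivity))
              (by positivity)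
            have h8 : t (k + 1) ≤ t k := h7
            nlinarith [h6.1, h6.2]
    obtain ⟨G, hG1, hG2, hG3⟩ := cr_y hw J y hρc hρ hle hρ1 (m1 := m1) (m2 := m2) hm
      (L := 8 * C0 / c) (δ1 := (1 / 2) ^ K) (by positivity) (by
        intro x hx0 hx
        obtain ⟨k, hk, h1, h2⟩ := cr_dy hx0 hx
        exact hm1 x k hk hx0 h1 h2)
    refine ⟨G, _, hG1, hG2, hG3, ?_, ?_⟩
    · intro x k hk hx0 h1 h2
      have h3 := hm2 x k hk hx0 h1 h2
      have h4 := (hdy x k h1 h2).2.2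
      have ht := htb k
      have h5 : C * (c * t k) = t k / 16 := by rw [← mul_assoc, hCc]; ring
      rw [h5] at h4
      have h6 : ρ1 x ^ 2 ≤ t k / 16 := by
        rw [← sq_abs]
        nlinarith [hρ1 x hx0, abs_nonneg (ρ1 x), h4.1]
      have h7 : |ρ x * ρ2 x| ≤ t k / 16 := by
        rw [abs_mul, abs_of_pos (hρ x hx0).1]
        have h8 : ρ x * |ρ2 x| ≤ |x| / 4 * |ρ2 x| :=
          mul_le_mul_of_nonneg_right (hle x) (abs_nonneg _)
        nlinarith [h4.2, abs_nonneg x, abs_nonneg (ρ2 x)]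
      have e : J.a y + J.a y / 9 * (ρ1 x ^ 2 + ρ x * ρ2 x) + m2 x - J.a y =
          J.a y / 9 * (ρ1 x ^ 2 + ρ x * ρ2 x) + m2 x := by ring
      rw [e]
      refine (abs_add_le _ _).trans ?_
      have h9 : |J.a y / 9 * (ρ1 x ^ 2 + ρ x * ρ2 x)| ≤ A * t k := by
        rw [abs_mul]
        have h10 : |J.a y / 9| ≤ A := by
          rw [abs_div]
          norm_num
          linarith [abs_nonneg (J.a y)]
        have h11 : |ρ1 x ^ 2 + ρ x * ρ2 x| ≤ t k := by
          refine (abs_add_le _ _).trans ?_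
          rw [abs_of_nonneg (sq_nonneg (ρ1 x))]
          linarith
        exact mul_le_mul h10 h11 (abs_nonneg _) hA0
      linarith
    · intro x hx0 hx3
      have h1 : |m2 x| ≤ C0 * (W4 + W + P * 4 + A * 8) / ρ x ^ 2 := by
        refine (hmb x hx0 _ ?_).2
        intro u hu
        have h2 : |u| ≤ 4 := by
          have h3 : |u| ≤ |u - x| + |x| := by
            have := abs_add_le (u - x) x
            rwa [sub_add_cancel] at this
          linarith [hle x, abs_nonneg x]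
        have h4 := hW4 (y, u) ⟨hy, (abs_le.1 h2)⟩
        have h5 := hW y hy
        have h6 : |J.p y * u| ≤ P * 4 := by
          rw [abs_mul]
          exact mul_le_mul (hP y hy) h2 (abs_nonneg _) ((abs_nonneg _).trans (hP y hy))
        have h7 : |J.a y * u ^ 2 / 2| ≤ A * 8 := by
          rw [abs_div, abs_mul, abs_of_nonneg (sq_nonneg u)]
          have h8 : u ^ 2 ≤ 16 := by
            rw [← sq_abs]
            nlinarith [abs_nonneg u]
          have h9 : |J.a y| * u ^ 2 ≤ A * 16 := mul_le_mul hAy h8 (sq_nonneg _) hA0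
          norm_num
          linarith
        unfold Er
        refine (abs_sub _ _).trans (add_le_add ((abs_sub _ _).trans (add_le_add
          ((abs_sub _ _).trans (add_le_add h4 h5)) h6)) h7)
      have h2 : |J.a y / 9 * (ρ1 x ^ 2 + ρ x * ρ2 x)| ≤ A := by
        rw [abs_mul]
        have h10 : |J.a y / 9| ≤ A / 2 := by
          rw [abs_div]
          norm_num
          linarith [abs_nonneg (J.a y)]
        have h11 : |ρ1 x ^ 2 + ρ x * ρ2 x| ≤ 2 := by
          refine (abs_add_le _ _).trans ?_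
          rw [abs_of_nonneg (sq_nonneg (ρ1 x)), abs_mul, abs_of_pos (hρ x hx0).1, ← sq_abs (ρ1 x)]
          have := hρ2 x hx0
          nlinarith [hρ1 x hx0, abs_nonneg (ρ1 x)]
        calc |J.a y / 9| * |ρ1 x ^ 2 + ρ x * ρ2 x| ≤ A / 2 * 2 :=
              mul_le_mul h10 h11 (abs_nonneg _) (by positivity)
          _ = A := by ring
      refine (abs_add_le _ _).trans (add_le_add ((abs_add_le _ _).trans (add_le_add hAy h2)) h1)
  refine ⟨ρ, hρc, hρ0, fun x hx => (hρ x hx).1, hle, ?_, ?_, ?_⟩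
  · -- small
    intro κ hκ
    obtain ⟨K1, hK1⟩ := Filter.eventually_atTop.1 ((tendsto_order.1 htt).2 κ hκ)
    refine ⟨(1 / 2) ^ K1, by positivity, fun x hx => ?_⟩
    by_cases hx0 : x = 0
    · rw [hx0, hρ0]; simp
    · obtain ⟨k, hk, h1, h2⟩ := cr_dy hx0 hx
      have h3 := (hdy x k h1 h2).2.1
      have h4 := hK1 k hk
      have h5 : 4 * (c * t k) ≤ κ := by nlinarith [(htb k).1]
      exact h3.trans (mul_le_mul_of_nonneg_right h5 (abs_nonneg x))
  · -- near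
    intro κ hκ
    obtain ⟨D, hD⟩ : ∃ D, D = A + 16 * C0 / c ^ 2 := ⟨_, rfl⟩
    have hDt : Filter.Tendsto (fun k => D * t k) Filter.atTop (nhds 0) := by
      have := htt.const_mul D
      rwa [mul_zero] at this
    obtain ⟨K1, hK1⟩ := Filter.eventually_atTop.1 ((tendsto_order.1 hDt).2 κ hκ)
    refine ⟨(1 / 2) ^ (max K K1) / 2, by positivity, fun y hy x h hx hh => ?_⟩
    obtain ⟨G, M2, hG1, hG2, hG3, hG4, -⟩ := hdat y hy
    have hlip := cr_lip G M2 (J.a y) κ ((1 / 2) ^ (max K K1)) hG2 hG3 (by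
      intro z hz0 hz
      obtain ⟨k, hk, h1, h2⟩ := cr_dy hz0 hz
      have h3 := hG4 z k ((le_max_left _ _).trans hk) hz0 h1 h2
      rw [← hD] at h3
      exact h3.trans (hK1 k ((le_max_right _ _).trans hk)).le)
    exact cr_d2 _ G (J.a y) κ _ hG1 hlip x h (by linarith)
  · -- bd
    have hcomp : IsCompact {x : ℝ | (1 / 2) ^ K ≤ |x| ∧ |x| ≤ 3} := by
      have h1 : {x : ℝ | (1 / 2) ^ K ≤ |x| ∧ |x| ≤ 3} = Icc (-3) 3 ∩ {x : ℝ | (1 / 2) ^ K ≤ |x|} := by
        ext x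
        simp only [mem_inter_iff, mem_Icc, abs_le]
        constructor
        · exact fun h => ⟨h.2, h.1⟩
        · exact fun h => ⟨h.2, h.1⟩
      rw [h1]
      exact isCompact_Icc.inter_right (isClosed_le continuous_const continuous_abs)
    obtain ⟨x0, hx0, hmin⟩ := hcomp.exists_isMinOn ⟨1, by
      show (1 / 2 : ℝ) ^ K ≤ |(1 : ℝ)| ∧ |(1 : ℝ)| ≤ 3
      rw [abs_one]
      exact ⟨pow_le_one₀ (by norm_num) (by norm_num), by norm_num⟩⟩ hρc.continuousOn
    have hr0 : 0 < ρ x0 := by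
      refine (hρ x0 ?_).1
      intro h
      have h1 := hx0.1
      rw [h, abs_zero] at h1
      have : (0 : ℝ) < (1 / 2) ^ K := by positivity
      linarith
    rcases S0.eq_empty_or_nonempty with hem | ⟨y0, hy0⟩
    · exact ⟨0, fun y hy => by rw [hem] at hy; exact absurd hy (notMem_empty _)⟩
    have hA0 : 0 ≤ A := (abs_nonneg _).trans (hA y0 hy0)
    have hP0 : 0 ≤ P := (abs_nonneg _).trans (hP y0 hy0)
    have hW0 : 0 ≤ W := (abs_nonneg _).trans (hW y0 hy0)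
    have hW40 : 0 ≤ W4 := (abs_nonneg _).trans (hW4 (y0, 0) ⟨hy0, by norm_num⟩)
    obtain ⟨M, hM⟩ : ∃ M, M = A + (A + 16 * C0 / c ^ 2) +
        (A + A + C0 * (W4 + W + P * 4 + A * 8) / ρ x0 ^ 2) := ⟨_, rfl⟩
    refine ⟨M, fun y hy x h hx hh => ?_⟩
    obtain ⟨G, M2, hG1, hG2, hG3, hG4, hG5⟩ := hdat y hy
    have hlip := cr_lip G M2 0 M 3 hG2 hG3 (by
      intro z hz0 hz
      rw [sub_zero]
      rcases le_total |z| ((1 / 2) ^ K) with h1 | h1
      · obtain ⟨k, hk, h2, h3⟩ := cr_dy hz0 h1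
        have h4 := hG4 z k hk hz0 h2 h3
        have h5 : |M2 z| ≤ |M2 z - J.a y| + |J.a y| := by
          have := abs_add_le (M2 z - J.a y) (J.a y)
          rwa [sub_add_cancel] at this
        have h6 : (A + 16 * C0 / c ^ 2) * t k ≤ (A + 16 * C0 / c ^ 2) * 1 :=
          mul_le_mul_of_nonneg_left (htb k).2 (by positivity)
        have h7 : 0 ≤ A + A + C0 * (W4 + W + P * 4 + A * 8) / ρ x0 ^ 2 := by positivity
        have h8 := hA y hy
        linarith
      · have h2 := hG5 z hz0 hz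
        have h3 : ρ x0 ≤ ρ z := hmin ⟨h1, hz⟩
        have h4 : C0 * (W4 + W + P * 4 + A * 8) / ρ z ^ 2 ≤
            C0 * (W4 + W + P * 4 + A * 8) / ρ x0 ^ 2 := by
          refine div_le_div_of_nonneg_left (by positivity) (by positivity) ?_
          exact pow_le_pow_left₀ hr0.le h3 2
        have h5 : 0 ≤ A + (A + 16 * C0 / c ^ 2) := by positivity
        linarith)
    have h1 := cr_d2 _ G 0 M 3 hG1 hlip x h (by linarith)
    rwa [zero_mul, sub_zero] at h1

/-- Elementary facts on the averages. -/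
theorem aav_continuous (ρ : ℝ → ℝ) (hρ : Continuous ρ) (w : ℝ × ℝ → ℝ) (hw : Continuous w) :
    Continuous fun x : ℝ × (ℝ × ℝ) => Aav ρ w x.1 x.2 := by
  unfold Aav
  refine intervalIntegral.continuous_parametric_intervalIntegral_of_continuous' ?_ _ _
  have h1 := ker_continuous
  unfold Function.uncurry
  simp only
  fun_prop

theorem aav_zero (ρ : ℝ → ℝ) (h0 : ρ 0 = 0) (w : ℝ × ℝ → ℝ) (y : ℝ × ℝ) : Aav ρ w 0 y = w y := by
  unfold Aav
  simp only [h0, add_zero, zero_mul]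
  rw [intervalIntegral.integral_const_mul, ker_int, mul_one]

theorem aav_convex (ρ : ℝ → ℝ) (w : ℝ × ℝ → ℝ) (hw : Continuous w)
    (hc : ∀ p, ConvexOn ℝ univ fun t => w (p, t)) (h p : ℝ) :
    ConvexOn ℝ univ fun t => Aav ρ w h (p, t) := by
  refine ⟨convex_univ, fun t _ t' _ a b ha hb hab => ?_⟩
  have hk := ker_continuous
  have hi : ∀ t : ℝ, Continuous fun s : ℝ => w (p + h + ρ h * s, t) * ker s := fun t => by
    fun_prop
  simp only [Aav, smul_eq_mul]
  rw [← intervalIntegral.integral_const_mul, ← intervalIntegral.integral_const_mul,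
    ← intervalIntegral.integral_add (((hi t).intervalIntegrable _ _).const_mul a)
      (((hi t').intervalIntegrable _ _).const_mul b)]
  refine intervalIntegral.integral_mono (by norm_num) ((hi _).intervalIntegrable _ _)
    ((((hi t).intervalIntegrable _ _).const_mul a).add
      (((hi t').intervalIntegrable _ _).const_mul b)) fun s => ?_
  have h1 := (hc (p + h + ρ h * s)).2 (mem_univ t) (mem_univ t') ha hb hab
  simp only [smul_eq_mul] at h1
  simp only
  nlinarith [mul_le_mul_of_nonneg_right h1 (ker_nonneg s)]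

theorem aav_le (ρ : ℝ → ℝ) (w : ℝ × ℝ → ℝ) (hw : Continuous w)
    (hc : ∀ t, ConcaveOn ℝ univ fun p => w (p, t)) (h : ℝ) (y : ℝ × ℝ) :
    Aav ρ w h y ≤ w (y.1 + h, y.2) := by
  rw [aav_mol]
  exact mol_le ρ (gy w y) (gy_cont hw y) (gy_conc hc y) h

theorem aav_lt (ρ : ℝ → ℝ) (w : ℝ × ℝ → ℝ) (hw : Continuous w)
    (hc : ∀ t, ConcaveOn ℝ univ fun p => w (p, t)) (h : ℝ) (y : ℝ × ℝ) (hh : 0 < ρ h)
    (hs : ∀ r : ℝ, 0 < r → w (y.1 + h + r, y.2) + w (y.1 + h - r, y.2) < 2 * w (y.1 + h, y.2)) :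
    Aav ρ w h y < w (y.1 + h, y.2) := by
  rw [aav_mol]
  refine mol_lt ρ (gy w y) (gy_cont hw y) (gy_conc hc y) h hh fun r hr => ?_
  have h1 := hs r hr
  unfold gy
  rw [← add_assoc, ← add_sub_assoc]
  exact h1

end Pool.Agent.MP_4eca41
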